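import Pool.Agent.H30EV.Good

/-!
# A positive proportion of all elliptic curves: counting
-/

set_option autoImplicit false
set_option linter.all false

open Polynomial IsDedekindDomain WeierstrassCurve WeierstrassCurve.Affine NumberField
open Pool.Agent.TH115.GD
open scoped Classical IntermediateField

namespace Pool.Agent.H30EV

open Pool.Agent.N922.PQ
open Pool.Agent.N692.PMTOW
open Pool.Agent.N874.PP (Tup chA chB gq tau Two Ev Sq1 U0 sW IsBeta Rt)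
open Pool.Agent.N874.PM (PLoc Lies SelR ShaR)

/-- Many curves of the family are not bad. -/
theorem good_card3 (κ : ℕ) {T : Finset ℤ} {A B : ℤ → ℤ}
    (hT : GoodT T A B) (Φ : ℤ → Prop)
    (hEX : ∀ r : ℕ, ∃ (S : Finset ℤ) (s : ℤ → ℤ), GoodS S s ∧ S.card = r ∧ Disjoint S T ∧
      ∀ Q ∈ S, Φ Q) :
    ∃ (S : Finset ℤ) (s : ℤ → ℤ) (c : ℝ), GoodS S s ∧ Disjoint S T ∧ (∀ Q ∈ S, Φ Q) ∧
      0 < c ∧ ∃ X₀ : ℕ, ∀ X ≥ X₀,
      c * (X : ℝ) ^ 5 ≤ ({p : ℤ × ℤ | (Fam X S s T A B p.1 p.2 ∧ p.1 % 4 = 3 ∧ p.2 % 4 = 3) ∧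
        ¬ LBad κ X S s p.1 p.2}.ncard : ℝ) := by
  obtain ⟨c, hc, hfam⟩ := fam3 T A B hT
  obtain ⟨K, hK⟩ := bad κ
  obtain ⟨r, hr⟩ : ∃ r : ℕ, 2 * (K : ℝ) / c < 2 ^ r :=
    pow_unbounded_of_one_lt _ (by norm_num)
  obtain ⟨S, s, hS, hcard, hdis, hΦ⟩ := hEX r
  obtain ⟨X₁, h1⟩ := hfam S s hS hdis
  obtain ⟨X₂, h2⟩ := hK S s hS
  set P : ℝ := ∏ Q ∈ S, (Q : ℝ) ^ 2 with hP
  have hP0 : 0 < P := Finset.prod_pos fun Q hQ => by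
    have : (0 : ℝ) < Q := by exact_mod_cast (hS Q hQ).1.1
    positivity
  refine ⟨S, s, c / (2 * P), hS, hdis, hΦ, by positivity, max X₁ X₂, fun X hX => ?_⟩
  have hF := h1 X ((le_max_left _ _).trans hX)
  obtain ⟨hfin, hB⟩ := h2 X ((le_max_right _ _).trans hX)
  have hd := Set.le_ncard_diff {p : ℤ × ℤ | LBad κ X S s p.1 p.2}
    {p : ℤ × ℤ | Fam X S s T A B p.1 p.2 ∧ p.1 % 4 = 3 ∧ p.2 % 4 = 3} hfin
  have e : {p : ℤ × ℤ | Fam X S s T A B p.1 p.2 ∧ p.1 % 4 = 3 ∧ p.2 % 4 = 3} \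
      {p : ℤ × ℤ | LBad κ X S s p.1 p.2} =
      {p : ℤ × ℤ | (Fam X S s T A B p.1 p.2 ∧ p.1 % 4 = 3 ∧ p.2 % 4 = 3) ∧
        ¬ LBad κ X S s p.1 p.2} := rfl
  rw [e] at hd
  set F : ℕ := {p : ℤ × ℤ | Fam X S s T A B p.1 p.2 ∧ p.1 % 4 = 3 ∧ p.2 % 4 = 3}.ncard
  set Bd : ℕ := {p : ℤ × ℤ | LBad κ X S s p.1 p.2}.ncard
  set G : ℕ := {p : ℤ × ℤ | (Fam X S s T A B p.1 p.2 ∧ p.1 % 4 = 3 ∧ p.2 % 4 = 3) ∧
    ¬ LBad κ X S s p.1 p.2}.ncard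
  have hd' : (F : ℝ) ≤ Bd + G := by
    have : F ≤ Bd + G := by omega
    exact_mod_cast this
  have hB' : (2 : ℝ) ^ r * P * Bd ≤ K * (X : ℝ) ^ 5 := by
    rw [hcard] at hB
    have h3 : ((2 ^ r * (∏ Q ∈ S, Q) ^ 2 * (Bd : ℤ) : ℤ) : ℝ) ≤ ((K * X ^ 5 : ℤ) : ℝ) := by
      exact_mod_cast hB
    have e2 : ((2 ^ r * (∏ Q ∈ S, Q) ^ 2 * (Bd : ℤ) : ℤ) : ℝ) = (2 : ℝ) ^ r * P * Bd := by
      rw [hP, Finset.prod_pow]
      push_cast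
      ring
    rw [e2] at h3
    refine h3.trans (le_of_eq ?_)
    push_cast
    ring
  have hF' : c * (X : ℝ) ^ 5 ≤ P * F := hF
  rw [div_lt_iff₀ hc] at hr
  have hPB : P * (Bd : ℝ) ≤ c / 2 * (X : ℝ) ^ 5 := by
    have h2r : (0 : ℝ) < 2 ^ r := by positivity
    rw [← mul_le_mul_iff_right₀ h2r]
    calc 2 ^ r * (P * (Bd : ℝ)) = 2 ^ r * P * Bd := by ring
      _ ≤ K * (X : ℝ) ^ 5 := hB'
      _ = (2 * (K : ℝ)) * ((X : ℝ) ^ 5 / 2) := by ring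
      _ ≤ (2 ^ r * c) * ((X : ℝ) ^ 5 / 2) := by gcongr
      _ = 2 ^ r * (c / 2 * (X : ℝ) ^ 5) := by ring
  have hPG : c / 2 * (X : ℝ) ^ 5 ≤ P * G := by
    have : (P : ℝ) * F ≤ P * Bd + P * G := by
      rw [← mul_add]
      exact mul_le_mul_of_nonneg_left hd' hP0.le
    linarith
  calc c / (2 * P) * (X : ℝ) ^ 5 = c / 2 * (X : ℝ) ^ 5 / P := by
        field_simp
    _ ≤ P * G / P := by gcongr
    _ = G := by field_simp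

/-- The good curves. -/
structure GoodE (M₀ : Type) [Field M₀] [NumberField M₀] (T₀ : Finset ℤ) (p : ℤ × ℤ) : Prop where
  ir : ∀ P ∈ T₀, P ∈ irr p.1 p.2
  adm : Adm M₀ p.1 p.2
  sel : GSel p.1 p.2

/-- The main theorem with a bound of order `X ^ 5`. -/
theorem mainE (M₀ : Type) [Field M₀] [NumberField M₀] [IsGalois ℚ M₀] (hur : Unr M₀ 2)
    (T₀ : Finset ℤ) (hT₀ : ∀ P ∈ T₀, IsPr P) :
    ∃ (P X₀ : ℕ) (c : ℝ), 0 < c ∧ 1 ≤ P ∧ ∀ X : ℕ, X₀ ≤ X → ∀ H : ℕ, 27 * (X * P) ^ 6 ≤ H →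
      c * (X : ℝ) ^ 5 ≤ ({p : ℤ × ℤ | Crv H p.1 p.2 ∧ GoodE M₀ T₀ p}.ncard : ℝ) := by
  obtain ⟨κ, hLB'⟩ := lb
  obtain ⟨γ, g, δ, hG, hdeg⟩ := Pool.Agent.N40.PQ.gen M₀
  -- the prime divisors of `δ`
  obtain ⟨T₁, hT₁, hδ₁⟩ : ∃ T : Finset ℤ, (∀ P ∈ T, IsPr P) ∧
      ∀ P : ℤ, IsPr P → P ∣ δ → P ∈ T := by
    have hf : {P : ℤ | IsPr P ∧ P ∣ δ}.Finite := by
      refine (Set.finite_Icc (-|δ|) |δ|).subset ?_
      rintro P ⟨-, h⟩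
      have h3 : |P| ≤ |δ| := Int.le_of_dvd (abs_pos.2 hG.ne) ((abs_dvd_abs P δ).2 h)
      exact abs_le.1 h3
    refine ⟨hf.toFinset, fun P hP => ?_, fun P h1 h2 => ?_⟩
    · exact (hf.mem_toFinset.1 hP).1
    · exact hf.mem_toFinset.2 ⟨h1, h2⟩
  obtain ⟨T, A, B, hTT, hT⟩ := Pool.Agent.N954.PQ.tch (T₀ ∪ T₁) (by
    intro P hP
    rcases Finset.mem_union.1 hP with h | h
    · exact hT₀ P h
    · exact hT₁ P h)
  have hδ : ∀ P : ℤ, IsPr P → P ∣ δ → P ∈ T := fun P h1 h2 =>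
    hTT (Finset.mem_union_right _ (hδ₁ P h1 h2))
  have hT0T : T₀ ⊆ T := fun P hP => hTT (Finset.mem_union_left _ hP)
  obtain ⟨S, s, c, hS, hdis, hsp, hc, X₀, hX₀⟩ := good_card3 κ hT
    (fun Q => SplitMod Q g) (Pool.Agent.N40.PQ.spl M₀ γ g δ hG hdeg T)
  have hSpos : 0 < ∏ Q ∈ S, Q := Finset.prod_pos fun Q hQ => (hS Q hQ).1.1
  refine ⟨(∏ Q ∈ S, Q).toNat, X₀, c / 2 ^ S.card,
    by positivity, by omega, fun X hX Hh hHh => ?_⟩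
  have hN := hX₀ X hX
  set Hs := {p : ℤ × ℤ | Crv Hh p.1 p.2 ∧ GoodE M₀ T₀ p} with hH
  set G := {p : ℤ × ℤ | (Fam X S s T A B p.1 p.2 ∧ p.1 % 4 = 3 ∧ p.2 % 4 = 3) ∧
    ¬ LBad κ X S s p.1 p.2} with hG'
  have hHf : Hs.Finite := (crv_fin Hh).subset fun p hp => hp.1
  have hbd : 27 * ((X : ℤ) * ∏ Q ∈ S, Q) ^ 6 ≤ Hh := by
    have h1 : ((27 * (X * (∏ Q ∈ S, Q).toNat) ^ 6 : ℕ) : ℤ) ≤ Hh := by exact_mod_cast hHh
    have e1 : (((∏ Q ∈ S, Q).toNat : ℕ) : ℤ) = ∏ Q ∈ S, Q := Int.toNat_of_nonneg hSpos.le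
    rw [Nat.cast_mul, Nat.cast_pow, Nat.cast_mul, e1] at h1
    exact_mod_cast h1
  have hcard := card_fib hHf S
    (fun (J : Finset ℤ) (p : ℤ × ℤ) => (p.1 * (∏ Q ∈ J, Q) ^ 2, p.2 * (∏ Q ∈ J, Q) ^ 3)) (G := G) (by
      rintro p ⟨⟨hpF, hpa, hpb⟩, hnb⟩
      obtain ⟨J, hJ, hsel⟩ := selE parts2 hLB' hS hpF hpa hpb hnb hT
      refine ⟨J, hJ, ?_⟩
      have hcrv := Pool.Agent.N707.PQ.crv X Hh S T s A B p.1 p.2 hS hT hpF J hJ hbd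
      have hJp : ∀ Q ∈ J, IsPr Q := fun Q hQ => (hS Q (hJ hQ)).1
      have hirr2 : irr (p.1 * (∏ Q ∈ J, Q) ^ 2) (p.2 * (∏ Q ∈ J, Q) ^ 3) = irr p.1 p.2 :=
        irr_mul fun P hP hPD => hpF.rb P (hJ (prime_prod hJp hP hPD))
      have hTirr : ∀ P ∈ T, P ∈ irr p.1 p.2 := fun P hP =>
        ⟨(hT.2.2 P hP).1, fam_nt hT hpF hP⟩
      refine ⟨hcrv, ?_, ?_, hsel⟩
      · intro P hP
        show P ∈ irr (p.1 * (∏ Q ∈ J, Q) ^ 2) (p.2 * (∏ Q ∈ J, Q) ^ 3)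
        rw [hirr2]
        exact hTirr P (hT0T hP)
      · refine ⟨hur, fun P hP hPi => ?_, fun P hP hPA hPB => ?_⟩
        · refine unr_of_gen hG hP fun hPδ => hPi ?_
          show P ∈ irr (p.1 * (∏ Q ∈ J, Q) ^ 2) (p.2 * (∏ Q ∈ J, Q) ^ 3)
          rw [hirr2]
          exact hTirr P (hδ P hP hPδ)
        · -- `P ∈ J`
          have hPJ : P ∈ J := by
            by_contra hPJ
            have hnD : ¬ P ∣ ∏ Q ∈ J, Q := fun h => hPJ (prime_prod hJp hP h)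
            have h1 : P ∣ p.1 := by
              rcases hP.2.dvd_or_dvd hPA with h | h
              · exact h
              · exact absurd (hP.2.dvd_of_dvd_pow h) hnD
            have h2 : P ∣ p.2 := by
              rcases hP.2.dvd_or_dvd hPB with h | h
              · exact h
              · exact absurd (hP.2.dvd_of_dvd_pow h) hnD
            exact coprime_ab hpF.sq hP h1 h2
          have hPS := hJ hPJ
          refine res_of_gen hG hP (fun hPδ => ?_) (hsp P hPS)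
          exact Finset.disjoint_left.1 hdis hPS (hδ P hP hPδ)) (by
      intro J hJ x hx y hy hxy
      have hD0 : (∏ Q ∈ J, Q) ≠ 0 := by
        rw [Finset.prod_ne_zero_iff]
        exact fun Q hQ => (hS Q (hJ hQ)).1.2.ne_zero
      rw [Prod.mk.injEq] at hxy
      exact twist_inj hD0 hxy.1 hxy.2)
  have hcard' : (G.ncard : ℝ) ≤ 2 ^ S.card * Hs.ncard := by exact_mod_cast hcard
  calc c / 2 ^ S.card * (X : ℝ) ^ 5
      = c * (X : ℝ) ^ 5 / 2 ^ S.card := by ring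
    _ ≤ (G.ncard : ℝ) / 2 ^ S.card := by gcongr
    _ ≤ (2 ^ S.card * Hs.ncard) / 2 ^ S.card := by gcongr
    _ = Hs.ncard := by field_simp

/-- The good curves twisted by `2`. -/
def GoodE2 (M₀ : Type) [Field M₀] [NumberField M₀] (T₀ : Finset ℤ) (p : ℤ × ℤ) : Prop :=
  ∃ A B : ℤ, p = (4 * A, 8 * B) ∧ GoodE M₀ T₀ (A, B)

theorem crv_two {H : ℕ} {A B : ℤ} (hA : A % 4 = 3) (h : Crv (H / 64) A B) :
    Crv H (4 * A) (8 * B) := by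
  have hH : (64 : ℤ) * ((H / 64 : ℕ) : ℤ) ≤ H := by
    have := Nat.mul_div_le H 64
    exact_mod_cast this
  refine ⟨?_, ?_, ?_, ?_⟩
  · intro h0
    apply h.disc
    have e : 4 * (4 * A) ^ 3 + 27 * (8 * B) ^ 2 = 64 * (4 * A ^ 3 + 27 * B ^ 2) := by ring
    rw [e] at h0
    omega
  · rintro p hp ⟨h1, h2⟩
    have hpp := Nat.prime_iff_prime_int.1 hp
    by_cases hp2 : p = 2
    · subst hp2
      push_cast at h1
      omega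
    · have hc : IsCoprime (p : ℤ) 2 := by
        rw [hpp.irreducible.coprime_iff_not_dvd]
        intro h3
        have h4 : p ∣ 2 := by exact_mod_cast h3
        rcases (Nat.dvd_prime Nat.prime_two).1 h4 with h5 | h5
        · exact hp.ne_one h5
        · exact hp2 h5
      refine h.min p hp ⟨?_, ?_⟩
      · have hc4 : IsCoprime ((p : ℤ) ^ 4) (2 ^ 2) := hc.pow
        exact hc4.dvd_of_dvd_mul_left (by norm_num; exact h1)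
      · have hc6 : IsCoprime ((p : ℤ) ^ 6) (2 ^ 3) := hc.pow
        exact hc6.dvd_of_dvd_mul_left (by norm_num; exact h2)
  · have h1 := h.hA
    have e : 4 * |4 * A| ^ 3 = 64 * (4 * |A| ^ 3) := by
      rw [abs_mul]
      norm_num
      ring
    rw [e]
    linarith
  · have h1 := h.hB
    have e : 27 * (8 * B) ^ 2 = 64 * (27 * B ^ 2) := by ring
    rw [e]
    linarith

theorem mainE2 (M₀ : Type) [Field M₀] [NumberField M₀] [IsGalois ℚ M₀] (hur : Unr M₀ 2)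
    (T₀ : Finset ℤ) (hT₀ : ∀ P ∈ T₀, IsPr P) :
    ∃ (P X₀ : ℕ) (c : ℝ), 0 < c ∧ 1 ≤ P ∧ ∀ X : ℕ, X₀ ≤ X → ∀ H : ℕ, 27 * (X * P) ^ 6 ≤ H →
      c * (X : ℝ) ^ 5 ≤ ({p : ℤ × ℤ | Crv H p.1 p.2 ∧ GoodE2 M₀ T₀ p}.ncard : ℝ) := by
  obtain ⟨P, X₀, c, hc, hP, h⟩ := mainE M₀ hur T₀ hT₀
  refine ⟨2 * P, X₀, c, hc, by omega, fun X hX H hH => ?_⟩
  have hH' : 27 * (X * P) ^ 6 ≤ H / 64 := by
    rw [Nat.le_div_iff_mul_le (by norm_num)]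
    refine le_trans (le_of_eq ?_) hH
    ring
  refine (h X hX _ hH').trans ?_
  have hfin : {p : ℤ × ℤ | Crv H p.1 p.2 ∧ GoodE2 M₀ T₀ p}.Finite :=
    (crv_fin H).subset fun p hp => hp.1
  have := Set.ncard_le_ncard_of_injOn (s := {p : ℤ × ℤ | Crv (H / 64) p.1 p.2 ∧ GoodE M₀ T₀ p})
    (t := {p : ℤ × ℤ | Crv H p.1 p.2 ∧ GoodE2 M₀ T₀ p})
    (fun p : ℤ × ℤ => (4 * p.1, 8 * p.2)) (by
      rintro p ⟨h1, h2⟩
      exact ⟨crv_two h2.sel.a4 h1, p.1, p.2, rfl, h2⟩) (by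
      intro p _ q _ hpq
      rw [Prod.mk.injEq] at hpq
      exact Prod.ext (by omega) (by omega)) hfin
  exact_mod_cast this

/-- A positive proportion of all elliptic curves is good. -/
theorem propE (M₀ : Type) [Field M₀] [NumberField M₀] [IsGalois ℚ M₀] (hur : Unr M₀ 2)
    (T₀ : Finset ℤ) (hT₀ : ∀ P ∈ T₀, IsPr P) :
    ∃ c : ℝ, 0 < c ∧ ∃ H₀ : ℕ, ∀ H ≥ H₀, {p : ℤ × ℤ | Crv H p.1 p.2}.Finite ∧
    c * ({p : ℤ × ℤ | Crv H p.1 p.2}.ncard : ℝ) ≤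
      ({p : ℤ × ℤ | Crv H p.1 p.2 ∧ GoodE M₀ T₀ p}.ncard : ℝ) := by
  obtain ⟨P, X₀, c, hc, hP, h⟩ := mainE M₀ hur T₀ hT₀
  exact Pool.Agent.N607.PQ.cnt (fun p => GoodE M₀ T₀ p) P X₀ c hc hP
    fun X hX Hh hHh => h X hX Hh hHh

theorem propE2 (M₀ : Type) [Field M₀] [NumberField M₀] [IsGalois ℚ M₀] (hur : Unr M₀ 2)
    (T₀ : Finset ℤ) (hT₀ : ∀ P ∈ T₀, IsPr P) :
    ∃ c : ℝ, 0 < c ∧ ∃ H₀ : ℕ, ∀ H ≥ H₀, {p : ℤ × ℤ | Crv H p.1 p.2}.Finite ∧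
    c * ({p : ℤ × ℤ | Crv H p.1 p.2}.ncard : ℝ) ≤
      ({p : ℤ × ℤ | Crv H p.1 p.2 ∧ GoodE2 M₀ T₀ p}.ncard : ℝ) := by
  obtain ⟨P, X₀, c, hc, hP, h⟩ := mainE2 M₀ hur T₀ hT₀
  exact Pool.Agent.N607.PQ.cnt (fun p => GoodE2 M₀ T₀ p) P X₀ c hc hP
    fun X hX Hh hHh => h X hX Hh hHh

end Pool.Agent.H30EV
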