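import Mathlib

/-!
# Definitions: elliptic curves over `ℚ`, admissible fields and twists, Selmer and Tate-Shafarevich
# groups
-/

set_option autoImplicit false
set_option linter.all false

open NumberField IsDedekindDomain

namespace Pool.Agent.H30EV

/-! ### Elliptic curves over `ℚ` -/

/-- The equation `y ^ 2 = x ^ 3 + A x + B` with integers `A`, `B` defines an elliptic curve, and
there is no prime `p` with `p ^ 4 ∣ A` and `p ^ 6 ∣ B`. Every elliptic curve over `ℚ` is isomorphic to
exactly one of these. -/
structure IsMinimal (A B : ℤ) : Prop where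
  elliptic : 4 * A ^ 3 + 27 * B ^ 2 ≠ 0
  minimal : ∀ p : ℕ, p.Prime → ¬ ((p : ℤ) ^ 4 ∣ A ∧ (p : ℤ) ^ 6 ∣ B)

/-- The height. -/
def height (q : ℤ × ℤ) : ℤ := max (4 * |q.1| ^ 3) (27 * q.2 ^ 2)

/-- The set of all elliptic curves over `ℚ` of height at most `X`. -/
def Curves (X : ℕ) : Set (ℤ × ℤ) := {q | IsMinimal q.1 q.2 ∧ height q ≤ X}

/-- The curve `y ^ 2 = x ^ 3 + A x + B` over the field `K`, `q = (A, B)`. -/
def curve (K : Type) [Field K] (q : ℤ × ℤ) : WeierstrassCurve K := ⟨0, 0, 0, (q.1 : K), (q.2 : K)⟩

/-- The quadratic twist by `d`: the curve `y ^ 2 = x ^ 3 + A d ^ 2 x + B d ^ 3`. -/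
def twist (q : ℤ × ℤ) (d : ℤ) : ℤ × ℤ := (q.1 * d ^ 2, q.2 * d ^ 3)

/-- The polynomial `x ^ 3 + A x + B` has no zero modulo `p`. -/
def NoZero (q : ℤ × ℤ) (p : ℕ) : Prop := ∀ z : ℤ, ¬ (p : ℤ) ∣ z ^ 3 + q.1 * z + q.2

/-! ### Number fields -/

/-- The prime number `p` is ramified in `K`. -/
def Ramified (K : Type) [Field K] [NumberField K] (p : ℕ) : Prop :=
  ∃ 𝔭 : Ideal (𝓞 K), 𝔭.IsPrime ∧ (p : 𝓞 K) ∈ 𝔭 ^ 2

/-- The prime number `p` splits completely in `K`: it is unramified, and the residue fields at the
primes over `p` have `p` elements. -/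
def SplitsCompletely (K : Type) [Field K] [NumberField K] (p : ℕ) : Prop :=
  ∀ 𝔭 : Ideal (𝓞 K), 𝔭.IsPrime → (p : 𝓞 K) ∈ 𝔭 → (p : 𝓞 K) ∉ 𝔭 ^ 2 ∧ Nat.card (𝓞 K ⧸ 𝔭) = p

/-- The field `K` is admissible for the curve `q = (A, B)`: it is a Galois extension of `ℚ` of degree
a power of two; `2` is unramified in `K`; the polynomial `x ^ 3 + A x + B` has no zero modulo
the primes which are ramified in `K`; and the odd primes which divide `A` and `B` split
completely in `K`. -/
structure FieldFor (K : Type) [Field K] [NumberField K] (q : ℤ × ℤ) : Prop where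
  galois : IsGalois ℚ K
  degree : ∃ n : ℕ, Module.finrank ℚ K = 2 ^ n
  two : ¬ Ramified K 2
  ram : ∀ p : ℕ, p.Prime → Ramified K p → NoZero q p
  split : ∀ p : ℕ, p.Prime → p ≠ 2 → (p : ℤ) ∣ q.1 → (p : ℤ) ∣ q.2 → SplitsCompletely K p

/-- The integer `d` is admissible for the curve `q = (A, B)`: it is squarefree; the polynomial
`x ^ 3 + A x + B` has no zero modulo the odd prime factors of `d`; and one of the following
holds: `A`, `B` are `3` modulo `4` and `d` is not `3` modulo `4`; or `A = 12` modulo `16`, `B = 24`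
modulo `32` and `d` is odd. -/
structure TwistFor (q : ℤ × ℤ) (d : ℤ) : Prop where
  squarefree : Squarefree d
  noZero : ∀ p : ℕ, p.Prime → p ≠ 2 → (p : ℤ) ∣ d → NoZero q p
  two : (q.1 % 4 = 3 ∧ q.2 % 4 = 3 ∧ d % 4 ≠ 3) ∨ (q.1 % 16 = 12 ∧ q.2 % 32 = 24 ∧ d % 2 = 1)

/-! ### Selmer groups and Tate-Shafarevich groups -/

section points

variable {F : Type} [Field F]

/-- The group `W(L)` of points of the curve `W` over the extension `L` of `F`. -/
def Pts (W : WeierstrassCurve F) (L : Type) [Field L] [Algebra F L] : Type :=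
  (W.baseChange L).toAffine.Point

/-- The group law. -/
noncomputable instance Pts.group (W : WeierstrassCurve F) (L : Type) [Field L] [Algebra F L] :
    AddCommGroup (Pts W L) := by
  classical exact (inferInstance : AddCommGroup (W.baseChange L).toAffine.Point)

/-- The map `W(L) → W(L')` given by an `F`-homomorphism `φ : L → L'`. -/
noncomputable def mapPts (W : WeierstrassCurve F) {L L' : Type} [Field L] [Algebra F L] [Field L']
    [Algebra F L'] (φ : L →ₐ[F] L') (P : Pts W L) : Pts W L' := by
  classical exact WeierstrassCurve.Affine.Point.map (W' := W.toAffine) φ P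

/-- The absolute Galois group, with the Krull topology of Mathlib. -/
abbrev AbsGal (F : Type) [Field F] : Type := SeparableClosure F ≃ₐ[F] SeparableClosure F

/-- The functions on the absolute Galois group of `F` with values in the points of `W` over the
separable closure of `F`. -/
abbrev Coch (W : WeierstrassCurve F) : Type := AbsGal F → Pts W (SeparableClosure F)

/-- The coboundary `σ ↦ σ Q - Q`. -/
noncomputable def cob {W : WeierstrassCurve F} (Q : Pts W (SeparableClosure F)) : Coch W :=
  fun σ => mapPts W σ.toAlgHom Q - Q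

/-- The restriction of `f` to the absolute Galois group of the extension `L` of `F` is a coboundary
with values in the points over the separable closure of `L` (for every embedding `ι` of the separable
closure of `F` in that of `L`; `τ` restricts to `σ`). -/
def LocallyTrivial (W : WeierstrassCurve F) (L : Type) [Field L] [Algebra F L] (f : Coch W) :
    Prop :=
  ∀ ι : SeparableClosure F →ₐ[F] SeparableClosure L, ∃ P : Pts W (SeparableClosure L),
    ∀ (τ : AbsGal L) (σ : AbsGal F), (∀ x, τ (ι x) = ι (σ x)) →
      mapPts W ι (f σ) = mapPts W (τ.toAlgHom.restrictScalars F) P - P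

end points

section sha

variable {F : Type} [Field F] [NumberField F]

/-- The function `f` is a continuous cocycle whose class is in the kernel of
`H¹(F, W) → ∏ H¹(F_v, W)`, `v` the finite places and the real places. (At the complex places there is
no condition: the absolute Galois group of `ℂ` is trivial.) -/
structure ShaCocycle (W : WeierstrassCurve F) (f : Coch W) : Prop where
  continuous : IsLocallyConstant f
  cocycle : ∀ σ τ, f (σ * τ) = f σ + mapPts W σ.toAlgHom (f τ)
  finite : ∀ v : HeightOneSpectrum (𝓞 F), LocallyTrivial W (v.adicCompletion F) f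
  real : ∀ ρ : F →+* ℝ, letI := ρ.toAlgebra; LocallyTrivial W ℝ f

/-- The 2-Selmer group `Sel_2(W/F)`, the kernel of `H¹(F, W[2]) → ∏ H¹(F_v, W)`, is zero. -/
def SelmerTrivial (W : WeierstrassCurve F) : Prop :=
  ∀ f : Coch W, ShaCocycle W f → (∀ σ, 2 • f σ = 0) → ∃ Q, 2 • Q = 0 ∧ f = cob Q

/-- The 2-primary part `Ш(W/F)[2^∞]` of the Tate-Shafarevich group is zero. -/
def ShaTrivial (W : WeierstrassCurve F) : Prop :=
  ∀ f : Coch W, ShaCocycle W f → (∃ (n : ℕ) (Q : Pts W (SeparableClosure F)), 2 ^ n • f = cob Q) →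
    ∃ Q, f = cob Q

end sha

/-- The curve has no points over `K` but the point at infinity, its 2-Selmer group over `K` is zero,
and the 2-primary part of its Tate-Shafarevich group over `K` is zero. -/
structure Trivial (K : Type) [Field K] [NumberField K] (q : ℤ × ℤ) : Prop where
  points : Subsingleton (curve K q).toAffine.Point
  selmer : SelmerTrivial (curve K q)
  sha : ShaTrivial (curve K q)

end Pool.Agent.H30EV
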