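import Pool.Agent.H30EV.Tor

/-!
# Points over quadratic extensions
-/

set_option autoImplicit false
set_option linter.all false

open Polynomial WeierstrassCurve WeierstrassCurve.Affine Module
open Pool.Agent.TH115.GD
open scoped Classical IntermediateField

namespace Pool.Agent.H30EV

open Pool.Agent.N874.PP (sW)
open Pool.Agent.N137.PV (coefs eqn negY_eq)

section quad

variable {M F : Type} [Field M] [CharZero M] [Field F] [Algebra M F]

theorem ext_top {s : F} (htop : M⟮s⟯ = ⊤) (τ τ' : F ≃ₐ[M] F) (h : τ s = τ' s) : τ = τ' := by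
  apply AlgEquiv.ext
  intro x
  have hx : x ∈ M⟮s⟯ := by rw [htop]; trivial
  refine IntermediateField.adjoin_induction M (p := fun x _ => τ x = τ' x) ?_ ?_ ?_ ?_ ?_ hx
  · intro y hy
    rw [Set.mem_singleton_iff] at hy
    rw [hy, h]
  · intro y
    rw [AlgEquiv.commutes, AlgEquiv.commutes]
  · intro y z _ _ hy hz
    rw [map_add, map_add, hy, hz]
  · intro y _ hy
    rw [map_inv₀, map_inv₀, hy]
  · intro y z _ _ hy hz
    rw [map_mul, map_mul, hy, hz]

/-- The conjugation. -/
theorem exists_conj {s : F} {d : M} (hs : s ^ 2 = algebraMap M F d) (htop : M⟮s⟯ = ⊤)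
    (hns : ¬ ∃ z : M, algebraMap M F z = s) :
    ∃ σ : F ≃ₐ[M] F, σ s = -s ∧ (∀ z, σ (σ z) = z) ∧
      ∀ z, σ z = z → ∃ z' : M, algebraMap M F z' = z := by
  haveI : CharZero F := charZero_of_injective_algebraMap (algebraMap M F).injective
  have hint : IsIntegral M s := ⟨X ^ 2 - C d, by monicity!, by simp [hs]⟩
  haveI hfd : FiniteDimensional M F := by
    have h1 : FiniteDimensional M M⟮s⟯ := IntermediateField.adjoin.finiteDimensional hint
    rw [htop] at h1
    exact (IntermediateField.topEquiv (F := M) (E := F)).toLinearEquiv.finiteDimensional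
  have hmon : (X ^ 2 - C d : M[X]).Monic := by monicity!
  have hnd : (X ^ 2 - C d : M[X]).natDegree = 2 := by compute_degree!
  have hroot : ∀ z : M, z ^ 2 ≠ d := by
    intro z hz
    have h1 : (s - algebraMap M F z) * (s + algebraMap M F z) = 0 := by
      have : (s - algebraMap M F z) * (s + algebraMap M F z) = s ^ 2 - algebraMap M F (z ^ 2) := by
        rw [map_pow]
        ring
      rw [this, hs, hz, sub_self]
    rcases mul_eq_zero.1 h1 with h2 | h2
    · exact hns ⟨z, by linear_combination -h2⟩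
    · exact hns ⟨-z, by rw [map_neg]; linear_combination -h2⟩
  have hirr : Irreducible (X ^ 2 - C d : M[X]) := by
    rw [Monic.irreducible_iff_roots_eq_zero_of_degree_le_three hmon (by omega) (by omega)]
    rw [Multiset.eq_zero_iff_forall_notMem]
    intro z hz
    have hz' := (mem_roots hmon.ne_zero).1 hz
    apply hroot z
    have : z ^ 2 - d = 0 := by simpa [IsRoot.def] using hz'
    linear_combination this
  have hmin : minpoly M s = X ^ 2 - C d :=
    (minpoly.eq_of_irreducible_of_monic hirr (by simp [hs]) hmon).symm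
  have hrank : finrank M F = 2 := by
    rw [← (Field.primitive_element_iff_minpoly_natDegree_eq M s).1 htop, hmin, hnd]
  haveI : Algebra.IsQuadraticExtension M F := ⟨hrank⟩
  haveI : IsGalois M F := inferInstance
  have hcard : Nat.card (F ≃ₐ[M] F) = 2 := by
    rw [IsGalois.card_aut_eq_finrank, hrank]
  haveI : Finite (F ≃ₐ[M] F) := Nat.finite_of_card_ne_zero (by rw [hcard]; norm_num)
  haveI : Nontrivial (F ≃ₐ[M] F) := by
    rw [← Finite.one_lt_card_iff_nontrivial, hcard]
    norm_num
  obtain ⟨σ, hσ⟩ := exists_ne (1 : F ≃ₐ[M] F)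
  have hpm : ∀ τ : F ≃ₐ[M] F, τ s = s ∨ τ s = -s := by
    intro τ
    have h1 : (τ s - s) * (τ s + s) = 0 := by
      have : (τ s - s) * (τ s + s) = τ (s ^ 2) - s ^ 2 := by
        rw [map_pow]
        ring
      rw [this, hs, τ.commutes, sub_self]
    rcases mul_eq_zero.1 h1 with h2 | h2
    · left; linear_combination h2
    · right; linear_combination h2
  have hσs : σ s = -s := by
    rcases hpm σ with h | h
    · exact absurd (ext_top htop σ 1 (by rw [h]; rfl)) hσ
    · exact h
  have hσ2 : σ.trans σ = 1 := by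
    apply ext_top htop
    show σ (σ s) = s
    rw [hσs, map_neg, hσs, neg_neg]
  refine ⟨σ, hσs, fun z => ?_, fun z hz => ?_⟩
  · have h1 : (σ.trans σ) z = z := by rw [hσ2]; rfl
    exact h1
  · apply (IsGalois.mem_range_algebraMap_iff_fixed z).2
    intro τ
    rcases hpm τ with h | h
    · rw [ext_top htop τ 1 (by rw [h]; rfl)]
      rfl
    · rw [ext_top htop τ σ (by rw [h, hσs])]
      exact hz

theorem nonsing {K : Type} [Field K] [CharZero K] {A B x y : K} (hd : 4 * A ^ 3 + 27 * B ^ 2 ≠ 0)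
    (h : y ^ 2 = x ^ 3 + A * x + B) {W : WeierstrassCurve K} (h1 : W.a₁ = 0) (h2 : W.a₂ = 0)
    (h3 : W.a₃ = 0) (h4 : W.a₄ = A) (h6 : W.a₆ = B) : W.toAffine.Nonsingular x y := by
  rw [Affine.nonsingular_iff', Affine.equation_iff]
  change (y ^ 2 + W.a₁ * x * y + W.a₃ * y = x ^ 3 + W.a₂ * x ^ 2 + W.a₄ * x + W.a₆) ∧
    (W.a₁ * y - (3 * x ^ 2 + 2 * W.a₂ * x + W.a₄) ≠ 0 ∨ 2 * y + W.a₁ * x + W.a₃ ≠ 0)
  rw [h1, h2, h3, h4, h6]
  refine ⟨by linear_combination h, ?_⟩
  by_contra hcon
  push Not at hcon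
  obtain ⟨k1, k2⟩ := hcon
  have hy : y = 0 := by
    have : (2 : K) * y = 0 := by linear_combination k2
    rcases mul_eq_zero.1 this with h5 | h5
    · exact absurd h5 two_ne_zero
    · exact h5
  have hx : 3 * x ^ 2 + A = 0 := by linear_combination -k1
  rw [hy] at h
  apply hd
  linear_combination (4 * A ^ 2 + 3 * (2 * A * x - 3 * B) * x) * hx + 9 * (2 * A * x - 3 * B) * h

/-- No points but the point at infinity. -/
theorem nopt_iff {K : Type} [Field K] [CharZero K] {A B : K} (hd : 4 * A ^ 3 + 27 * B ^ 2 ≠ 0)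
    {W : WeierstrassCurve K} (h1 : W.a₁ = 0) (h2 : W.a₂ = 0)
    (h3 : W.a₃ = 0) (h4 : W.a₄ = A) (h6 : W.a₆ = B) :
    Subsingleton W.toAffine.Point ↔ ∀ x y : K, y ^ 2 ≠ x ^ 3 + A * x + B := by
  constructor
  · intro hs x y h
    have := hs.elim (0 : W.toAffine.Point) (Point.some x y (nonsing hd h h1 h2 h3 h4 h6))
    exact Point.some_ne_zero _ this.symm
  · intro h
    refine ⟨fun P Q => ?_⟩
    have key : ∀ P : W.toAffine.Point, P = 0 := by
      intro P
      match P with
      | .zero => rfl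
      | .some x y hP =>
        exfalso
        apply h x y
        have := (Affine.equation_iff _ _).1 hP.1
        change y ^ 2 + W.a₁ * x * y + W.a₃ * y = x ^ 3 + W.a₂ * x ^ 2 + W.a₄ * x + W.a₆ at this
        rw [h1, h2, h3, h4, h6] at this
        linear_combination this
    rw [key P, key Q]

/-- No points over a quadratic extension. -/
theorem quad_nopt (s : F) (d : M) (hd0 : d ≠ 0) (hs : s ^ 2 = algebraMap M F d) (htop : M⟮s⟯ = ⊤)
    {A B : M} (hdisc : 4 * A ^ 3 + 27 * B ^ 2 ≠ 0) (h1 : ∀ x y : M, y ^ 2 ≠ x ^ 3 + A * x + B)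
    (h2 : ∀ x y : M, y ^ 2 ≠ x ^ 3 + A * d ^ 2 * x + B * d ^ 3) (x y : F) :
    y ^ 2 ≠ x ^ 3 + algebraMap M F A * x + algebraMap M F B := by
  haveI : CharZero F := charZero_of_injective_algebraMap (algebraMap M F).injective
  have hinj := (algebraMap M F).injective
  intro hxy
  by_cases hns : ∃ z : M, algebraMap M F z = s
  · -- `F = M`
    obtain ⟨z, hz⟩ := hns
    have hall : ∀ u : F, ∃ u' : M, algebraMap M F u' = u := by
      intro u
      have hu : u ∈ M⟮s⟯ := by rw [htop]; trivial
      have hle : M⟮s⟯ ≤ ⊥ := by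
        rw [IntermediateField.adjoin_simple_le_iff, IntermediateField.mem_bot]
        exact ⟨z, hz⟩
      exact IntermediateField.mem_bot.1 (hle hu)
    obtain ⟨x', rfl⟩ := hall x
    obtain ⟨y', rfl⟩ := hall y
    apply h1 x' y'
    apply hinj
    rw [map_pow, map_add, map_add, map_mul, map_pow]
    exact hxy
  obtain ⟨σ, hσs, hσ2, hfix⟩ := exists_conj hs htop hns
  have hs0 : s ≠ 0 := by
    rintro rfl
    exact hns ⟨0, map_zero _⟩
  obtain ⟨c1, c2, c3, c4, c6⟩ : ((sW A B).baseChange F).a₁ = 0 ∧ ((sW A B).baseChange F).a₂ = 0 ∧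
    ((sW A B).baseChange F).a₃ = 0 ∧ ((sW A B).baseChange F).a₄ = algebraMap M F A ∧
    ((sW A B).baseChange F).a₆ = algebraMap M F B := by
    simp [sW, WeierstrassCurve.baseChange, WeierstrassCurve.map]
  have hdF : 4 * (algebraMap M F A) ^ 3 + 27 * (algebraMap M F B) ^ 2 ≠ 0 := by
    intro h
    apply hdisc
    apply hinj
    rw [map_add, map_mul, map_mul, map_pow, map_pow, map_ofNat, map_ofNat, map_zero]
    exact h
  have hP := nonsing (W := (sW A B).baseChange F) hdF hxy c1 c2 c3 c4 c6
  -- the trace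
  let φ : ((sW A B).baseChange F).toAffine.Point →+ ((sW A B).baseChange F).toAffine.Point :=
    WeierstrassCurve.Affine.Point.map (W' := (sW A B).toAffine) σ.toAlgHom
  obtain ⟨P, hPdef⟩ : ∃ P : ((sW A B).baseChange F).toAffine.Point, P = Point.some x y hP :=
    ⟨_, rfl⟩
  have hφφ : ∀ Q : ((sW A B).baseChange F).toAffine.Point, φ (φ Q) = Q := by
    intro Q
    match Q with
    | .zero => rfl
    | .some u v h =>
      show WeierstrassCurve.Affine.Point.map (W' := (sW A B).toAffine) σ.toAlgHom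
        (WeierstrassCurve.Affine.Point.map (W' := (sW A B).toAffine) σ.toAlgHom _) = _
      rw [Point.map_some, Point.map_some]
      congr 1
      · exact hσ2 u
      · exact hσ2 v
  obtain ⟨Q, hQ⟩ : ∃ Q : ((sW A B).baseChange F).toAffine.Point, Q = P + φ P := ⟨_, rfl⟩
  have hQfix : φ Q = Q := by
    rw [hQ, map_add, hφφ, add_comm]
  have hQ0 : Q = 0 := by
    match Q, hQfix with
    | .zero, _ => rfl
    | .some u v h, hfx =>
      exfalso
      have h3 : WeierstrassCurve.Affine.Point.map (W' := (sW A B).toAffine) σ.toAlgHom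
        (Point.some u v h) = Point.some u v h := hfx
      rw [Point.map_some] at h3
      rw [Point.some.injEq] at h3
      obtain ⟨u', hu'⟩ := hfix u h3.1
      obtain ⟨v', hv'⟩ := hfix v h3.2
      apply h1 u' v'
      apply hinj
      have h4 := (Affine.equation_iff _ _).1 h.1
      change v ^ 2 + ((sW A B).baseChange F).a₁ * u * v + ((sW A B).baseChange F).a₃ * v =
        u ^ 3 + ((sW A B).baseChange F).a₂ * u ^ 2 + ((sW A B).baseChange F).a₄ * u +
          ((sW A B).baseChange F).a₆ at h4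
      rw [c1, c2, c3, c4, c6] at h4
      rw [map_pow, map_add, map_add, map_mul, map_pow, hu', hv']
      linear_combination h4
  -- hence `σ P = - P`
  have hneg : φ P = -P := by
    rw [hQ] at hQ0
    exact (neg_eq_of_add_eq_zero_right hQ0).symm
  rw [hPdef] at hneg
  have h3 : WeierstrassCurve.Affine.Point.map (W' := (sW A B).toAffine) σ.toAlgHom
      (Point.some x y hP) = -Point.some x y hP := hneg
  rw [Point.map_some, Point.neg_some, Point.some.injEq] at h3
  have hσx : σ x = x := h3.1
  have hσy : σ y = -y := by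
    have h4 := h3.2
    have h5 : ((sW A B).baseChange F).toAffine.negY x y = -y := by
      show -y - ((sW A B).baseChange F).a₁ * x - ((sW A B).baseChange F).a₃ = -y
      rw [c1, c3]
      ring
    rw [h5] at h4
    exact h4
  obtain ⟨x', hx'⟩ := hfix x hσx
  obtain ⟨z, hz⟩ := hfix (y * s) (by rw [map_mul, hσy, hσs]; ring)
  -- `y = z s / d`, a point of the twist
  apply h2 (d * x') (d * z)
  apply hinj
  have hsd : (algebraMap M F z) ^ 2 = algebraMap M F d * y ^ 2 := by
    rw [hz, mul_pow, hs]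
    ring
  simp only [map_pow, map_add, map_mul]
  rw [hx']
  rw [mul_pow, hsd, hxy]
  ring

end quad

end Pool.Agent.H30EV
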