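import Pool.Agent.H30EV.Defs
import Pool.Agent.H30EV.Quad

/-!
# The theorem in terms of the definitions
-/

set_option autoImplicit false
set_option linter.all false

open NumberField IsDedekindDomain WeierstrassCurve
open Pool.Agent.TH115.GD
open scoped Classical IntermediateField

namespace Pool.Agent.H30EV

open Pool.Agent.N874.PP (sW)
open Pool.Agent.N874.PM (SelR ShaR)
open Pool.Agent.N922.PQ

section bridge

variable {F : Type} [Field F]

/-- Points as points. -/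
theorem exists_emb (L : Type) [Field L] [Algebra F L] : Nonempty (Sep F →ₐ[F] Sep L) :=
  ⟨IsSepClosed.lift⟩

theorem lt_of {W : WeierstrassCurve F} {L : Type} [Field L] [Algebra F L] {f : Coch W}
    (h : LocallyTrivial W L f) : LocTriv W L (Sep L) (f : (Sep F ≃ₐ[F] Sep F) → Pt W (Sep F)) := by
  obtain ⟨ι⟩ := exists_emb (F := F) L
  obtain ⟨P, hP⟩ := h ι
  exact ⟨ι, P, fun τ σ hτ => hP τ σ hτ⟩

variable [NumberField F]

theorem coc_of {W : WeierstrassCurve F} {f : Coch W} (h : ShaCocycle W f) :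
    IsCoc W (f : (Sep F ≃ₐ[F] Sep F) → Pt W (Sep F)) :=
  ⟨h.continuous, fun σ τ => h.cocycle σ τ⟩

theorem loc_of {W : WeierstrassCurve F} {f : Coch W} (h : ShaCocycle W f)
    (v : HeightOneSpectrum (𝓞 F)) :
    LocTriv W (Comp (𝓞 F) F v) (Sep (Comp (𝓞 F) F v))
      (f : (Sep F ≃ₐ[F] Sep F) → Pt W (Sep F)) :=
  lt_of (L := Comp (𝓞 F) F v) (h.finite v)

theorem sel_of {W : WeierstrassCurve F} (h : SelR (𝓞 F) W) : SelmerTrivial W := by
  intro f hf h2
  obtain ⟨T, hT, h1⟩ := h f (coc_of hf) h2 (loc_of hf)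
  exact ⟨T, hT, funext fun σ => h1 σ⟩

theorem sha_of {W : WeierstrassCurve F} (h : ShaR (𝓞 F) W) : ShaTrivial W := by
  rintro f hf ⟨n, Q, hQ⟩
  obtain ⟨T, h1⟩ := h f (coc_of hf) (loc_of hf) ⟨n, Q, fun σ => congrFun hQ σ⟩
  exact ⟨T, funext fun σ => h1 σ⟩

end bridge

theorem coef0 {K : Type} [Field K] (A B : K) : (sW A B).baseChange K = sW A B := by
  simp [sW, WeierstrassCurve.baseChange, WeierstrassCurve.map]

theorem trivial_of {K : Type} [Field K] [NumberField K] {A B : ℤ}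
    (hd : 4 * (A : K) ^ 3 + 27 * (B : K) ^ 2 ≠ 0)
    (h1 : SelR (𝓞 K) (sW (A : K) (B : K))) (h2 : ShaR (𝓞 K) (sW (A : K) (B : K)))
    (h3 : Subsingleton (Pt (sW (A : K) (B : K)) K)) : Trivial K (A, B) where
  points := by
    have c := Pool.Agent.N137.PV.coefs (A : K) (B : K)
    have h4 := (nopt_iff hd c.1 c.2.1 c.2.2.1 c.2.2.2.1 c.2.2.2.2).1 h3
    exact (nopt_iff (W := curve K (A, B)) hd rfl rfl rfl rfl rfl).2 h4
  selmer := sel_of h1
  sha := sha_of h2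

/-! ### Primes -/

theorem isPr_nat {p : ℕ} (hp : p.Prime) : IsPr (p : ℤ) :=
  ⟨by exact_mod_cast hp.pos, Nat.prime_iff_prime_int.1 hp⟩

theorem nat_isPr {P : ℤ} (hP : IsPr P) : ∃ p : ℕ, p.Prime ∧ (p : ℤ) = P := by
  obtain ⟨p, rfl⟩ := Int.eq_ofNat_of_zero_le hP.1.le
  exact ⟨p, Nat.prime_iff_prime_int.2 hP.2, rfl⟩

theorem mem_irr {p : ℕ} (hp : p.Prime) (q : ℤ × ℤ) : (p : ℤ) ∈ irr q.1 q.2 ↔ NoZero q p :=
  ⟨fun h => h.2, fun h => ⟨isPr_nat hp, h⟩⟩

section fields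

variable {K : Type} [Field K] [NumberField K] {p : ℕ}

theorem val_p {n : ℕ} (w : HeightOneSpectrum (𝓞 K)) :
    w.valuation K ((p : ℤ) : K) ≤ WithZero.exp (-(n : ℤ)) ↔ (p : 𝓞 K) ∈ w.asIdeal ^ n := by
  have e : (((p : ℤ)) : K) = algebraMap (𝓞 K) K (p : 𝓞 K) := by simp
  rw [e, HeightOneSpectrum.valuation_of_algebraMap, HeightOneSpectrum.intValuation_le_pow_iff_mem]

theorem ov_p (w : HeightOneSpectrum (𝓞 K)) : Ov (p : ℤ) w ↔ (p : 𝓞 K) ∈ w.asIdeal := by
  unfold Ov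
  rw [Int.cast_natCast]

theorem unr_iff (hp : p.Prime) : Unr K (p : ℤ) ↔ ¬ Ramified K p := by
  have hp0 : ((p : ℤ) : K) ≠ 0 := by exact_mod_cast hp.ne_zero
  constructor
  · rintro hu ⟨𝔭, hpr, hmem⟩
    have hne : 𝔭 ≠ ⊥ := by
      rintro rfl
      rw [Ideal.bot_pow two_ne_zero, Ideal.mem_bot] at hmem
      exact hp.ne_zero (by exact_mod_cast hmem)
    let w : HeightOneSpectrum (𝓞 K) := ⟨𝔭, hpr, hne⟩
    have h1 : (p : 𝓞 K) ∈ w.asIdeal := Ideal.pow_le_self two_ne_zero hmem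
    have h2 := hu w ((ov_p w).2 h1)
    have h3 := (val_p (p := p) (n := 2) w).2 hmem
    rw [h2, WithZero.exp_le_exp] at h3
    norm_num at h3
  · intro h w hw
    have h1 : w.valuation K ((p : ℤ) : K) ≤ WithZero.exp (-((1 : ℕ) : ℤ)) := by
      rw [val_p, pow_one]
      exact (ov_p w).1 hw
    have h2 : ¬ w.valuation K ((p : ℤ) : K) ≤ WithZero.exp (-((2 : ℕ) : ℤ)) := by
      rw [val_p]
      exact fun h3 => h ⟨w.asIdeal, w.isPrime, h3⟩
    have h0 : w.valuation K ((p : ℤ) : K) ≠ 0 := (Valuation.ne_zero_iff _).2 hp0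
    rw [← WithZero.exp_log h0] at h1 h2 ⊢
    rw [WithZero.exp_le_exp] at h1 h2
    congr 1
    omega

theorem res_of_splits (h : SplitsCompletely K p) : Res K (p : ℤ) := by
  intro w hw
  rw [(h w.asIdeal w.isPrime ((ov_p w).1 hw)).2, Int.natAbs_natCast]

theorem splits_of (hp : p.Prime) (hu : Unr K (p : ℤ)) (hr : Res K (p : ℤ)) :
    SplitsCompletely K p := by
  intro 𝔭 hpr hmem
  have hne : 𝔭 ≠ ⊥ := by
    rintro rfl
    rw [Ideal.mem_bot] at hmem
    exact hp.ne_zero (by exact_mod_cast hmem)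
  let w : HeightOneSpectrum (𝓞 K) := ⟨𝔭, hpr, hne⟩
  have h1 : (p : 𝓞 K) ∈ w.asIdeal := hmem
  refine ⟨fun h2 => (unr_iff hp).1 hu ⟨𝔭, hpr, h2⟩, ?_⟩
  have := hr w ((ov_p w).2 h1)
  rwa [Int.natAbs_natCast] at this

end fields

/-- Zeros of the twisted polynomial modulo an odd prime. -/
theorem noZero_two {A B : ℤ} {p : ℕ} (hp : p.Prime) (hp2 : p ≠ 2) :
    NoZero (4 * A, 8 * B) p ↔ NoZero (A, B) p := by
  have hpp := Nat.prime_iff_prime_int.1 hp
  have hc : ¬ (p : ℤ) ∣ 2 := by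
    intro h3
    have h4 : p ∣ 2 := by exact_mod_cast h3
    rcases (Nat.dvd_prime Nat.prime_two).1 h4 with h5 | h5
    · exact hp.ne_one h5
    · exact hp2 h5
  constructor
  · intro h z hz
    apply h (2 * z)
    have e : (2 * z) ^ 3 + 4 * A * (2 * z) + 8 * B = 8 * (z ^ 3 + A * z + B) := by ring
    show (p : ℤ) ∣ (2 * z) ^ 3 + 4 * A * (2 * z) + 8 * B
    rw [e]
    exact hz.mul_left _
  · intro h z hz
    obtain ⟨u, v, huv⟩ := (hpp.irreducible.coprime_iff_not_dvd).2 hc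
    apply h (v * z)
    show (p : ℤ) ∣ (v * z) ^ 3 + A * (v * z) + B
    have e : (v * z) ^ 3 + A * (v * z) + B = v ^ 3 * (z ^ 3 + 4 * A * z + 8 * B) +
        (A * v * z * (1 + v * 2) + B * (1 + v * 2 + v ^ 2 * 2 ^ 2)) * (1 - v * 2) := by ring
    have e2 : 1 - v * 2 = u * p := by linear_combination -huv
    rw [e, e2]
    exact dvd_add (Dvd.dvd.mul_left hz _) ((Dvd.intro_left u rfl).mul_left _)

/-! ### Type one: `A = B = 3` modulo `4` -/

theorem adm_of {K : Type} [Field K] [NumberField K] {A B : ℤ} (hodd : A % 2 = 1)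
    (h : FieldFor K (A, B)) : Adm K A B where
  two := (unr_iff Nat.prime_two).2 h.two
  ur P hP hPi := by
    obtain ⟨p, hp, rfl⟩ := nat_isPr hP
    rw [unr_iff hp]
    intro hr
    exact hPi ((mem_irr hp (A, B)).2 (h.ram p hp hr))
  sp P hP hA hB := by
    obtain ⟨p, hp, rfl⟩ := nat_isPr hP
    refine res_of_splits (h.split p hp ?_ hA hB)
    rintro rfl
    have : (2 : ℤ) ∣ A := hA
    omega

theorem tw_of {A B d : ℤ} (ha : A % 4 = 3) (hb : B % 4 = 3) (hd4 : d % 4 = 1 ∨ d % 4 = 2)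
    (h : ∀ p : ℕ, p.Prime → p ≠ 2 → (p : ℤ) ∣ d → NoZero (A, B) p) : Tw A B d where
  two := hd4
  ir P hP hPd := by
    obtain ⟨p, hp, rfl⟩ := nat_isPr hP
    by_cases hp2 : p = 2
    · subst hp2
      refine ⟨hP, fun z hz => ?_⟩
      have hz' : (2 : ℤ) ∣ z ^ 3 + A * z + B := hz
      have hA2 : A % 2 = 1 := by omega
      have hB2 : B % 2 = 1 := by omega
      rw [Int.dvd_iff_emod_eq_zero, Int.add_emod, Int.add_emod (z ^ 3), Int.mul_emod, hA2, hB2,
        pow_three, Int.mul_emod z, Int.mul_emod z z] at hz'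
      rcases Int.emod_two_eq_zero_or_one z with h0 | h0 <;> rw [h0] at hz' <;> norm_num at hz'
    · exact (mem_irr hp (A, B)).2 (h p hp hp2 hPd)

theorem sqfree_mod {d : ℤ} (h : Squarefree d) : d % 4 ≠ 0 := by
  intro h0
  have h1 : (2 : ℤ) * 2 ∣ d := by omega
  have := h 2 h1
  exact Int.prime_two.not_unit this

/-- The good pairs. -/
def Nice (q : ℤ × ℤ) : Prop :=
  ∀ (K : Type) [Field K] [NumberField K], FieldFor K q → ∀ d : ℤ, TwistFor q d →
    Trivial K (twist q d)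

theorem disc_ne {K : Type} [Field K] [CharZero K] {A B d : ℤ} (hd0 : d ≠ 0)
    (hAB : 4 * A ^ 3 + 27 * B ^ 2 ≠ 0) :
    4 * (((A * d ^ 2 : ℤ)) : K) ^ 3 + 27 * (((B * d ^ 3 : ℤ)) : K) ^ 2 ≠ 0 := by
  have e : 4 * (A * d ^ 2) ^ 3 + 27 * (B * d ^ 3) ^ 2 = d ^ 6 * (4 * A ^ 3 + 27 * B ^ 2) := by
    ring
  have h1 : 4 * (A * d ^ 2) ^ 3 + 27 * (B * d ^ 3) ^ 2 ≠ 0 := by
    rw [e]
    exact mul_ne_zero (pow_ne_zero _ hd0) hAB
  exact_mod_cast h1

theorem nice_one {A B : ℤ} (hAB : 4 * A ^ 3 + 27 * B ^ 2 ≠ 0) (hG : GSel A B) : Nice (A, B) := by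
  intro K _ _ hK d hd
  have ha := hG.a4
  have hb := hG.b4
  haveI := hK.galois
  obtain ⟨n, hn⟩ := hK.degree
  have hd4 : d % 4 = 1 ∨ d % 4 = 2 := by
    have h0 := sqfree_mod hd.squarefree
    rcases hd.two with ⟨-, -, h3⟩ | ⟨h1, -, -⟩
    · omega
    · have h1' : A % 16 = 12 := h1
      omega
  have hd0 : d ≠ 0 := hd.squarefree.ne_zero
  obtain ⟨h1, h2, h3⟩ := concl hn hAB hG (adm_of (by omega) hK) (tw_of ha hb hd4 hd.noZero)
  exact trivial_of (disc_ne hd0 hAB) h1 h2 h3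

/-! ### Type two: `A = 12` modulo `16`, `B = 24` modulo `32` -/

theorem adm_of2 {K : Type} [Field K] [NumberField K] {A B : ℤ} (hodd : A % 2 = 1)
    (h : FieldFor K (4 * A, 8 * B)) : Adm K A B where
  two := (unr_iff Nat.prime_two).2 h.two
  ur P hP hPi := by
    obtain ⟨p, hp, rfl⟩ := nat_isPr hP
    rw [unr_iff hp]
    intro hr
    have hp2 : p ≠ 2 := by
      rintro rfl
      exact h.two hr
    exact hPi ((mem_irr hp (A, B)).2 ((noZero_two hp hp2).1 (h.ram p hp hr)))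
  sp P hP hA hB := by
    obtain ⟨p, hp, rfl⟩ := nat_isPr hP
    refine res_of_splits (h.split p hp ?_ (hA.mul_left _) (hB.mul_left _))
    rintro rfl
    have : (2 : ℤ) ∣ A := hA
    omega

theorem nice_two {A B : ℤ} (hAB : 4 * A ^ 3 + 27 * B ^ 2 ≠ 0) (hG : GSel A B) :
    Nice (4 * A, 8 * B) := by
  intro K _ _ hK d hd
  have ha := hG.a4
  have hb := hG.b4
  haveI := hK.galois
  obtain ⟨n, hn⟩ := hK.degree
  have hd2 : d % 2 = 1 := by
    rcases hd.two with ⟨h1, -, -⟩ | ⟨-, -, h3⟩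
    · have h1' : 4 * A % 4 = 3 := h1
      omega
    · exact h3
  have hd0 : d ≠ 0 := hd.squarefree.ne_zero
  have htw : Tw A B (2 * d) := by
    refine tw_of ha hb (by omega) fun p hp hp2 hpd => ?_
    have hpp := Nat.prime_iff_prime_int.1 hp
    rw [← noZero_two hp hp2]
    refine hd.noZero p hp hp2 ?_
    rcases hpp.dvd_or_dvd hpd with h | h
    · exfalso
      have h4 : p ∣ 2 := by exact_mod_cast h
      rcases (Nat.dvd_prime Nat.prime_two).1 h4 with h5 | h5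
      · exact hp.ne_one h5
      · exact hp2 h5
    · exact h
  obtain ⟨h1, h2, h3⟩ := concl hn hAB hG (adm_of2 (by omega) hK) htw
  have := trivial_of (disc_ne (d := 2 * d) (by omega) hAB) h1 h2 h3
  have e : twist (4 * A, 8 * B) d = (A * (2 * d) ^ 2, B * (2 * d) ^ 3) := by
    unfold twist
    exact Prod.ext (by ring) (by ring)
  rw [e]
  exact this

end Pool.Agent.H30EV
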