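import Pool.Agent.H30EV.Fin

/-!
# The main theorem
-/

set_option autoImplicit false
set_option linter.all false

open NumberField IsDedekindDomain WeierstrassCurve Filter
open Pool.Agent.TH115.GD
open scoped Classical IntermediateField

namespace Pool.Agent.H30EV

open Pool.Agent.N922.PQ

theorem crv_iff (X : ℕ) (q : ℤ × ℤ) : Crv X q.1 q.2 ↔ q ∈ Curves X := by
  constructor
  · rintro ⟨h1, h2, h3, h4⟩
    exact ⟨⟨h1, h2⟩, max_le h3 h4⟩
  · rintro ⟨⟨h1, h2⟩, h3⟩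
    exact ⟨h1, h2, (le_max_left _ _).trans h3, (le_max_right _ _).trans h3⟩

theorem curves_eq (X : ℕ) : Curves X = {q : ℤ × ℤ | Crv X q.1 q.2} := by
  ext q
  exact (crv_iff X q).symm

theorem curves_fin (X : ℕ) : (Curves X).Finite := by
  rw [curves_eq]
  exact crv_fin X

theorem curves_pos {X : ℕ} (hX : 27 ≤ X) : 0 < (Curves X).ncard := by
  rw [Set.ncard_pos (curves_fin X)]
  refine ⟨(1, 1), ⟨by norm_num, ?_⟩, ?_⟩
  · rintro p hp ⟨h, -⟩
    have h1 : ((p : ℤ)) ∣ 1 := (dvd_pow_self (p : ℤ) (by norm_num)).trans h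
    have h2 : p ∣ 1 := by exact_mod_cast h1
    exact hp.one_lt.ne' (Nat.dvd_one.1 h2)
  · have : height ((1, 1) : ℤ × ℤ) = 27 := by
      simp [height]
    rw [this]
    exact_mod_cast hX

/-- The odd primes in `T`, as integers. -/
noncomputable def oddPrimes (T : Finset ℕ) : Finset ℤ :=
  (T.filter fun p => p.Prime ∧ p ≠ 2).image fun p : ℕ => (p : ℤ)

theorem oddPrimes_pr (T : Finset ℕ) : ∀ P ∈ oddPrimes T, IsPr P := by
  intro P hP
  obtain ⟨p, hp, rfl⟩ := Finset.mem_image.1 hP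
  exact isPr_nat (Finset.mem_filter.1 hp).2.1

theorem mem_odd {T : Finset ℕ} {p : ℕ} (h : p ∈ T) (hp : p.Prime) (h2 : p ≠ 2) :
    (p : ℤ) ∈ oddPrimes T :=
  Finset.mem_image.2 ⟨p, Finset.mem_filter.2 ⟨h, hp, h2⟩, rfl⟩

section

variable {K₀ : Type} [Field K₀] [NumberField K₀] [IsGalois ℚ K₀]

theorem field_one {n : ℕ} (hn : Module.finrank ℚ K₀ = 2 ^ n) {A B : ℤ}
    (h : Adm K₀ A B) : FieldFor K₀ (A, B) where
  galois := inferInstance
  degree := ⟨n, hn⟩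
  two := (unr_iff Nat.prime_two).1 h.two
  ram p hp hr := by
    by_contra hc
    exact (unr_iff hp).1 (h.ur p (isPr_nat hp) fun h1 => hc ((mem_irr hp (A, B)).1 h1)) hr
  split p hp hp2 hA hB := by
    refine splits_of hp (h.ur p (isPr_nat hp) fun h1 => ?_) (h.sp p (isPr_nat hp) hA hB)
    exact h1.2 0 (by simpa using hB)

theorem field_two {n : ℕ} (hn : Module.finrank ℚ K₀ = 2 ^ n) {A B : ℤ}
    (h : Adm K₀ A B) : FieldFor K₀ (4 * A, 8 * B) where
  galois := inferInstance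
  degree := ⟨n, hn⟩
  two := (unr_iff Nat.prime_two).1 h.two
  ram p hp hr := by
    have hp2 : p ≠ 2 := by
      rintro rfl
      exact (unr_iff Nat.prime_two).1 h.two hr
    rw [noZero_two hp hp2]
    by_contra hc
    exact (unr_iff hp).1 (h.ur p (isPr_nat hp) fun h1 => hc ((mem_irr hp (A, B)).1 h1)) hr
  split p hp hp2 hA hB := by
    have hpp := Nat.prime_iff_prime_int.1 hp
    have hc : ∀ k : ℕ, ¬ (p : ℤ) ∣ 2 ^ k := by
      intro k h3
      have h4 : p ∣ 2 := by exact_mod_cast hpp.dvd_of_dvd_pow h3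
      rcases (Nat.dvd_prime Nat.prime_two).1 h4 with h5 | h5
      · exact hp.ne_one h5
      · exact hp2 h5
    have hA' : (p : ℤ) ∣ A := by
      have hA1 : (p : ℤ) ∣ 2 ^ 2 * A := by norm_num; exact hA
      rcases hpp.dvd_or_dvd hA1 with h3 | h3
      · exact absurd h3 (hc 2)
      · exact h3
    have hB' : (p : ℤ) ∣ B := by
      have hB1 : (p : ℤ) ∣ 2 ^ 3 * B := by norm_num; exact hB
      rcases hpp.dvd_or_dvd hB1 with h3 | h3
      · exact absurd h3 (hc 3)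
      · exact h3
    refine splits_of hp (h.ur p (isPr_nat hp) fun h1 => ?_) (h.sp p (isPr_nat hp) hA' hB')
    exact h1.2 0 (by simpa using hB')

end

/-- **The main theorem.** -/
theorem main (K₀ : Type) [Field K₀] [NumberField K₀] [IsGalois ℚ K₀] {n : ℕ}
    (hn : Module.finrank ℚ K₀ = 2 ^ n) (h2 : ¬ Ramified K₀ 2) (δ : ℤ) (hδ : Squarefree δ)
    (T : Finset ℕ) :
    ∃ c : ℝ, 0 < c ∧ ∀ᶠ X : ℕ in atTop, 0 < (Curves X).ncard ∧
      c * ((Curves X).ncard : ℝ) ≤ ({q ∈ Curves X | FieldFor K₀ q ∧ TwistFor q 1 ∧ TwistFor q δ ∧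
        (∀ p ∈ T, p.Prime → p ≠ 2 → NoZero q p) ∧ Nice q}.ncard : ℝ) := by
  have hur : Unr K₀ 2 := (unr_iff Nat.prime_two).2 h2
  have hδ0 : δ ≠ 0 := hδ.ne_zero
  obtain ⟨T', hT'⟩ : ∃ T' : Finset ℕ, T' = T ∪ δ.natAbs.divisors := ⟨_, rfl⟩
  have hdiv : ∀ p : ℕ, (p : ℤ) ∣ δ → p ∈ T' := by
    intro p hp
    rw [hT']
    refine Finset.mem_union_right _ (Nat.mem_divisors.2 ⟨?_, Int.natAbs_ne_zero.2 hδ0⟩)
    exact Int.natCast_dvd.1 hp
  have h1sq : Squarefree (1 : ℤ) := squarefree_one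
  have h1p : ∀ p : ℕ, p.Prime → ¬ (p : ℤ) ∣ 1 := by
    intro p hp h
    have : p ∣ 1 := by exact_mod_cast h
    exact hp.one_lt.ne' (Nat.dvd_one.1 this)
  by_cases hδ4 : δ % 4 = 3
  · -- the curves of type two
    obtain ⟨c, hc, H₀, h⟩ := propE2 K₀ hur (oddPrimes T') (oddPrimes_pr T')
    refine ⟨c, hc, ?_⟩
    filter_upwards [eventually_ge_atTop H₀, eventually_ge_atTop 27] with X hX hX'
    refine ⟨curves_pos hX', ?_⟩
    obtain ⟨-, h3⟩ := h X hX
    rw [← curves_eq] at h3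
    refine h3.trans ?_
    have hsub : {p : ℤ × ℤ | Crv X p.1 p.2 ∧ GoodE2 K₀ (oddPrimes T') p} ⊆
        {q ∈ Curves X | FieldFor K₀ q ∧ TwistFor q 1 ∧ TwistFor q δ ∧
          (∀ p ∈ T, p.Prime → p ≠ 2 → NoZero q p) ∧ Nice q} := by
      rintro q ⟨hq, A, B, rfl, hg⟩
      have ha := hg.sel.a4
      have hb := hg.sel.b4
      have ha' : A % 4 = 3 := ha
      have hb' : B % 4 = 3 := hb
      have h8 : (4 * A) % 16 = 12 ∧ (8 * B) % 32 = 24 := by omega
      have hnz : ∀ p ∈ T', p.Prime → p ≠ 2 → NoZero (4 * A, 8 * B) p := by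
        intro p hpT hp hp2
        rw [noZero_two hp hp2]
        exact (mem_irr hp (A, B)).1 (hg.ir p (mem_odd hpT hp hp2))
      have hAB : 4 * A ^ 3 + 27 * B ^ 2 ≠ 0 := by
        intro h0
        apply hq.disc
        show 4 * (4 * A) ^ 3 + 27 * (8 * B) ^ 2 = 0
        linear_combination 64 * h0
      refine ⟨(crv_iff X _).1 hq, field_two hn hg.adm, ⟨h1sq, ?_, ?_⟩, ⟨hδ, ?_, ?_⟩, ?_, ?_⟩
      · exact fun p hp _ hpd => absurd hpd (h1p p hp)
      · exact Or.inr ⟨h8.1, h8.2, by norm_num⟩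
      · exact fun p hp hp2 hpd => hnz p (hdiv p hpd) hp hp2
      · exact Or.inr ⟨h8.1, h8.2, by omega⟩
      · exact fun p hpT hp hp2 => hnz p (by rw [hT']; exact Finset.mem_union_left _ hpT) hp hp2
      · exact nice_two hAB hg.sel
    exact_mod_cast Set.ncard_le_ncard hsub ((curves_fin X).subset fun q hq => hq.1)
  · -- the curves of type one
    obtain ⟨c, hc, H₀, h⟩ := propE K₀ hur (oddPrimes T') (oddPrimes_pr T')
    refine ⟨c, hc, ?_⟩
    filter_upwards [eventually_ge_atTop H₀, eventually_ge_atTop 27] with X hX hX'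
    refine ⟨curves_pos hX', ?_⟩
    obtain ⟨-, h3⟩ := h X hX
    rw [← curves_eq] at h3
    refine h3.trans ?_
    have hsub : {p : ℤ × ℤ | Crv X p.1 p.2 ∧ GoodE K₀ (oddPrimes T') p} ⊆
        {q ∈ Curves X | FieldFor K₀ q ∧ TwistFor q 1 ∧ TwistFor q δ ∧
          (∀ p ∈ T, p.Prime → p ≠ 2 → NoZero q p) ∧ Nice q} := by
      rintro ⟨A, B⟩ ⟨hq, hg⟩
      have ha : A % 4 = 3 := hg.sel.a4
      have hb : B % 4 = 3 := hg.sel.b4
      have hnz : ∀ p ∈ T', p.Prime → p ≠ 2 → NoZero (A, B) p := by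
        intro p hpT hp hp2
        exact (mem_irr hp (A, B)).1 (hg.ir p (mem_odd hpT hp hp2))
      have hAB : 4 * A ^ 3 + 27 * B ^ 2 ≠ 0 := hq.disc
      refine ⟨(crv_iff X _).1 hq, field_one hn hg.adm, ⟨h1sq, ?_, ?_⟩, ⟨hδ, ?_, ?_⟩, ?_, ?_⟩
      · exact fun p hp _ hpd => absurd hpd (h1p p hp)
      · exact Or.inl ⟨ha, hb, by norm_num⟩
      · exact fun p hp hp2 hpd => hnz p (hdiv p hpd) hp hp2
      · exact Or.inl ⟨ha, hb, hδ4⟩
      · exact fun p hpT hp hp2 => hnz p (by rw [hT']; exact Finset.mem_union_left _ hpT) hp hp2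
      · exact nice_one hAB hg.sel
    exact_mod_cast Set.ncard_le_ncard hsub ((curves_fin X).subset fun q hq => hq.1)

end Pool.Agent.H30EV
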