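import Pool.Agent.N922.PQ.Big5
import Pool.Agent.N692.PM.Tow

/-!
# Unramified and completely split primes in the compositum with a Galois extension
-/

set_option autoImplicit false

open Polynomial IsDedekindDomain NumberField Module
open scoped Classical IntermediateField Pointwise

namespace Pool.Agent.H30EV

open Pool.Agent.N922.PQ

section gal

variable {K L : Type} [Field K] [NumberField K] [Field L] [NumberField L] [Algebra K L]
  [IsGalois K L]

/-- If the inertia group is trivial, the valuations agree. -/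
theorem val_of_inertia (P : HeightOneSpectrum (𝓞 L))
    (hI : ∀ σ : Gal(L/K), (∀ y : 𝓞 L, σ • y - y ∈ P.asIdeal) → σ = 1) (x : K) :
    P.valuation L (algebraMap K L x) = (P.under (𝓞 K)).valuation K x := by
  have hPp : P.asIdeal.IsPrime := P.isPrime
  obtain ⟨I, hIdef⟩ : ∃ I : Ideal (𝓞 K), I = P.asIdeal.under (𝓞 K) := ⟨_, rfl⟩
  have hIprime : I.IsPrime := by rw [hIdef]; infer_instance
  have hover : P.asIdeal.LiesOver I := ⟨hIdef⟩
  have hI0 : I ≠ ⊥ := by rw [hIdef]; exact Ideal.under_ne_bot (𝓞 K) P.ne_bot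
  have hImax : I.IsMaximal := hIprime.isMaximal hI0
  have hfin : Finite (𝓞 K ⧸ I) := Ring.HasFiniteQuotients.finiteQuotient hI0
  have hover' : P.asIdeal.LiesOver (P.under (𝓞 K)).asIdeal := ⟨rfl⟩
  have hcard : Nat.card (P.asIdeal.inertia Gal(L/K)) = Ideal.ramificationIdxIn I (𝓞 L) :=
    Ideal.card_inertia_eq_ramificationIdxIn I P.asIdeal
  have h1 : Ideal.ramificationIdxIn I (𝓞 L) = P.asIdeal.ramificationIdx (𝓞 K) :=
    Ideal.ramificationIdxIn_eq_ramificationIdx I P.asIdeal Gal(L/K)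
  have h2 : I.ramificationIdx' P.asIdeal = P.asIdeal.ramificationIdx (𝓞 K) :=
    Ideal.ramificationIdx'_eq_ramificationIdx I P.asIdeal hI0
  have h3 : Nat.card (P.asIdeal.inertia Gal(L/K)) = 1 := by
    rw [Nat.card_eq_one_iff_unique]
    refine ⟨⟨fun σ τ => ?_⟩, ⟨1⟩⟩
    apply Subtype.ext
    rw [hI σ.1 (fun y => σ.2 y), hI τ.1 (fun y => τ.2 y)]
  have h4 : (P.under (𝓞 K)).asIdeal.ramificationIdx' P.asIdeal = 1 := by
    have e : (P.under (𝓞 K)).asIdeal = I := hIdef.symm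
    rw [e, h2, ← h1, ← hcard, h3]
  have h5 := HeightOneSpectrum.valuation_liesOver (K := K) L (P.under (𝓞 K)) P x
  rw [← h5, h4, pow_one]

/-- If the decomposition group is trivial, `K` is dense. -/
theorem dens_of_stab (P : HeightOneSpectrum (𝓞 L))
    (hI : ∀ σ : Gal(L/K), (∀ y ∈ P.asIdeal, σ • y ∈ P.asIdeal) → σ = 1) (s : L) (hs : s ≠ 0) :
    ∃ s₀ : K, P.valuation L (s - algebraMap K L s₀) < P.valuation L s := by
  have hPp : P.asIdeal.IsPrime := P.isPrime
  have hI' : ∀ σ : Gal(L/K), (∀ y : 𝓞 L, σ • y - y ∈ P.asIdeal) → σ = 1 := by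
    intro σ hσ
    refine hI σ fun y hy => ?_
    have := Ideal.add_mem _ (hσ y) hy
    rwa [sub_add_cancel] at this
  have hv := val_of_inertia P hI'
  obtain ⟨I, hIdef⟩ : ∃ I : Ideal (𝓞 K), I = P.asIdeal.under (𝓞 K) := ⟨_, rfl⟩
  have hIprime : I.IsPrime := by rw [hIdef]; infer_instance
  have hover : P.asIdeal.LiesOver I := ⟨hIdef⟩
  have hI0 : I ≠ ⊥ := by rw [hIdef]; exact Ideal.under_ne_bot (𝓞 K) P.ne_bot
  have hImax : I.IsMaximal := hIprime.isMaximal hI0
  have hfin : Finite (𝓞 K ⧸ I) := Ring.HasFiniteQuotients.finiteQuotient hI0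
  have hfin2 : Finite (𝓞 L ⧸ P.asIdeal) := Ring.HasFiniteQuotients.finiteQuotient P.ne_bot
  have hcard : Nat.card (MulAction.stabilizer Gal(L/K) P.asIdeal) =
      Nat.card (P.asIdeal.inertia Gal(L/K)) * P.asIdeal.inertiaDeg (𝓞 K) :=
    Ideal.card_stabilizer_eq_card_inertia_mul_finrank I P.asIdeal
  have h3 : Nat.card (MulAction.stabilizer Gal(L/K) P.asIdeal) = 1 := by
    rw [Nat.card_eq_one_iff_unique]
    refine ⟨⟨fun σ τ => ?_⟩, ⟨1⟩⟩
    have key : ∀ ρ : MulAction.stabilizer Gal(L/K) P.asIdeal, (ρ : Gal(L/K)) = 1 := by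
      intro ρ
      refine hI ρ fun y hy => ?_
      have h4 : (ρ : Gal(L/K)) • P.asIdeal = P.asIdeal := ρ.2
      have h5 : (ρ : Gal(L/K)) • y ∈ (ρ : Gal(L/K)) • P.asIdeal :=
        Ideal.smul_mem_pointwise_smul _ _ _ hy
      exact h4.le h5
    apply Subtype.ext
    rw [key σ, key τ]
  have hf : P.asIdeal.inertiaDeg (𝓞 K) = 1 := by
    rw [h3] at hcard
    exact Nat.eq_one_of_mul_eq_one_left hcard.symm
  have hf' : I.inertiaDeg' P.asIdeal = 1 := by
    rw [Ideal.inertiaDeg'_eq_inertiaDeg, hf]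
  have hN := Ideal.absNorm_eq_pow_inertiaDeg'_of_liesOver P.asIdeal I hIprime hI0
  rw [hf', pow_one] at hN
  -- the residue fields
  have hsurj : Function.Surjective (algebraMap (𝓞 K ⧸ I) (𝓞 L ⧸ P.asIdeal)) := by
    have : Fintype (𝓞 K ⧸ I) := Fintype.ofFinite _
    have : Fintype (𝓞 L ⧸ P.asIdeal) := Fintype.ofFinite _
    let _ : Field (𝓞 K ⧸ I) := Ideal.Quotient.field I
    have hinj : Function.Injective (algebraMap (𝓞 K ⧸ I) (𝓞 L ⧸ P.asIdeal)) :=
      RingHom.injective _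
    refine ((Fintype.bijective_iff_injective_and_card _).2 ⟨hinj, ?_⟩).2
    have h5 : Nat.card (𝓞 L ⧸ P.asIdeal) = Nat.card (𝓞 K ⧸ I) := hN
    rw [Nat.card_eq_fintype_card, Nat.card_eq_fintype_card] at h5
    exact h5.symm
  obtain ⟨c, hc⟩ := (P.under (𝓞 K)).valuation_surjective (K := K) (P.valuation L s)
  have hc0 : c ≠ 0 := by
    rintro rfl
    rw [map_zero] at hc
    exact ((Valuation.ne_zero_iff _).mpr hs) hc.symm
  have hcL : algebraMap K L c ≠ 0 := by simpa using hc0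
  have hvc : P.valuation L (algebraMap K L c) = P.valuation L s := by rw [hv, hc]
  have hu : P.valuation L (s / algebraMap K L c) ≤ 1 := by
    rw [map_div₀, hvc, div_self]
    exact (Valuation.ne_zero_iff _).mpr hs
  obtain ⟨z, hz⟩ := HeightOneSpectrum.exists_valuation_sub_lt_of_integer P hu 1
  obtain ⟨y, hy⟩ := hsurj (Ideal.Quotient.mk P.asIdeal z)
  obtain ⟨z₀, rfl⟩ := Ideal.Quotient.mk_surjective y
  have hz₀ : algebraMap (𝓞 K) (𝓞 L) z₀ - z ∈ P.asIdeal := by
    rw [← Ideal.Quotient.eq]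
    exact hy
  refine ⟨c * z₀, ?_⟩
  have e : s - algebraMap K L (c * z₀) = algebraMap K L c * ((s / algebraMap K L c -
      algebraMap (𝓞 L) L z) - algebraMap (𝓞 L) L (algebraMap (𝓞 K) (𝓞 L) z₀ - z)) := by
    have e2 : algebraMap (𝓞 L) L (algebraMap (𝓞 K) (𝓞 L) z₀) = algebraMap K L z₀ := rfl
    rw [map_sub, e2, map_mul]
    field_simp
    ring
  rw [e, map_mul, hvc]
  have hlt : P.valuation L ((s / algebraMap K L c - algebraMap (𝓞 L) L z) -
      algebraMap (𝓞 L) L (algebraMap (𝓞 K) (𝓞 L) z₀ - z)) < 1 := by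
    refine lt_of_le_of_lt (Valuation.map_sub _ _ _) (max_lt ?_ ?_)
    · rw [Valuation.map_sub_swap]
      simpa using hz
    · exact (P.valuation_lt_one_iff_mem _).2 hz₀
  have hpos : 0 < P.valuation L s := by
    rw [zero_lt_iff]
    exact (Valuation.ne_zero_iff _).2 hs
  calc P.valuation L s * _ < P.valuation L s * 1 := mul_lt_mul_of_pos_left hlt hpos
    _ = P.valuation L s := mul_one _

end gal

section rat

variable (M : Type) [Field M] [NumberField M]

/-- The number `P` is unramified in `M`. -/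
def Unr (P : ℤ) : Prop :=
  ∀ w : HeightOneSpectrum (𝓞 M), Ov P w → w.valuation M (P : M) = WithZero.exp (-1 : ℤ)

/-- The residue fields of `M` at the primes over `P` have `P` elements. -/
def Res (P : ℤ) : Prop :=
  ∀ w : HeightOneSpectrum (𝓞 M), Ov P w → Nat.card (𝓞 M ⧸ w.asIdeal) = P.natAbs

variable {M} {P : ℤ} (hP : IsPr P)

/-- The prime of `ℤ`. -/
def pz (hP : IsPr P) : HeightOneSpectrum ℤ where
  asIdeal := Ideal.span {P}
  isPrime := (Ideal.span_singleton_prime hP.2.ne_zero).2 hP.2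
  ne_bot := by
    rw [Ne, Ideal.span_singleton_eq_bot]
    exact hP.2.ne_zero

include hP in
theorem liesOver_of {w : HeightOneSpectrum (𝓞 M)} (h : Ov P w) :
    w.asIdeal.LiesOver (Ideal.span {P}) := by
  have hPp : w.asIdeal.IsPrime := w.isPrime
  have hpmax : (Ideal.span {P}).IsMaximal :=
    PrincipalIdealRing.isMaximal_of_irreducible hP.2.irreducible
  have hle : Ideal.span {P} ≤ w.asIdeal.under ℤ := by
    rw [Ideal.span_singleton_le_iff_mem, Ideal.under_def, Ideal.mem_comap]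
    have h1 : ((P : ℤ) : 𝓞 M) ∈ w.asIdeal := h
    simpa using h1
  have hne : w.asIdeal.under ℤ ≠ ⊤ := by
    have : (w.asIdeal.under ℤ).IsPrime := inferInstance
    exact this.ne_top
  exact ⟨hpmax.eq_of_le hne hle⟩

include hP in
theorem valQ (x : ℚ) (w : HeightOneSpectrum (𝓞 M)) (h : Ov P w) (hu : Unr M P) :
    (pz hP).valuation ℚ x = w.valuation M (algebraMap ℚ M x) ∧
      (Ideal.span {P}).ramificationIdx' w.asIdeal = 1 := by
  have hl : w.asIdeal.LiesOver (Ideal.span {P}) := liesOver_of hP h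
  have hl' : w.asIdeal.LiesOver (pz hP).asIdeal := hl
  have h1 := HeightOneSpectrum.valuation_liesOver (K := ℚ) M (pz hP) w
  have h2 : (pz hP).valuation ℚ ((P : ℤ) : ℚ) = WithZero.exp (-1 : ℤ) := by
    have e : ((P : ℤ) : ℚ) = algebraMap ℤ ℚ P := by simp
    rw [e, HeightOneSpectrum.valuation_of_algebraMap]
    exact HeightOneSpectrum.intValuation_singleton _ hP.2.ne_zero rfl
  have h3 := h1 ((P : ℤ) : ℚ)
  rw [h2, map_intCast, hu w h] at h3
  have h4 : (pz hP).asIdeal.ramificationIdx' w.asIdeal = 1 := by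
    rw [← WithZero.exp_nsmul, WithZero.exp_inj] at h3
    simp only [smul_neg, nsmul_eq_mul, mul_one, neg_inj] at h3
    exact_mod_cast h3
  refine ⟨?_, h4⟩
  rw [← h1 x, h4, pow_one]

variable [IsGalois ℚ M]

include hP in
/-- The inertia group at an unramified prime is trivial. -/
theorem inertia_one (w : HeightOneSpectrum (𝓞 M)) (h : Ov P w) (hu : Unr M P) :
    Nat.card (w.asIdeal.inertia Gal(M/ℚ)) = 1 := by
  have hPp : w.asIdeal.IsPrime := w.isPrime
  have hl : w.asIdeal.LiesOver (Ideal.span {P}) := liesOver_of hP h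
  have hpmax : (Ideal.span {P}).IsMaximal :=
    PrincipalIdealRing.isMaximal_of_irreducible hP.2.irreducible
  have h0 : Ideal.span {P} ≠ ⊥ := by
    rw [Ne, Ideal.span_singleton_eq_bot]
    exact hP.2.ne_zero
  have hfin : Finite (ℤ ⧸ Ideal.span {P}) := Ring.HasFiniteQuotients.finiteQuotient h0
  have hcard : Nat.card (w.asIdeal.inertia Gal(M/ℚ)) =
      Ideal.ramificationIdxIn (Ideal.span {P}) (𝓞 M) :=
    Ideal.card_inertia_eq_ramificationIdxIn (Ideal.span {P}) w.asIdeal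
  have h1 : Ideal.ramificationIdxIn (Ideal.span {P}) (𝓞 M) = w.asIdeal.ramificationIdx ℤ :=
    Ideal.ramificationIdxIn_eq_ramificationIdx (Ideal.span {P}) w.asIdeal Gal(M/ℚ)
  have h2 : (Ideal.span {P}).ramificationIdx' w.asIdeal = w.asIdeal.ramificationIdx ℤ :=
    Ideal.ramificationIdx'_eq_ramificationIdx (Ideal.span {P}) w.asIdeal h0
  rw [hcard, h1, ← h2, (valQ hP 0 w h hu).2]

include hP in
theorem inertia_triv (w : HeightOneSpectrum (𝓞 M)) (h : Ov P w) (hu : Unr M P)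
    (σ : Gal(M/ℚ)) (hσ : ∀ y : 𝓞 M, σ • y - y ∈ w.asIdeal) : σ = 1 := by
  have h1 := inertia_one hP w h hu
  rw [Nat.card_eq_one_iff_unique] at h1
  have h2 := h1.1.elim (⟨σ, fun y => hσ y⟩ : w.asIdeal.inertia Gal(M/ℚ)) 1
  exact congrArg Subtype.val h2

include hP in
theorem stab_triv (w : HeightOneSpectrum (𝓞 M)) (h : Ov P w) (hu : Unr M P) (hr : Res M P)
    (σ : Gal(M/ℚ)) (hσ : ∀ y ∈ w.asIdeal, σ • y ∈ w.asIdeal) : σ = 1 := by
  have hPp : w.asIdeal.IsPrime := w.isPrime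
  have hl : w.asIdeal.LiesOver (Ideal.span {P}) := liesOver_of hP h
  have hpmax : (Ideal.span {P}).IsMaximal :=
    PrincipalIdealRing.isMaximal_of_irreducible hP.2.irreducible
  have h0 : Ideal.span {P} ≠ ⊥ := by
    rw [Ne, Ideal.span_singleton_eq_bot]
    exact hP.2.ne_zero
  have hfin : Finite (ℤ ⧸ Ideal.span {P}) := Ring.HasFiniteQuotients.finiteQuotient h0
  have hcard : Nat.card (MulAction.stabilizer Gal(M/ℚ) w.asIdeal) =
      Nat.card (w.asIdeal.inertia Gal(M/ℚ)) * w.asIdeal.inertiaDeg ℤ :=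
    Ideal.card_stabilizer_eq_card_inertia_mul_finrank (Ideal.span {P}) w.asIdeal
  have hN := Ideal.absNorm_eq_pow_inertiaDeg w.asIdeal hP.2
  have hN' : Ideal.absNorm w.asIdeal = P.natAbs := hr w h
  have h1P : 1 < P.natAbs := by
    have := (Int.prime_iff_natAbs_prime.1 hP.2).one_lt
    exact this
  have hf : (Ideal.span {P}).inertiaDeg' w.asIdeal = 1 := by
    rw [hN'] at hN
    have : P.natAbs ^ 1 = P.natAbs ^ (Ideal.span {P}).inertiaDeg' w.asIdeal := by
      rw [pow_one]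
      exact hN
    exact (Nat.pow_right_injective h1P this).symm
  rw [Ideal.inertiaDeg'_eq_inertiaDeg] at hf
  rw [inertia_one hP w h hu, hf, mul_one] at hcard
  have h2 : σ • w.asIdeal = w.asIdeal := by
    have h3 : w.asIdeal ≤ σ⁻¹ • w.asIdeal := by
      intro y hy
      rw [Ideal.mem_inv_pointwise_smul_iff]
      exact hσ y hy
    have h4 : σ⁻¹ • w.asIdeal ≠ ⊤ := by
      intro h5
      apply w.isPrime.ne_top
      rw [Ideal.eq_top_iff_one] at h5 ⊢
      rw [Ideal.mem_inv_pointwise_smul_iff, smul_one] at h5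
      exact h5
    have h6 := w.isMaximal.eq_of_le h4 h3
    calc σ • w.asIdeal = σ • σ⁻¹ • w.asIdeal := by rw [← h6]
      _ = w.asIdeal := smul_inv_smul _ _
  rw [Nat.card_eq_one_iff_unique] at hcard
  have h4 := hcard.1.elim (⟨σ, h2⟩ : MulAction.stabilizer Gal(M/ℚ) w.asIdeal) 1
  exact congrArg Subtype.val h4

end rat

end Pool.Agent.H30EV
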