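import Pool.Agent.N323.PV.CAL

/-!
# The classes of the points of the quadratic twists modulo `4`

`a` and `b` are `3` modulo `4`. Over a field in which `2` is a uniformizer the classes modulo `4` of the
points of `d y ^ 2 = x ^ 3 + a x + b` are those of the points of `y ^ 2 = x ^ 3 + a x + b`, if
`d` is `1` modulo `4` or twice an odd number.
-/

set_option autoImplicit false

open Polynomial
open scoped Classical

namespace Pool.Agent.H30EV

open Pool.Agent.N922.PQ Pool.Agent.N323.PV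

/-- The class of the polynomial `h` is in the local image over `F` of `d y ^ 2 = x ^ 3 + a x + b`. -/
def PLt (F : Type) [Field F] (a b d : ℤ) (h : F[X]) : Prop :=
  (∃ g : F[X], ff F a b ∣ h - g ^ 2) ∨
  ∃ x y : F, y ≠ 0 ∧ d * y ^ 2 = x ^ 3 + a * x + b ∧
    ∃ g : F[X], ff F a b ∣ C (d : F) * (C x - X) * h - g ^ 2

section Ring

variable {O : Type*} [CommRing O]

/-- squares modulo `f` in the ring of integers, with any coefficients -/
lemma ringA' (h2 : ∀ u : O, 2 ∣ u ^ 2 → 2 ∣ u)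
    (h0 : ∀ u w : O, 2 * u = 2 * w → u = w) (a b : ℤ) (hb : Odd b) (g₁ g₂ r s t t0 t1 t2 : O)
    (e0 : 1 + 4 * r = t0 ^ 2 - 2 * t1 * t2 * b)
    (e1 : 2 * g₁ + 4 * s = 2 * t0 * t1 - 2 * t1 * t2 * a - t2 ^ 2 * b)
    (e2 : 2 * g₂ + 4 * t = t1 ^ 2 + 2 * t0 * t2 - t2 ^ 2 * a) : 2 ∣ g₁ ∧ 2 ∣ g₂ := by
  obtain ⟨k, rfl⟩ := hb
  push_cast at e0 e1 e2
  obtain ⟨u2, hu2⟩ : (2 : O) ∣ t2 := by
    apply h2
    refine ⟨t0 * t1 - t1 * t2 * a - t2 ^ 2 * k - g₁ - 2 * s, ?_⟩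
    linear_combination e1
  obtain ⟨u1, hu1⟩ : (2 : O) ∣ t1 := by
    apply h2
    refine ⟨g₂ + 2 * t - t0 * t2 + u2 * t2 * a, ?_⟩
    linear_combination -e2 + (a * t2) * hu2
  constructor
  · refine ⟨t0 * u1 - 2 * u1 * u2 * a - u2 ^ 2 * (2 * k + 1) - s, ?_⟩
    apply h0
    rw [hu1, hu2] at e1
    linear_combination e1
  · refine ⟨u1 ^ 2 + t0 * u2 - u2 ^ 2 * a - t, ?_⟩
    apply h0
    rw [hu1, hu2] at e2
    linear_combination e2

/-- the case of an integral point, `d` even: there is none -/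
lemma ringD (h1 : ¬ (2 : O) ∣ 1) (h2 : ∀ u : O, 2 ∣ u ^ 2 → 2 ∣ u)
    (h0 : ∀ u w : O, 2 * u = 2 * w → u = w) (a b d : ℤ) (hb : Odd b) (hd : Odd d)
    (g₁ g₂ r s t x t0 t1 t2 : O)
    (e0 : (2 * d) * (x * (1 + 4 * r) + (2 * g₂ + 4 * t) * b) = t0 ^ 2 - 2 * t1 * t2 * b)
    (e1 : (2 * d) * (x * (2 * g₁ + 4 * s) - (1 + 4 * r) + (2 * g₂ + 4 * t) * a) =
      2 * t0 * t1 - 2 * t1 * t2 * a - t2 ^ 2 * b)
    (e2 : (2 * d) * (x * (2 * g₂ + 4 * t) - (2 * g₁ + 4 * s)) =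
      t1 ^ 2 + 2 * t0 * t2 - t2 ^ 2 * a) : False := by
  obtain ⟨k, rfl⟩ := hb
  obtain ⟨l, rfl⟩ := hd
  push_cast at e0 e1 e2
  obtain ⟨u2, hu2⟩ : (2 : O) ∣ t2 := by
    apply h2
    refine ⟨t0 * t1 - t1 * t2 * a - t2 ^ 2 * k - (2 * l + 1) * (x * (2 * g₁ + 4 * s) -
      (1 + 4 * r) + (2 * g₂ + 4 * t) * a), ?_⟩
    linear_combination e1
  obtain ⟨u1, hu1⟩ : (2 : O) ∣ t1 := by
    apply h2
    refine ⟨(2 * l + 1) * (x * (2 * g₂ + 4 * t) - (2 * g₁ + 4 * s)) - t0 * t2 + u2 * t2 * a, ?_⟩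
    linear_combination -e2 + (a * t2) * hu2
  have e3 : (2 * l + 1 : O) * (2 * (x * (g₁ + 2 * s) - 2 * r + (g₂ + 2 * t) * a) - 1) =
      2 * (t0 * u1 - 2 * u1 * u2 * a - u2 ^ 2 * (2 * k + 1)) := by
    apply h0
    rw [hu1, hu2] at e1
    linear_combination e1
  apply h1
  refine ⟨(2 * l + 1) * (x * (g₁ + 2 * s) - 2 * r + (g₂ + 2 * t) * a) - l - (t0 * u1
    - 2 * u1 * u2 * a - u2 ^ 2 * (2 * k + 1)), ?_⟩
  linear_combination -e3

end Ring

section Val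

variable {F Γ : Type} [Field F] [CharZero F] [LinearOrderedCommGroupWithZero Γ] (v : Valuation F Γ)

/-- the case of an integral point, `d` even: there is none -/
lemma caseD (hv2 : v 2 < 1) (hv : ∀ x : F, v x < 1 → v x ≤ v 2) {a b d : ℤ} (hb : Odd b)
    (hd : Odd d) (g₁ g₂ : ℤ) {r s t x t0 t1 t2 : F} (hr : v r ≤ 1) (hs : v s ≤ 1) (ht : v t ≤ 1)
    (hx : v x ≤ 1)
    (e0 : (2 * d) * (x * (1 + 4 * r) + (2 * g₂ + 4 * t) * b) = t0 ^ 2 - 2 * t1 * t2 * b)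
    (e1 : (2 * d) * (x * (2 * g₁ + 4 * s) - (1 + 4 * r) + (2 * g₂ + 4 * t) * a) =
      2 * t0 * t1 - 2 * t1 * t2 * a - t2 ^ 2 * b)
    (e2 : (2 * d) * (x * (2 * g₂ + 4 * t) - (2 * g₁ + 4 * s)) =
      t1 ^ 2 + 2 * t0 * t2 - t2 ^ 2 * a) : False := by
  let r' : v.integer := ⟨r, hr⟩
  let s' : v.integer := ⟨s, hs⟩
  let t' : v.integer := ⟨t, ht⟩
  let x' : v.integer := ⟨x, hx⟩
  obtain ⟨k0, k1, k2⟩ := integral v hv2 hb e0 e1 e2
    ((2 * (d : v.integer)) * (x' * (1 + 4 * r') + (2 * (g₂ : v.integer) + 4 * t') *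
      (b : v.integer)) : v.integer).2
    ((2 * (d : v.integer)) * (x' * (2 * (g₁ : v.integer) + 4 * s') - (1 + 4 * r') +
      (2 * (g₂ : v.integer) + 4 * t') * (a : v.integer)) : v.integer).2
    ((2 * (d : v.integer)) * (x' * (2 * (g₂ : v.integer) + 4 * t') -
      (2 * (g₁ : v.integer) + 4 * s')) : v.integer).2
  exact ringD (O := v.integer) (int_h1 v hv2) (int_h2 v hv2 hv) (int_h0 v) a b d hb hd g₁ g₂
    r' s' t' x' ⟨t0, k0⟩ ⟨t1, k1⟩ ⟨t2, k2⟩ (Subtype.ext e0) (Subtype.ext e1) (Subtype.ext e2)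

/-- the case of a point with a pole, any `d` -/
lemma caseE (hv2 : v 2 < 1) (hv : ∀ x : F, v x < 1 → v x ≤ v 2) {a b d : ℤ} (hb : Odd b)
    (hd : d ≠ 0) (g₁ g₂ : ℤ) {r s t x y t0 t1 t2 : F} (hr : v r ≤ 1) (hs : v s ≤ 1) (ht : v t ≤ 1)
    (hx : 1 < v x) (hy : y ≠ 0) (hxy : d * y ^ 2 = x ^ 3 + a * x + b)
    (e0 : d * (x * (1 + 4 * r) + (2 * g₂ + 4 * t) * b) = t0 ^ 2 - 2 * t1 * t2 * b)
    (e1 : d * (x * (2 * g₁ + 4 * s) - (1 + 4 * r) + (2 * g₂ + 4 * t) * a) =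
      2 * t0 * t1 - 2 * t1 * t2 * a - t2 ^ 2 * b)
    (e2 : d * (x * (2 * g₂ + 4 * t) - (2 * g₁ + 4 * s)) = t1 ^ 2 + 2 * t0 * t2 - t2 ^ 2 * a) :
    Even g₂ := by
  have hd' : (d : F) ≠ 0 := by exact_mod_cast hd
  have hx0 : x ≠ 0 := by
    rintro rfl
    rw [map_zero] at hx
    exact absurd hx (not_lt.2 zero_le')
  have hinv : v (1 / x) < 1 := by
    rw [map_div₀, map_one]
    exact (div_lt_one₀ (lt_trans zero_lt_one hx)).2 hx
  obtain ⟨j, hj1, hj2⟩ := half v (hv _ hinv)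
  -- the factor
  obtain ⟨κ, hκ⟩ : ∃ κ : F, κ = a * j ^ 2 + 2 * b * j ^ 3 := ⟨_, rfl⟩
  let j' : v.integer := ⟨j, hj1⟩
  let κ' : v.integer := (a : v.integer) * j' ^ 2 + 2 * (b : v.integer) * j' ^ 3
  have hκ1 : v κ ≤ 1 := by rw [hκ]; exact κ'.2
  have hu : v (1 + 4 * κ) = 1 := by
    have h4 : v (4 * κ) < 1 := by
      have e : (4 : F) * κ = 2 * (2 * κ) := by ring
      rw [e, map_mul]
      refine mul_lt_one_of_nonneg_of_lt_one_left zero_le' hv2 ?_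
      rw [map_mul]
      exact mul_le_one' hv2.le hκ1
    exact Valuation.map_one_add_of_lt v h4
  have hu0 : 1 + 4 * κ ≠ 0 := by
    intro h0
    rw [h0, map_zero] at hu
    exact zero_ne_one hu
  obtain ⟨E, hE⟩ : ∃ E : F, E = 1 / (1 + 4 * κ) := ⟨_, rfl⟩
  have hE1 : v E ≤ 1 := by rw [hE, map_div₀, map_one, hu, div_one]
  have hEκ : E * (1 + 4 * κ) = 1 := by rw [hE]; field_simp
  obtain ⟨δ, hδ⟩ : ∃ δ : F, δ = -κ * E := ⟨_, rfl⟩
  have hEδ : E = 1 + 4 * δ := by rw [hδ]; linear_combination hEκ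
  have hxj : x * (2 * j) = 1 := by
    rw [← hj2, mul_one_div, div_self hx0]
  have hf : x ^ 3 + a * x + b = x ^ 3 * (1 + 4 * κ) := by
    rw [hκ]
    have h1 : (x * (2 * j)) ^ 2 = 1 := by rw [hxj, one_pow]
    have h2 : (x * (2 * j)) ^ 3 = 1 := by rw [hxj, one_pow]
    linear_combination (-(a * x)) * h1 - b * h2
  -- the multiplier
  obtain ⟨m, hm⟩ : ∃ m : F, m = x / (d * y) := ⟨_, rfl⟩
  have hm2x : m ^ 2 * d * x = E := by
    have h1 : m ^ 2 * d * x * (d * y ^ 2) = x ^ 3 := by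
      rw [hm]
      field_simp
    rw [hxy, hf] at h1
    have h2 : x ^ 3 * (m ^ 2 * d * x * (1 + 4 * κ) - 1) = 0 := by linear_combination h1
    rcases mul_eq_zero.1 h2 with h3 | h3
    · exact absurd h3 (pow_ne_zero _ hx0)
    · have h4 : (1 + 4 * κ) * (m ^ 2 * d * x - E) = 0 := by linear_combination h3 - hEκ
      rcases mul_eq_zero.1 h4 with h5 | h5
      · exact absurd h5 hu0
      · linear_combination h5
  have hm2 : m ^ 2 * d = E * (2 * j) := by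
    have h1 : m ^ 2 * d = (m ^ 2 * d * x) * (2 * j) := by linear_combination (-(m ^ 2 * d)) * hxj
    rw [h1, hm2x]
  let r' : v.integer := ⟨r, hr⟩
  let s' : v.integer := ⟨s, hs⟩
  let t' : v.integer := ⟨t, ht⟩
  let E' : v.integer := ⟨E, hE1⟩
  let δ' : v.integer := -κ' * E'
  have hδ1 : v δ ≤ 1 := by
    rw [hδ, hκ]
    exact δ'.2
  let d' : v.integer := ⟨δ, hδ1⟩
  let R : v.integer := r' + d' * (1 + 4 * r') + j' * E' * ((g₂ : v.integer) + 2 * t') *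
    (b : v.integer)
  let S : v.integer := s' + d' * (2 * (g₁ : v.integer) + 4 * s') - 2 * j' * (d' + r' + 4 * d' * r') +
    j' * E' * ((g₂ : v.integer) + 2 * t') * (a : v.integer)
  let T : v.integer := t' + d' * (2 * (g₂ : v.integer) + 4 * t') - j' * E' *
    ((g₁ : v.integer) + 2 * s')
  have hR : (R : F) = r + δ * (1 + 4 * r) + j * E * (g₂ + 2 * t) * b := rfl
  have hS : (S : F) = s + δ * (2 * g₁ + 4 * s) - 2 * j * (δ + r + 4 * δ * r) +
    j * E * (g₂ + 2 * t) * a := rfl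
  have hT : (T : F) = t + δ * (2 * g₂ + 4 * t) - j * E * (g₁ + 2 * s) := rfl
  have E0 : (1 : F) + 4 * R = (t0 * m) ^ 2 - 2 * (t1 * m) * (t2 * m) * b := by
    rw [hR]
    linear_combination m ^ 2 * e0 - (1 + 4 * r) * hm2x - (2 * g₂ + 4 * t) * b * hm2
      - (1 + 4 * r) * hEδ
  have E1 : 2 * ((g₁ : F) - j) + 4 * S = 2 * (t0 * m) * (t1 * m) - 2 * (t1 * m) * (t2 * m) * a -
      (t2 * m) ^ 2 * b := by
    rw [hS]
    linear_combination m ^ 2 * e1 - (2 * g₁ + 4 * s) * hm2x + (1 + 4 * r) * hm2 -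
      (2 * g₂ + 4 * t) * a * hm2 - (2 * g₁ + 4 * s) * hEδ + 2 * j * (1 + 4 * r) * hEδ
  have E2 : 2 * (g₂ : F) + 4 * T = (t1 * m) ^ 2 + 2 * (t0 * m) * (t2 * m) - (t2 * m) ^ 2 * a := by
    rw [hT]
    linear_combination m ^ 2 * e2 - (2 * g₂ + 4 * t) * hm2x + (2 * g₁ + 4 * s) * hm2
      - (2 * g₂ + 4 * t) * hEδ
  obtain ⟨k0, k1, k2⟩ := integral v hv2 hb E0 E1 E2 (1 + 4 * R : v.integer).2
    (2 * ((g₁ : v.integer) - j') + 4 * S : v.integer).2
    (2 * (g₂ : v.integer) + 4 * T : v.integer).2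
  obtain ⟨-, q⟩ := ringA' (O := v.integer) (int_h2 v hv2 hv) (int_h0 v) a b hb
    ((g₁ : v.integer) - j') (g₂ : v.integer) R S T
    ⟨t0 * m, k0⟩ ⟨t1 * m, k1⟩ ⟨t2 * m, k2⟩ (Subtype.ext E0) (Subtype.ext E1) (Subtype.ext E2)
  exact even_of_dvd (int_h1 v hv2) q

end Val

/-- The classes of the points of the twist modulo `4`, `a` and `b` equal to `3` modulo `4`. -/
theorem cald (F Γ : Type) [Field F] [CharZero F] [LinearOrderedCommGroupWithZero Γ]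
    (v : Valuation F Γ) (hv2 : v 2 < 1) (hv : ∀ x : F, v x < 1 → v x ≤ v 2) {a b d : ℤ}
    (ha : a % 4 = 3) (hb : b % 4 = 3) (hd : d % 4 = 1 ∨ d % 4 = 2) (g₁ g₂ : ℤ) (r s t : F)
    (hr : v r ≤ 1) (hs : v s ≤ 1) (ht : v t ≤ 1) (hPL : PLt F a b d (pol F g₁ g₂ r s t)) :
    (Even g₁ ∧ Even g₂) ∨ ((4 : ℤ) ∣ 2 * g₁ - (1 - a) ∧ (4 : ℤ) ∣ 2 * g₂ - (3 - a)) := by
  have hao : Odd a := by
    rw [Int.odd_iff]
    omega
  have hbo : Odd b := by
    rw [Int.odd_iff]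
    omega
  have hab : (4 : ℤ) ∣ a - b := by omega
  have hd0 : d ≠ 0 := by
    rintro rfl
    omega
  rcases hPL with ⟨g, hg⟩ | ⟨x, y, hy, hxy, g, hg⟩
  · left
    obtain ⟨t0, t1, t2, e0, e1, e2⟩ := sq_form (a := a) (b := b) (1 + 4 * r) (2 * g₁ + 4 * s)
      (2 * g₂ + 4 * t) g (by
        convert hg using 1
        unfold pol
        simp only [map_add, map_mul, map_ofNat, map_one]
        ring)
    exact caseA v hv2 hv hbo g₁ g₂ hr hs ht e0 e1 e2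
  · obtain ⟨t0, t1, t2, e0, e1, e2⟩ := sq_form (a := a) (b := b)
      (d * (x * (1 + 4 * r) + (2 * g₂ + 4 * t) * b))
      (d * (x * (2 * g₁ + 4 * s) - (1 + 4 * r) + (2 * g₂ + 4 * t) * a))
      (d * (x * (2 * g₂ + 4 * t) - (2 * g₁ + 4 * s))) g (by
        have h1 : ff F a b ∣ ff F a b * C (d * (2 * g₂ + 4 * t)) := dvd_mul_right _ _
        have h2 := dvd_add hg h1
        convert h2 using 1
        unfold pol ff
        simp only [map_add, map_sub, map_mul, map_ofNat, map_one]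
        ring)
    by_cases hx : v x ≤ 1
    · rcases hd with hd | hd
      · obtain ⟨k, rfl⟩ : ∃ k, d = 1 + 4 * k := ⟨(d - 1) / 4, by omega⟩
        push_cast at e0 e1 e2
        let r' : v.integer := ⟨r, hr⟩
        let s' : v.integer := ⟨s, hs⟩
        let t' : v.integer := ⟨t, ht⟩
        refine caseB v hv2 hv hao hab g₁ g₂ (r := (k : F) + (1 + 4 * k) * r)
          (s := 2 * k * g₁ + (1 + 4 * k) * s) (t := 2 * k * g₂ + (1 + 4 * k) * t)
          (t0 := t0) (t1 := t1) (t2 := t2)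
          (((k : v.integer) + (1 + 4 * (k : v.integer)) * r' : v.integer)).2
          ((2 * (k : v.integer) * (g₁ : v.integer) + (1 + 4 * (k : v.integer)) * s' :
            v.integer)).2
          ((2 * (k : v.integer) * (g₂ : v.integer) + (1 + 4 * (k : v.integer)) * t' :
            v.integer)).2 hx ?_ ?_ ?_
        · linear_combination e0
        · linear_combination e1
        · linear_combination e2
      · exfalso
        obtain ⟨k, rfl⟩ : ∃ k, d = 2 * (2 * k + 1) := ⟨(d - 2) / 4, by omega⟩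
        have hc : ((2 * (2 * k + 1) : ℤ) : F) = 2 * ((2 * k + 1 : ℤ) : F) := by push_cast; ring
        rw [hc] at e0 e1 e2
        exact caseD v hv2 hv (a := a) (b := b) (d := 2 * k + 1) hbo ⟨k, rfl⟩ g₁ g₂ hr hs ht hx e0
          e1 e2
    · rw [not_le] at hx
      have h2 := caseE v hv2 hv (a := a) hbo hd0 g₁ g₂ hr hs ht hx hy hxy e0 e1 e2
      rcases Int.even_or_odd g₁ with h1 | h1
      · exact Or.inl ⟨h1, h2⟩
      · right
        obtain ⟨i, rfl⟩ := h1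
        obtain ⟨l, rfl⟩ := h2
        constructor <;> omega

end Pool.Agent.H30EV
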