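import Pool.Agent.H30EV.Ram

/-!
# The compositum with a Galois extension
-/

set_option autoImplicit false
set_option linter.all false

open Polynomial IsDedekindDomain NumberField Module
open scoped Classical IntermediateField Pointwise

namespace Pool.Agent.H30EV

open Pool.Agent.N922.PQ
open Pool.Agent.N692.PMTOW

variable {L M Ω : Type} [Field L] [NumberField L] [Field M] [NumberField M]
  [Field Ω] [NumberField Ω] [Algebra L Ω] [Algebra M Ω] [IsGalois ℚ M]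

theorem isGal (htop : im ℚ M Ω ⊔ im ℚ L Ω = ⊤) : IsGalois L Ω := by
  haveI : FiniteDimensional L Ω := Module.Finite.of_restrictScalars_finite ℚ L Ω
  haveI : Normal L Ω := normal_of_top htop
  haveI : Algebra.IsSeparable L Ω := inferInstance
  exact {}

/-- Restriction to `M`. -/
theorem restr (htop : im ℚ M Ω ⊔ im ℚ L Ω = ⊤) (σ : Ω ≃ₐ[L] Ω) :
    ∃ τ : M ≃ₐ[ℚ] M, (∀ x : M, algebraMap M Ω (τ x) = σ (algebraMap M Ω x)) ∧
      (τ = 1 → σ = 1) := by
  have hcomm : ∀ x : M, algebraMap M Ω (((σ.restrictScalars ℚ).restrictNormal M) x) =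
      σ (algebraMap M Ω x) := fun x => AlgEquiv.restrictNormal_commutes (σ.restrictScalars ℚ) M x
  refine ⟨(σ.restrictScalars ℚ).restrictNormal M, hcomm, fun h => ?_⟩
  apply AlgEquiv.ext
  intro x
  refine IntermediateField.adjoin_induction L (p := fun x _ => σ x = (1 : Ω ≃ₐ[L] Ω) x) ?_ ?_ ?_
    ?_ ?_ (adj_top (K := ℚ) (L := L) (M := M) htop x)
  · rintro _ ⟨m, rfl⟩
    rw [← hcomm, h]
    rfl
  · intro y
    rw [AlgEquiv.commutes, AlgEquiv.commutes]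
  · intro y z _ _ hy hz
    rw [map_add, map_add, hy, hz]
  · intro y _ hy
    rw [map_inv₀, map_inv₀, hy]
  · intro y z _ _ hy hz
    rw [map_mul, map_mul, hy, hz]

/-- the prime of `M` below -/
theorem ov_under {K : Type} [Field K] [NumberField K] [Algebra K Ω] (P : ℤ)
    (𝔓 : HeightOneSpectrum (𝓞 Ω)) : Ov P (𝔓.under (𝓞 K)) ↔ Ov P 𝔓 := by
  unfold Ov
  rw [HeightOneSpectrum.under_asIdeal, Ideal.under_def, Ideal.mem_comap, map_intCast]

variable {P : ℤ}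

theorem unr_top (hP : IsPr P) (htop : im ℚ M Ω ⊔ im ℚ L Ω = ⊤) (hu : Unr M P)
    (𝔓 : HeightOneSpectrum (𝓞 Ω)) (h : Ov P 𝔓) (x : L) :
    𝔓.valuation Ω (algebraMap L Ω x) = (𝔓.under (𝓞 L)).valuation L x := by
  haveI := isGal htop
  refine val_of_inertia 𝔓 (fun σ hσ => ?_) x
  obtain ⟨τ, h1, h2⟩ := restr htop σ
  apply h2
  refine inertia_triv hP (𝔓.under (𝓞 M)) ((ov_under P 𝔓).2 h) hu τ fun y => ?_
  rw [HeightOneSpectrum.under_asIdeal, Ideal.under_def, Ideal.mem_comap]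
  have e : algebraMap (𝓞 M) (𝓞 Ω) (τ • y - y) = σ • (algebraMap (𝓞 M) (𝓞 Ω) y) -
      algebraMap (𝓞 M) (𝓞 Ω) y := by
    rw [map_sub]
    congr 1
    apply RingOfIntegers.ext
    exact h1 (y : M)
  rw [e]
  exact hσ _

theorem dens_top (hP : IsPr P) (htop : im ℚ M Ω ⊔ im ℚ L Ω = ⊤) (hu : Unr M P) (hr : Res M P)
    (𝔓 : HeightOneSpectrum (𝓞 Ω)) (h : Ov P 𝔓) (s : Ω) (hs : s ≠ 0) :
    ∃ s₀ : L, 𝔓.valuation Ω (s - algebraMap L Ω s₀) < 𝔓.valuation Ω s := by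
  haveI := isGal htop
  refine dens_of_stab 𝔓 (fun σ hσ => ?_) s hs
  obtain ⟨τ, h1, h2⟩ := restr htop σ
  apply h2
  refine stab_triv hP (𝔓.under (𝓞 M)) ((ov_under P 𝔓).2 h) hu hr τ fun y hy => ?_
  rw [HeightOneSpectrum.under_asIdeal, Ideal.under_def, Ideal.mem_comap] at hy ⊢
  have e : algebraMap (𝓞 M) (𝓞 Ω) (τ • y) = σ • (algebraMap (𝓞 M) (𝓞 Ω) y) := by
    apply RingOfIntegers.ext
    exact h1 (y : M)
  rw [e]
  exact hσ _ hy

/-- a prime over a given prime -/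
theorem exists_above (𝔭 : HeightOneSpectrum (𝓞 L)) :
    ∃ 𝔓 : HeightOneSpectrum (𝓞 Ω), 𝔓.under (𝓞 L) = 𝔭 := by
  haveI := 𝔭.isMaximal
  have hker : RingHom.ker (algebraMap (𝓞 L) (𝓞 Ω)) ≤ 𝔭.asIdeal := by
    rw [(RingHom.injective_iff_ker_eq_bot _).1 (FaithfulSMul.algebraMap_injective (𝓞 L) (𝓞 Ω))]
    exact bot_le
  obtain ⟨Q, hQ, hQ'⟩ := Ideal.exists_ideal_over_maximal_of_isIntegral (S := 𝓞 Ω) 𝔭.asIdeal hker
  refine ⟨⟨Q, hQ.isPrime, ?_⟩, ?_⟩
  · rintro rfl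
    apply 𝔭.ne_bot
    rw [← hQ', eq_bot_iff]
    intro y hy
    rw [Ideal.mem_comap, Ideal.mem_bot] at hy
    rw [Ideal.mem_bot]
    exact (map_eq_zero_iff _ (FaithfulSMul.algebraMap_injective (𝓞 L) (𝓞 Ω))).1 hy
  · apply HeightOneSpectrum.ext
    exact hQ'

/-- the density of the rational numbers -/
theorem dens_rat (hP : IsPr P) (hu : Unr M P) (hr : Res M P)
    (w : HeightOneSpectrum (𝓞 M)) (h : Ov P w) (z : M) (hz : w.valuation M z ≤ 1) :
    ∃ n : ℤ, w.valuation M (z - (n : M)) < 1 := by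
  have hPp : w.asIdeal.IsPrime := w.isPrime
  have hl : w.asIdeal.LiesOver (Ideal.span {P}) := liesOver_of hP h
  have hpmax : (Ideal.span {P}).IsMaximal :=
    PrincipalIdealRing.isMaximal_of_irreducible hP.2.irreducible
  have h0 : Ideal.span {P} ≠ ⊥ := by
    rw [Ne, Ideal.span_singleton_eq_bot]
    exact hP.2.ne_zero
  have hfin : Finite (ℤ ⧸ Ideal.span {P}) := Ring.HasFiniteQuotients.finiteQuotient h0
  have hfin2 : Finite (𝓞 M ⧸ w.asIdeal) := Ring.HasFiniteQuotients.finiteQuotient w.ne_bot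
  have hsurj : Function.Surjective (algebraMap (ℤ ⧸ Ideal.span {P}) (𝓞 M ⧸ w.asIdeal)) := by
    have : Fintype (ℤ ⧸ Ideal.span {P}) := Fintype.ofFinite _
    have : Fintype (𝓞 M ⧸ w.asIdeal) := Fintype.ofFinite _
    let _ : Field (ℤ ⧸ Ideal.span {P}) := Ideal.Quotient.field _
    have hinj : Function.Injective (algebraMap (ℤ ⧸ Ideal.span {P}) (𝓞 M ⧸ w.asIdeal)) :=
      RingHom.injective _
    refine ((Fintype.bijective_iff_injective_and_card _).2 ⟨hinj, ?_⟩).2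
    have h5 : Nat.card (𝓞 M ⧸ w.asIdeal) = P.natAbs := hr w h
    have h6 : Nat.card (ℤ ⧸ Ideal.span {P}) = P.natAbs := by
      rw [Nat.card_congr (Int.quotientSpanEquivZMod P).toEquiv, Nat.card_zmod]
    rw [← Nat.card_eq_fintype_card, ← Nat.card_eq_fintype_card, h5, h6]
  obtain ⟨z', hz'⟩ := HeightOneSpectrum.exists_valuation_sub_lt_of_integer w hz 1
  obtain ⟨y, hy⟩ := hsurj (Ideal.Quotient.mk w.asIdeal z')
  obtain ⟨n, rfl⟩ := Ideal.Quotient.mk_surjective y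
  have hz₀ : algebraMap ℤ (𝓞 M) n - z' ∈ w.asIdeal := by
    rw [← Ideal.Quotient.eq]
    exact hy
  refine ⟨n, ?_⟩
  have e : z - (n : M) = (z - algebraMap (𝓞 M) M z') -
      algebraMap (𝓞 M) M (algebraMap ℤ (𝓞 M) n - z') := by
    rw [map_sub]
    simp
  rw [e]
  refine lt_of_le_of_lt (Valuation.map_sub _ _ _) (max_lt ?_ ?_)
  · rw [Valuation.map_sub_swap]
    simpa using hz'
  · exact (w.valuation_lt_one_iff_mem _).2 hz₀

end Pool.Agent.H30EV
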