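import Pool.Agent.H30EV.Sel
import Pool.Agent.H30EV.Fam3
import Pool.Agent.N922.PQ.Final2

/-!
# The curves with trivial 2-Selmer groups for all admissible twists over all admissible extensions
-/

set_option autoImplicit false
set_option linter.all false

open Polynomial IsDedekindDomain WeierstrassCurve WeierstrassCurve.Affine NumberField
open Pool.Agent.TH115.GD
open scoped Classical IntermediateField

namespace Pool.Agent.H30EV

open Pool.Agent.N922.PQ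
open Pool.Agent.N692.PMTOW
open Pool.Agent.N874.PP (Tup chA chB gq tau Two Ev Sq1 U0 sW IsBeta Rt)
open Pool.Agent.N874.PM (PLoc Lies SelR ShaR)

/-- The field `M` is admissible for the curve `y ^ 2 = x ^ 3 + A x + B`. -/
structure Adm (M : Type) [Field M] [NumberField M] (A B : ℤ) : Prop where
  two : Unr M 2
  ur : ∀ P : ℤ, IsPr P → P ∉ irr A B → Unr M P
  sp : ∀ P : ℤ, IsPr P → P ∣ A → P ∣ B → Res M P

/-- The integer `d` is admissible for the curve `y ^ 2 = x ^ 3 + A x + B`. -/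
structure Tw (A B d : ℤ) : Prop where
  two : d % 4 = 1 ∨ d % 4 = 2
  ir : ∀ P : ℤ, IsPr P → P ∣ d → P ∈ irr A B

/-- The 2-Selmer groups of all admissible twists over all admissible fields are zero. -/
structure GSel (A B : ℤ) : Prop where
  a4 : A % 4 = 3
  b4 : B % 4 = 3
  sel : ∀ (M : Type) [Field M] [NumberField M] [IsGalois ℚ M] (n : ℕ),
    Module.finrank ℚ M = 2 ^ n → Adm M A B → ∀ d : ℤ, Tw A B d →
    SelR (𝓞 M) (sW (((A * d ^ 2 : ℤ)) : M) (((B * d ^ 3 : ℤ)) : M))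

theorem irr_mul {a b D : ℤ} (hD : ∀ P : ℤ, IsPr P → P ∣ D → P ∣ b) :
    irr (a * D ^ 2) (b * D ^ 3) = irr a b := by
  ext P
  constructor
  · rintro ⟨hP, h⟩
    refine ⟨hP, fun z hz => h (D * z) ?_⟩
    have e : (D * z) ^ 3 + a * D ^ 2 * (D * z) + b * D ^ 3 = D ^ 3 * (z ^ 3 + a * z + b) := by ring
    rw [e]
    exact hz.mul_left _
  · rintro ⟨hP, h⟩
    refine ⟨hP, fun z hz => ?_⟩
    by_cases hPD : P ∣ D
    · exact h 0 (by simpa using hD P hP hPD)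
    · obtain ⟨u, v, huv⟩ := (hP.2.irreducible.coprime_iff_not_dvd).2 hPD
      -- `v D = 1 - u P`
      apply h (v * z)
      have e : (v * z) ^ 3 + a * (v * z) + b = v ^ 3 * (z ^ 3 + a * D ^ 2 * z + b * D ^ 3) +
          (a * v * z * (1 + v * D) + b * (1 + v * D + v ^ 2 * D ^ 2)) * (1 - v * D) := by ring
      have e2 : 1 - v * D = u * P := by linear_combination -huv
      rw [e, e2]
      exact dvd_add (hz.mul_left _) ((Dvd.intro_left u rfl).mul_left _)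

theorem coprime_ab {a b : ℤ} (h : Squarefree (dsc a b)) {P : ℤ} (hP : IsPr P) (ha : P ∣ a)
    (hb : P ∣ b) : False := by
  obtain ⟨u, rfl⟩ := ha
  obtain ⟨v, rfl⟩ := hb
  refine hP.2.not_unit (h P ⟨4 * P * u ^ 3 + 27 * v ^ 2, ?_⟩)
  unfold dsc
  ring

theorem prime_prod {J : Finset ℤ} (hJ : ∀ Q ∈ J, IsPr Q) {P : ℤ} (hP : IsPr P)
    (h : P ∣ ∏ Q ∈ J, Q) : P ∈ J := by
  obtain ⟨Q, hQ, hPQ⟩ := (hP.2.dvd_finsetProd_iff _).1 h
  have h1 : Associated P Q := hP.2.irreducible.associated_of_dvd (hJ Q hQ).2.irreducible hPQ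
  have h2 := Int.eq_of_associated_of_nonneg h1 hP.1.le (hJ Q hQ).1.le
  rw [h2]
  exact hQ

/-- The theorem on the Selmer groups. -/
theorem selE (H : Parts2) {κ : ℕ} (hLB : LBk κ) {a b : ℤ} {X' : ℕ}
    {S T : Finset ℤ} {s A B : ℤ → ℤ} (hS : GoodS S s)
    (hF : Fam X' S s T A B a b) (ha4 : a % 4 = 3) (hb4 : b % 4 = 3)
    (hnb : ¬ LBad κ X' S s a b) (hT : GoodT T A B) :
    ∃ J ⊆ S, GSel (a * (∏ Q ∈ J, Q) ^ 2) (b * (∏ Q ∈ J, Q) ^ 3) := by
  have hnt2 : ∀ z : ℤ, ¬ (2 : ℤ) ∣ z ^ 3 + a * z + b := fam_nt hT hF hT.1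
  obtain ⟨ha, hb⟩ := odd_of hnt2
  -- the cubic field
  have hirr : Irreducible (ff ℚ a b) := by
    have hone : (X ^ 3 + C ((((a * 1 ^ 2 : ℤ)) : ℚ)) * X +
      C ((((b * 1 ^ 3 : ℤ)) : ℚ)) : ℚ[X]) = ff ℚ a b := by
      rw [one_pow, one_pow, mul_one, mul_one]
      rfl
    rw [← hone]
    exact irr_tw (algebraMap ℚ ℚ_[2]) hnt2 one_ne_zero
  obtain ⟨L, iF, iN, θ, hc, hu⟩ := exists_cub hirr
  obtain ⟨J, hJ, hsel⟩ := core2 (L := L) (𝓞 L) H.p.cls H.p.exq H.p.ns H.p.lin H.p.recp H.p.plm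
    H.p.sd H.p.ttv hLB hc hS hT hF hnb
  have hJp : ∀ Q ∈ J, IsPr Q := fun Q hQ => (hS Q (hJ hQ)).1
  have hD8 : (∏ Q ∈ J, Q) % 8 = 1 := prod_mod8 fun Q hQ => (hS Q (hJ hQ)).2.1
  have hirr2 : irr (a * (∏ Q ∈ J, Q) ^ 2) (b * (∏ Q ∈ J, Q) ^ 3) = irr a b :=
    irr_mul fun P hP hPD => hF.rb P (hJ (prime_prod hJp hP hPD))
  obtain ⟨m, hm⟩ : ∃ m : ℤ, (∏ Q ∈ J, Q) = 4 * m + 1 := ⟨(∏ Q ∈ J, Q) / 4, by omega⟩
  refine ⟨J, hJ, ?_, ?_, ?_⟩
  · have e : a * (∏ Q ∈ J, Q) ^ 2 = a + 4 * (a * (4 * m ^ 2 + 2 * m)) := by rw [hm]; ring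
    rw [e]
    omega
  · have e : b * (∏ Q ∈ J, Q) ^ 3 = b + 4 * (b * (16 * m ^ 3 + 12 * m ^ 2 + 3 * m)) := by
      rw [hm]; ring
    rw [e]
    omega
  intro M _ _ _ n hM hadm d hd
  have hrJ : ∀ Q ∈ J, Res M Q := fun Q hQ => by
    have h1 : Q ∣ ∏ Q ∈ J, Q := Finset.dvd_prod_of_mem (fun Q : ℤ => Q) hQ
    exact hadm.sp Q (hJp Q hQ) ((dvd_pow h1 two_ne_zero).mul_left _)
      ((dvd_pow h1 three_ne_zero).mul_left _)
  have hur := hadm.ur
  have hdi := hd.ir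
  rw [hirr2] at hur hdi
  obtain ⟨w₀, hw₀⟩ := exists_over (𝓞 M)
  have hnr := H.nr M (𝓞 M) n hM w₀ hw₀ a b ha hb
  have hnrM : ∀ t : M, t ^ 3 + (a : M) * t + (b : M) ≠ 0 := by
    intro t ht
    apply hnr (algebraMap M _ t)
    have h1 := congrArg (algebraMap M (w₀.adicCompletion M)) ht
    rw [map_zero, map_add, map_add, map_mul, map_pow, map_intCast, map_intCast] at h1
    exact h1
  have hirrM : Irreducible (ff M a b) := irr_tw' hnrM
  obtain ⟨Ω, iF', iA', t, ht, hr, htop, hfin⟩ := exists_field hirrM (ff_monic M a b) (ff_deg M a b)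
  haveI : CharZero Ω := charZero_of_injective_algebraMap (algebraMap M Ω).injective
  haveI : FiniteDimensional ℚ Ω := FiniteDimensional.trans ℚ M Ω
  haveI : NumberField Ω := ⟨⟩
  have ht' : t ^ 3 + (a : Ω) * t + (b : Ω) = 0 := by
    simp only [ff, map_add, map_mul, map_pow, aeval_X, aeval_C, map_intCast] at ht
    exact ht
  obtain ⟨φ, hφ⟩ := hu Ω t ht'
  letI : Algebra L Ω := φ.toAlgebra
  have hroot : algebraMap L Ω θ = t := hφ
  have htop' : M⟮algebraMap L Ω θ⟯ = ⊤ := by rw [hroot]; exact htop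
  have h1 := selE_abs (Ω := Ω) H hc hS hF hT hJ hsel hM hr htop' ha4 hb4 hd.two hadm.two hur hrJ hdi
  have e1 : a * (∏ Q ∈ J, Q) ^ 2 * d ^ 2 = a * (d * ∏ Q ∈ J, Q) ^ 2 := by ring
  have e2 : b * (∏ Q ∈ J, Q) ^ 3 * d ^ 3 = b * (d * ∏ Q ∈ J, Q) ^ 3 := by ring
  rw [e1, e2]
  exact h1

/-! ### The given field is admissible -/

section gen

variable {M : Type} [Field M] [NumberField M] {γ : M} {g : ℤ[X]} {δ : ℤ}

theorem not_ov_of {P : ℤ} (hP : IsPr P) (hPδ : ¬ P ∣ δ) {w : HeightOneSpectrum (𝓞 M)}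
    (hw : Ov P w) : ¬ Ov δ w := fun h =>
  one_mem_of ((hP.2.irreducible.coprime_iff_not_dvd).2 hPδ) hw h

theorem unr_of_gen (hG : Gen ℚ γ g δ) {P : ℤ} (hP : IsPr P) (hPδ : ¬ P ∣ δ) : Unr M P := by
  intro w hw
  obtain ⟨v, hv⟩ := (parts2.p.ur ℚ M ℤ (𝓞 M) γ g δ hG).1 w (not_ov_of hP hPδ hw)
  have hvP : w.valuation M (P : M) = v.valuation ℚ (P : ℚ) := by
    rw [← hv, map_intCast (algebraMap ℚ M)]
  refine le_antisymm (val_le_exp w ?_ ((ov_val P w).1 hw)) ?_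
  · exact_mod_cast hP.2.ne_zero
  · rw [hvP]
    exact val_sqfree hP.2.irreducible.squarefree v

theorem res_of_gen (hG : Gen ℚ γ g δ) {P : ℤ} (hP : IsPr P) (hPδ : ¬ P ∣ δ)
    (hsp : SplitMod P g) : Res M P := by
  intro w hw
  have hδw := not_ov_of hP hPδ hw
  obtain ⟨v, hv⟩ := (parts2.p.ur ℚ M ℤ (𝓞 M) γ g δ hG).1 w hδw
  have hl : w.asIdeal.LiesOver (Ideal.span {P}) := liesOver_of hP hw
  have hsurj : Function.Surjective (algebraMap ℤ (𝓞 M ⧸ w.asIdeal)) := by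
    intro y
    obtain ⟨z, rfl⟩ := Ideal.Quotient.mk_surjective y
    have hz : w.valuation M (z : M) ≤ 1 := w.valuation_le_one z
    obtain ⟨z₀, hz₀⟩ : ∃ z₀ : ℚ, w.valuation M ((z : M) - algebraMap ℚ M z₀) < 1 := by
      by_cases h0 : (z : M) = 0
      · exact ⟨0, by rw [h0, map_zero, sub_zero, map_zero]; exact zero_lt_one⟩
      · obtain ⟨z₀, h⟩ := parts2.p.spd ℚ M (𝓞 M) γ g δ hG P hP.2 hsp w hw hδw (z : M) h0
        exact ⟨z₀, lt_of_lt_of_le h hz⟩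
    have hz0 : v.valuation ℚ z₀ ≤ 1 := by
      rw [← hv]
      have e : algebraMap ℚ M z₀ = z - (z - algebraMap ℚ M z₀) := by ring
      rw [e]
      exact (Valuation.map_sub _ _ _).trans (max_le hz hz₀.le)
    obtain ⟨z₁, hz₁⟩ := poly_approx v hz0
    have h2 : w.valuation M ((z : M) - (z₁ : M)) < 1 := by
      have e : (z : M) - (z₁ : M) = (z - algebraMap ℚ M z₀) +
          algebraMap ℚ M (z₀ - algebraMap ℤ ℚ z₁) := by
        rw [map_sub]
        simp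
      rw [e]
      refine lt_of_le_of_lt (Valuation.map_add _ _ _) (max_lt hz₀ ?_)
      rw [hv]
      exact hz₁
    refine ⟨z₁, ?_⟩
    have h3 : algebraMap (𝓞 M) M (z - (z₁ : 𝓞 M)) = (z : M) - (z₁ : M) := by
      rw [map_sub, map_intCast]
    have h4 : z - (z₁ : 𝓞 M) ∈ w.asIdeal := by
      rw [← w.valuation_lt_one_iff_mem (K := M)]
      exact lt_of_eq_of_lt (congrArg (w.valuation M) h3) h2
    have h5 : Ideal.Quotient.mk w.asIdeal z = Ideal.Quotient.mk w.asIdeal (z₁ : 𝓞 M) :=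
      Ideal.Quotient.eq.2 h4
    rw [h5]
    simp
  have hker : RingHom.ker (algebraMap ℤ (𝓞 M ⧸ w.asIdeal)) = Ideal.span {P} := by
    rw [hl.over]
    ext x
    rw [RingHom.mem_ker, Ideal.under_def, Ideal.mem_comap]
    have e : algebraMap ℤ (𝓞 M ⧸ w.asIdeal) x =
      Ideal.Quotient.mk w.asIdeal (algebraMap ℤ (𝓞 M) x) := rfl
    rw [e, Ideal.Quotient.eq_zero_iff_mem]
  have h1 := Nat.card_congr (RingHom.quotientKerEquivOfSurjective hsurj).toEquiv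
  rw [← h1, hker, Nat.card_congr (Int.quotientSpanEquivZMod P).toEquiv, Nat.card_zmod]

end gen

end Pool.Agent.H30EV
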