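import Pool.Agent.H30EV.Main

/-!
# Points over the extensions by a square root
-/

set_option autoImplicit false
set_option linter.all false

open NumberField IsDedekindDomain WeierstrassCurve Filter
open scoped Classical IntermediateField

namespace Pool.Agent.H30EV

theorem nopt_curve {K : Type} [Field K] [CharZero K] {q : ℤ × ℤ}
    (hd : 4 * (q.1 : K) ^ 3 + 27 * (q.2 : K) ^ 2 ≠ 0) :
    Subsingleton (curve K q).toAffine.Point ↔
      ∀ x y : K, y ^ 2 ≠ x ^ 3 + (q.1 : K) * x + (q.2 : K) :=
  nopt_iff (W := curve K q) hd rfl rfl rfl rfl rfl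

/-- `E(F) = 0` for `F = K(s)`, `s ^ 2 = d`, if `E` and its twist by `d` have no points over `K`. -/
theorem points_adjoin {q : ℤ × ℤ} (hq : 4 * q.1 ^ 3 + 27 * q.2 ^ 2 ≠ 0) {F : Type} [Field F]
    [NumberField F] (K : IntermediateField ℚ F) {d : ℤ} (hd0 : d ≠ 0) {s : F}
    (hs : s ^ 2 = (d : F)) (htop : IntermediateField.adjoin K {s} = ⊤)
    (h1 : Subsingleton (curve K (twist q 1)).toAffine.Point)
    (h2 : Subsingleton (curve K (twist q d)).toAffine.Point) :
    Subsingleton (curve F q).toAffine.Point := by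
  have hdF : 4 * (q.1 : F) ^ 3 + 27 * (q.2 : F) ^ 2 ≠ 0 := by exact_mod_cast hq
  have hdK : 4 * (q.1 : K) ^ 3 + 27 * (q.2 : K) ^ 2 ≠ 0 := by exact_mod_cast hq
  have h1' := (nopt_curve (K := K) (q := twist q 1) (by
    have := disc_ne (K := K) (d := 1) one_ne_zero hq
    exact this)).1 h1
  have h2' := (nopt_curve (K := K) (q := twist q d) (by
    have := disc_ne (K := K) (d := d) hd0 hq
    exact this)).1 h2
  rw [nopt_curve hdF]
  have key := quad_nopt (M := K) (F := F) s (d : K) (by exact_mod_cast hd0)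
    (by rw [hs]; exact (map_intCast (algebraMap K F) d).symm) htop (A := (q.1 : K)) (B := (q.2 : K))
    hdK ?_ ?_
  · intro x y
    have := key x y
    rw [map_intCast, map_intCast] at this
    exact this
  · intro x y h
    apply h1' x y
    rw [h]
    simp [twist]
  · intro x y h
    apply h2' x y
    rw [h]
    simp [twist]

end Pool.Agent.H30EV
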