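import Pool.Agent.H30EV.Top

/-!
# The 2-Selmer groups of the admissible twists over the admissible extensions
-/

set_option autoImplicit false
set_option linter.all false

open Polynomial IsDedekindDomain WeierstrassCurve WeierstrassCurve.Affine NumberField
open Pool.Agent.TH115.GD
open scoped Classical IntermediateField

namespace Pool.Agent.H30EV

open Pool.Agent.N922.PQ
open Pool.Agent.N692.PMTOW
open Pool.Agent.N874.PP (Tup chA chB gq tau Two Ev Sq1 U0 sW IsBeta Rt)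
open Pool.Agent.N874.PM (PLoc Lies SelR ShaR)

theorem isCub_tw {L : Type} [Field L] [CharZero L] {a b d : ℤ} (hd : d ≠ 0) {θ : L}
    (hc : IsCub a b θ) : IsCub (a * d ^ 2) (b * d ^ 3) ((d : L) * θ) where
  root := by
    have h := hc.root
    push_cast
    linear_combination (d : L) ^ 3 * h
  rank := hc.rank
  gen x := by
    obtain ⟨r, s, t, rfl⟩ := hc.gen x
    have hd' : (d : L) ≠ 0 := by exact_mod_cast hd
    refine ⟨r, s / d, t / d ^ 2, ?_⟩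
    push_cast
    field_simp

section abs

variable {L M Ω : Type} [Field L] [NumberField L] [Field M] [NumberField M]
  [Field Ω] [NumberField Ω] [Algebra L Ω] [Algebra M Ω]
  [IsGalois ℚ M]

/-- The base of the descent. -/
theorem base_two' {a b d : ℤ} {θ : L} (hc : IsCub a b θ) (ha : a % 4 = 3) (hb : b % 4 = 3)
    (hd : d % 4 = 1 ∨ d % 4 = 2) (hu2 : Unr M 2)
    {x : L} (hx : x ≠ 0) (hN : IsSquare (Algebra.norm ℚ x))
    (hC : C2w M (𝓞 M) (a * d ^ 2) (b * d ^ 3) (algebraMap L Ω ((d : L) * θ))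
      (algebraMap L Ω x)) : Loc2 a b θ x := by
  obtain ⟨w, hw⟩ := exists_over (𝓞 M)
  have hv2 : Valued.v (2 : w.adicCompletion M) = WithZero.exp (-1 : ℤ) := by
    have h1 := HeightOneSpectrum.valuedAdicCompletion_eq_valuation' (K := M) w (2 : M)
    have h2 := hu2 w hw
    have e0 : ((2 : ℤ) : M) = 2 := by norm_num
    rw [e0] at h2
    rw [h2] at h1
    have e : ((2 : M) : w.adicCompletion M) = 2 := by
      have := map_ofNat (algebraMap M (w.adicCompletion M)) 2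
      exact this
    rw [e] at h1
    exact h1
  refine udd hc ha hb hd hx hN (w.adicCompletion M) (WithZero (Multiplicative ℤ)) Valued.v
    ?_ ?_ ?_
  · rw [hv2, ← WithZero.exp_zero, WithZero.exp_lt_exp]
    norm_num
  · intro z hz
    rw [hv2]
    by_cases h0 : Valued.v z = 0
    · rw [h0]
      exact zero_le'
    · rw [← WithZero.exp_log h0, ← WithZero.exp_zero, WithZero.exp_lt_exp] at hz
      rw [← WithZero.exp_log h0, WithZero.exp_le_exp]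
      omega
  · intro h hh
    have h1 := hC w hw (h.map (algebraMap ℚ M)) (by
      rw [aeval_map_algebraMap, aeval_algebraMap_apply, hh])
    rw [Polynomial.map_map] at h1
    have e : (algebraMap M (w.adicCompletion M)).comp (algebraMap ℚ M) =
        algebraMap ℚ (w.adicCompletion M) := RingHom.ext_rat _ _
    rw [e] at h1
    exact h1

include Ω in
theorem selE_abs (H : Parts2) {a b d : ℤ} {θ : L} {X' : ℕ}
    {S T J : Finset ℤ} {s A B : ℤ → ℤ} (hc : IsCub a b θ) (hS : GoodS S s)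
    (hF : Fam X' S s T A B a b) (hT : GoodT T A B) (hJ : J ⊆ S)
    (hsel : ∀ α : L, α ≠ 0 → IsSquare (Algebra.norm ℚ α) → Loc2 a b θ α →
      (∀ 𝔓 : HeightOneSpectrum (𝓞 L), (∀ Q ∈ J, ¬ Ov Q 𝔓) → Ev 𝔓 α) →
      (∀ Q ∈ J, ∀ 𝔓 : HeightOneSpectrum (𝓞 L), Ov Q 𝔓 → 𝔓.valuation L θ = 1 →
        U0 𝔓 ((Q : L) * θ) α) →
      (∀ Q ∈ J, ∀ 𝔓 : HeightOneSpectrum (𝓞 L), Ov Q 𝔓 → 𝔓.valuation L θ < 1 → Ev 𝔓 α) →
      IsSquare α)
    {n : ℕ} (hM : Module.finrank ℚ M = 2 ^ n) (hΩ : Module.finrank M Ω = 3)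
    (htop : M⟮algebraMap L Ω θ⟯ = ⊤) (ha4 : a % 4 = 3) (hb4 : b % 4 = 3)
    (hd4 : d % 4 = 1 ∨ d % 4 = 2) (hu2 : Unr M 2)
    (hu : ∀ P : ℤ, IsPr P → P ∉ irr a b → Unr M P) (hr : ∀ Q ∈ J, Res M Q)
    (hd : ∀ P : ℤ, IsPr P → P ∣ d → P ∈ irr a b) :
    SelR (𝓞 M) (sW (((a * (d * ∏ Q ∈ J, Q) ^ 2 : ℤ)) : M)
      (((b * (d * ∏ Q ∈ J, Q) ^ 3 : ℤ)) : M)) := by
  have h6M : (6 : M) ≠ 0 := by norm_num
  have h2K : (2 : ℚ) ≠ 0 := by norm_num
  have hd0 : d ≠ 0 := by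
    rintro rfl
    omega
  have htop2 : im ℚ M Ω ⊔ im ℚ L Ω = ⊤ := sup_top hM hc.rank hΩ
  have ha : Odd a := by
    rw [Int.odd_iff]
    omega
  have hb : Odd b := by
    rw [Int.odd_iff]
    omega
  have hJT : ∀ Q ∈ J, Q ∉ irr a b := by
    intro Q hQ h
    apply h.2 0
    have := hF.rb Q (hJ hQ)
    simpa using this
  -- the twisted data
  obtain ⟨a', ha'⟩ : ∃ a' : ℤ, a' = a * d ^ 2 := ⟨_, rfl⟩
  obtain ⟨b', hb'⟩ : ∃ b' : ℤ, b' = b * d ^ 3 := ⟨_, rfl⟩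
  obtain ⟨θ', hθ'⟩ : ∃ θ' : L, θ' = (d : L) * θ := ⟨_, rfl⟩
  have hc' : IsCub a' b' θ' := by
    rw [ha', hb', hθ']
    exact isCub_tw hd0 hc
  have hnr0 : ∀ w : HeightOneSpectrum (𝓞 M), Ov 2 w → ∀ t : w.adicCompletion M,
      t ^ 3 + (a : w.adicCompletion M) * t + (b : w.adicCompletion M) ≠ 0 :=
    fun w hw => H.nr M (𝓞 M) n hM w hw a b ha hb
  have hnr : ∀ w : HeightOneSpectrum (𝓞 M), Ov 2 w → ∀ t : w.adicCompletion M,
      t ^ 3 + (a' : w.adicCompletion M) * t + (b' : w.adicCompletion M) ≠ 0 := by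
    intro w hw t
    rw [ha', hb']
    exact no_root_tw' (hnr0 w hw) hd0 t
  have hdsc' : dsc a' b' ≠ 0 := by
    have e : dsc a' b' = d ^ 6 * dsc a b := by
      rw [ha', hb', dsc, dsc]
      ring
    rw [e]
    exact mul_ne_zero (pow_ne_zero _ hd0) hF.sq.ne_zero
  have hD1 : 0 < (∏ Q ∈ J, Q) := Finset.prod_pos fun Q hQ => (hS Q (hJ hQ)).1.1
  have hD0 : (∏ Q ∈ J, Q) ≠ 0 := hD1.ne'
  have hD8 : (∏ Q ∈ J, Q) % 8 = 1 := prod_mod8 fun Q hQ => (hS Q (hJ hQ)).2.1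
  obtain ⟨D, hDdef⟩ : ∃ D : ℤ, D = ∏ Q ∈ J, Q := ⟨_, rfl⟩
  have eA : a * (d * ∏ Q ∈ J, Q) ^ 2 = a' * D ^ 2 := by
    rw [ha', hDdef]
    ring
  have eB : b * (d * ∏ Q ∈ J, Q) ^ 3 = b' * D ^ 3 := by
    rw [hb', hDdef]
    ring
  rw [← hDdef] at hD1 hD0 hD8
  rw [eA, eB]
  intro f hf h2f hloc
  obtain ⟨w₀, hw₀⟩ := exists_over (𝓞 M)
  have hirrD := irr_tw' (F := M) (a := a' * D ^ 2) (b := b' * D ^ 3)
    (fun t ht => by
      apply no_root_tw' (hnr w₀ hw₀) hD0 (algebraMap M _ t)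
      have h1 := congrArg (algebraMap M (w₀.adicCompletion M)) ht
      rw [map_zero, map_add, map_add, map_mul, map_pow, map_intCast, map_intCast] at h1
      exact h1)
  have hdisc : 4 * (((a' * D ^ 2 : ℤ)) : M) ^ 3 +
      27 * (((b' * D ^ 3 : ℤ)) : M) ^ 2 ≠ 0 := by
    have e : 4 * (((a' * D ^ 2 : ℤ)) : M) ^ 3 +
      27 * (((b' * D ^ 3 : ℤ)) : M) ^ 2 =
        ((D ^ 6 * dsc a' b' : ℤ) : M) := by
      simp only [dsc, Int.cast_mul, Int.cast_add, Int.cast_pow, Int.cast_ofNat]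
      ring
    rw [e, Int.cast_ne_zero]
    exact mul_ne_zero (pow_ne_zero _ hD0) hdsc'
  have hroot : (algebraMap L Ω θ') ^ 3 + (a' : Ω) * algebraMap L Ω θ' + (b' : Ω) = 0 := by
    have h1 := congrArg (algebraMap L Ω) hc'.root
    rw [map_zero, map_add, map_add, map_mul, map_pow, map_intCast, map_intCast] at h1
    exact h1
  have htop' : M⟮algebraMap L Ω θ'⟯ = ⊤ := by
    rw [eq_top_iff, ← htop, IntermediateField.adjoin_simple_le_iff]
    have hdL : (d : Ω) ≠ 0 := by exact_mod_cast hd0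
    have e : algebraMap L Ω θ = ((d : ℤ) : Ω)⁻¹ * algebraMap L Ω θ' := by
      rw [hθ', map_mul, map_intCast, inv_mul_cancel_left₀ hdL]
    rw [e]
    refine mul_mem (inv_mem (intCast_mem _ d)) (IntermediateField.mem_adjoin_simple_self M _)
  have hmin : minpoly M (algebraMap L Ω θ') = ff M a' b' := by
    haveI : FiniteDimensional M Ω := FiniteDimensional.of_finrank_pos (by rw [hΩ]; norm_num)
    have hint : IsIntegral M (algebraMap L Ω θ') := Algebra.IsIntegral.isIntegral _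
    have hd : minpoly M (algebraMap L Ω θ') ∣ ff M a' b' := by
      apply minpoly.dvd
      simp only [ff, map_add, map_mul, map_pow, aeval_X, aeval_C, map_intCast]
      exact hroot
    have hdeg : (minpoly M (algebraMap L Ω θ')).natDegree = 3 := by
      rw [(Field.primitive_element_iff_minpoly_natDegree_eq M _).1 htop', hΩ]
    exact (Polynomial.eq_of_monic_of_dvd_of_natDegree_le (minpoly.monic hint) (ff_monic M a' b')
      hd (by rw [hdeg, ff_deg])).symm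
  obtain ⟨β, hβ⟩ := H.p.gb M _ _ h6M hdisc hirrD f hf h2f
  obtain ⟨h, hh, hn⟩ := H.p.gn M _ _ h6M hdisc hirrD f hf h2f β hβ
  have hRt : Rt (((a' * D ^ 2 : ℤ)) : M) (((b' * D ^ 3 : ℤ)) : M)
      ((D : Ω) * algebraMap L Ω θ') := by
    unfold Rt
    rw [map_intCast, map_intCast]
    simp only [Int.cast_mul, Int.cast_pow]
    linear_combination (D : Ω) ^ 3 * hroot
  have hn2 := hn Ω _ hRt hΩ
  have eθ : (D : Ω) * algebraMap L Ω θ' =
      (((d * ∏ Q ∈ J, Q : ℤ)) : Ω) * algebraMap L Ω θ := by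
    rw [hθ', hDdef, map_mul, map_intCast, Int.cast_mul]
    ring
  have hcs : Cs (𝓞 Ω) J (irr a b) (algebraMap L Ω θ) (aeval ((D : Ω) * algebraMap L Ω θ') h) := by
    rw [eθ]
    refine cs_top H.p.exq H.p.lie H.p.loc1 H.p.loc2 htop2 hc hS hF hT hJ hu hr hd (h := h)
      (fun w hw => ?_) (by rw [← eθ]; exact hn2.1)
    rw [eA, eB]
    exact H.p.glr M (𝓞 M) _ _ h6M hdisc f hf h2f β h hβ hh w (val_two hw) (hloc w)
  have hc2 := c2w_sel (𝓞 M) H.p.glr2 H.sqd H.twg hD0 hD8 hnr hmin hdisc f hf h2f β h hβ hh hloc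
  obtain ⟨c1, c2, c3⟩ := H.c2w L M Ω (𝓞 M) a' b' θ' hdsc' hnr hc' hΩ htop'
  have hsq := H.p.tow n ℚ L M Ω h2K hM hc.rank hΩ
    (fun x => Cs (𝓞 Ω) J (irr a b) (algebraMap L Ω θ) x ∧
      C2w M (𝓞 M) a' b' (algebraMap L Ω θ') x)
    (fun x hx => ⟨cs_sq hx, c1 x⟩)
    (fun x y hx hy h h' => ⟨cs_mul H.p.cls (fun Q hQ => ⟨(hS Q (hJ hQ)).1.2,
        not_dvd_two (hS Q (hJ hQ)).2.1 (hS Q (hJ hQ)).1.1 (hS Q (hJ hQ)).1.2⟩)
      (fun Q hQ 𝔓 h1 h2 => odd_top' H.p.exq htop2 hc hF.sq (hS Q (hJ hQ)).1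
        (hF.rb Q (hJ hQ)) (fam_ns hS hF (hJ hQ))
        (hu Q (hS Q (hJ hQ)).1 (hJT Q hQ)) 𝔓 h1 h2) hx hy h.1 h'.1, c2 x y h.2 h'.2⟩)
    (fun σ x h => ⟨cs_sig H.p.sig rfl σ h.1, c3 σ x h.2⟩)
    (fun x hx hC hN => base_sq' (𝓞 L) (𝓞 Ω) (T := irr a b) hsel
      (fun 𝔓 h𝔓 => by
        obtain ⟨𝔓', h1⟩ := exists_above (Ω := Ω) 𝔓
        obtain ⟨P, hP, hP𝔓⟩ := exists_below 𝔓
        refine ⟨𝔓', fun x => ?_⟩
        rw [← h1]
        refine unr_top hP htop2 (hu P hP fun h => h𝔓 P h hP𝔓) 𝔓' ?_ x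
        rw [← h1] at hP𝔓
        exact (ov_under P 𝔓').1 hP𝔓)
      (fun Q hQ 𝔓' h1 s hs => dens_top (hS Q (hJ hQ)).1 htop2
        (hu Q (hS Q (hJ hQ)).1 (hJT Q hQ)) (hr Q hQ) 𝔓' h1 s hs)
      (fun P hP => H.p.p3 L (𝓞 L) a b θ hc hF.sq P hP.1.2 hP.2)
      (fun Q hQ 𝔓 h P hP hP𝔓 => hJT Q hQ (by
        have : Q = P := below_unique (hS Q (hJ hQ)).1 hP.1 h hP𝔓
        rw [this]
        exact hP)) hx hC.1
      (base_two' (Ω := Ω) hc ha4 hb4 hd4 hu2 hx hN (by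
        have := hC.2
        rw [ha', hb', hθ'] at this
        exact this)) hN)
    _ hn2.1 ⟨hcs, hc2⟩ hn2.2
  exact H.p.gt M _ _ h6M hdisc hirrD f hf h2f β h hβ hh _ _ hRt hΩ hsq

end abs

end Pool.Agent.H30EV
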