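import Pool.Agent.H30EV.Cal
import Pool.Agent.N951.PV.PT2
import Pool.Agent.N907.PV.NF2

/-!
# Descent of the local condition at `2` for the quadratic twists
-/

set_option autoImplicit false

open Polynomial
open scoped Classical

namespace Pool.Agent.H30EV

open Pool.Agent.N922.PQ Pool.Agent.N323.PV Pool.Agent.N951.PV

section

variable {F : Type} [Field F] {a b d : ℤ}

theorem plt_congr {h h' : F[X]} (hd : ff F a b ∣ h - h') (H : PLt F a b d h) :
    PLt F a b d h' := by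
  rcases H with ⟨g, hg⟩ | ⟨x, y, hy, hxy, g, hg⟩
  · left
    refine ⟨g, ?_⟩
    have e : h' - g ^ 2 = (h - g ^ 2) - (h - h') := by ring
    rw [e]
    exact dvd_sub hg hd
  · right
    refine ⟨x, y, hy, hxy, g, ?_⟩
    have e : C (d : F) * (C x - X) * h' - g ^ 2 = (C (d : F) * (C x - X) * h - g ^ 2) -
      C (d : F) * (C x - X) * (h - h') := by ring
    rw [e]
    exact dvd_sub hg (dvd_mul_of_dvd_right hd _)

theorem plt_sq {h : F[X]} (k : F[X]) (H : PLt F a b d h) : PLt F a b d (k ^ 2 * h) := by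
  rcases H with ⟨g, hg⟩ | ⟨x, y, hy, hxy, g, hg⟩
  · left
    refine ⟨k * g, ?_⟩
    have e : k ^ 2 * h - (k * g) ^ 2 = k ^ 2 * (h - g ^ 2) := by ring
    rw [e]
    exact dvd_mul_of_dvd_right hg _
  · right
    refine ⟨x, y, hy, hxy, k * g, ?_⟩
    have e : C (d : F) * (C x - X) * (k ^ 2 * h) - (k * g) ^ 2 =
      k ^ 2 * (C (d : F) * (C x - X) * h - g ^ 2) := by ring
    rw [e]
    exact dvd_mul_of_dvd_right hg _

theorem ff_comp {p : F[X]} (h : ff F (a * d ^ 2) (b * d ^ 3) ∣ p) :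
    ff F a b ∣ p.comp (C (d : F) * X) := by
  obtain ⟨q, rfl⟩ := h
  rw [mul_comp]
  refine dvd_mul_of_dvd_left ?_ _
  refine ⟨C ((d : F) ^ 3), ?_⟩
  simp only [ff, add_comp, mul_comp, pow_comp, X_comp, C_comp]
  push_cast
  simp only [map_mul, map_pow]
  ring

theorem plt_of_pl (hd : (d : F) ≠ 0) {h : F[X]} (H : PL F (a * d ^ 2) (b * d ^ 3) h) :
    PLt F a b d (h.comp (C (d : F) * X)) := by
  rcases H with ⟨g, hg⟩ | ⟨x, y, hy, hxy, g, hg⟩
  · left
    refine ⟨g.comp (C (d : F) * X), ?_⟩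
    have h1 := ff_comp hg
    rw [sub_comp, pow_comp] at h1
    exact h1
  · right
    refine ⟨x / d, y / d ^ 2, div_ne_zero hy (pow_ne_zero _ hd), ?_, g.comp (C (d : F) * X), ?_⟩
    · push_cast at hxy
      field_simp
      linear_combination hxy
    · have h1 := ff_comp hg
      rw [sub_comp, pow_comp, mul_comp, sub_comp, X_comp, C_comp] at h1
      have e : C (d : F) * (C (x / d) - X) = C x - C (d : F) * X := by
        rw [mul_sub, ← C_mul, mul_div_cancel₀ _ hd]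
      rw [e]
      exact h1

end

/-- Descent of the local condition at `2`. -/
theorem udd {L : Type} [Field L] [NumberField L] {a b d : ℤ} {θ : L} (hc : IsCub a b θ)
    (ha : a % 4 = 3) (hb : b % 4 = 3) (hd : d % 4 = 1 ∨ d % 4 = 2) {x : L} (hx : x ≠ 0)
    (hN : IsSquare (Algebra.norm ℚ x)) (F Γ : Type) [Field F] [CharZero F]
    [LinearOrderedCommGroupWithZero Γ] (v : Valuation F Γ) (hv : v 2 < 1)
    (hv2 : ∀ x : F, v x < 1 → v x ≤ v 2)
    (hPL : ∀ h : ℚ[X], aeval ((d : L) * θ) h = x →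
      PL F (a * d ^ 2) (b * d ^ 3) (h.map (algebraMap ℚ F))) : Loc2 a b θ x := by
  have hao : Odd a := by
    rw [Int.odd_iff]
    omega
  have hbo : Odd b := by
    rw [Int.odd_iff]
    omega
  have hab : (4 : ℤ) ∣ a - b := by omega
  have hd0 : d ≠ 0 := by
    rintro rfl
    omega
  have hdF : (d : F) ≠ 0 := by exact_mod_cast hd0
  have hdL : (d : L) ≠ 0 := by exact_mod_cast hd0
  have hdQ : (d : ℚ) ≠ 0 := by exact_mod_cast hd0
  obtain ⟨c, g₁, g₂, r, s, t, hc0, hr, hs, ht, hα⟩ :=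
    Pool.Agent.N907.PV.t_NF2 L a b θ hc hao hbo x hx hN
  obtain ⟨k, hk⟩ := hc.exists_poly c
  obtain ⟨k', hk'⟩ := hc.exists_poly c⁻¹
  set P : ℚ[X] := pol ℚ g₁ g₂ ((g₁ * (1 + g₂) : ℤ) + 2 * r) s t with hP
  -- the local condition over `F` for `P`
  have e1 : aeval θ (k ^ 2 * P) = x := by
    rw [map_mul, map_pow, hk, hα]
  have e2 : aeval θ (k' ^ 2 * (k ^ 2 * P)) = aeval θ P := by
    rw [map_mul, map_pow, hk', e1, hα, ← mul_assoc, ← mul_pow, inv_mul_cancel₀ hc0, one_pow, one_mul]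
  have e0 : aeval ((d : L) * θ) ((k ^ 2 * P).comp (C ((d : ℚ)⁻¹) * X)) = x := by
    have e : aeval ((d : L) * θ) (C ((d : ℚ)⁻¹) * X) = θ := by
      rw [map_mul, aeval_C, aeval_X, ← mul_assoc, map_inv₀, map_intCast, inv_mul_cancel₀ hdL,
        one_mul]
    rw [aeval_comp, e, e1]
  have h0 := plt_of_pl hdF (hPL _ e0)
  have e3 : (((k ^ 2 * P).comp (C ((d : ℚ)⁻¹) * X)).map (algebraMap ℚ F)).comp (C (d : F) * X) =
      (k ^ 2 * P).map (algebraMap ℚ F) := by
    rw [map_comp, Polynomial.map_mul (algebraMap ℚ F) (p := C ((d : ℚ)⁻¹)), map_C, map_X,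
      comp_assoc, mul_comp, C_comp, X_comp, ← mul_assoc, ← C_mul]
    have e : algebraMap ℚ F ((d : ℚ)⁻¹) * (d : F) = 1 := by
      rw [map_inv₀, map_intCast, inv_mul_cancel₀ hdF]
    rw [e, C_1, one_mul, comp_X]
  rw [e3] at h0
  have h3 := plt_sq (k'.map (algebraMap ℚ F)) h0
  rw [← Polynomial.map_pow, ← Polynomial.map_mul] at h3
  have h4 := plt_congr (cast_congr hc F e2) h3
  rw [hP, pol_map] at h4
  have hr2 : v ((((g₁ * (1 + g₂) : ℤ) : ℚ) + 2 * r : ℚ) : F) ≤ 1 := by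
    push_cast
    refine (v.map_add _ _).trans (max_le ?_ ?_)
    · have := v_int v (g₁ * (1 + g₂))
      push_cast at this
      exact this
    · rw [map_mul]
      exact mul_le_one' hv.le (v_rat v hv r hr)
  have h5 := cald F Γ v hv hv2 ha hb hd g₁ g₂ _ _ _ hr2 (v_rat v hv s hs) (v_rat v hv t ht) h4
  -- over `ℚ_2`
  have hnd : ∀ q : ℚ, Odd q.den → ‖(q : ℚ_[2])‖ ≤ 1 := by
    intro q hq
    apply Padic.norm_rat_le_one
    intro h
    exact (Nat.not_even_iff_odd.2 hq) (even_iff_two_dvd.2 h)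
  have h6 := pt2 a b hao hab g₁ g₂ ((((g₁ * (1 + g₂) : ℤ) : ℚ) + 2 * r : ℚ) : ℚ_[2]) s t (by
    have e : ((((g₁ * (1 + g₂) : ℤ) : ℚ) + 2 * r : ℚ) : ℚ_[2]) - ((g₁ * (1 + g₂) : ℤ) : ℚ_[2]) =
        2 * (r : ℚ_[2]) := by
      push_cast
      ring
    rw [e, norm_mul]
    have e3 : ‖(2 : ℚ_[2])‖ = 1 / 2 := by
      have := Padic.norm_p (p := 2)
      rw [Nat.cast_ofNat] at this
      rw [this]
      norm_num
    rw [e3]
    have := hnd r hr
    linarith) (hnd s hs) (hnd t ht) h5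
  rw [← pol_map, ← hP] at h6
  intro h' hh'
  have h7 : PL ℚ_[2] a b ((k.map (algebraMap ℚ ℚ_[2])) ^ 2 * P.map (algebraMap ℚ ℚ_[2])) :=
    pl_sq _ h6
  rw [← Polynomial.map_pow, ← Polynomial.map_mul] at h7
  exact Pool.Agent.N951.PV.pl_congr (cast_congr hc ℚ_[2] (e1.trans hh'.symm)) h7

end Pool.Agent.H30EV
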