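import Pool.Agent.H30EV.Comp
import Pool.Agent.H30EV.Ud
import Pool.Agent.N922.PQ.Final2

/-!
# Conditions over the extension: every admissible extension and every admissible twist
-/

set_option autoImplicit false
set_option linter.all false

open Polynomial IsDedekindDomain NumberField
open scoped Classical IntermediateField

namespace Pool.Agent.H30EV

open Pool.Agent.N922.PQ
open Pool.Agent.N692.PMTOW
open Pool.Agent.N874.PP (Tup chA chB gq tau Two Ev Sq1 U0)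
open Pool.Agent.N874.PM (PLoc Lies SelR ShaR S_LOC1M S_LOC2M)

/-- The primes modulo which `X ^ 3 + a X + b` has no zero. -/
def irr (a b : ℤ) : Set ℤ := {P | IsPr P ∧ ∀ z : ℤ, ¬ P ∣ z ^ 3 + a * z + b}

section cond

variable {Ω : Type} [Field Ω] (O' : Type)
  [CommRing O'] [IsDedekindDomain O'] [Algebra O' Ω] [IsFractionRing O' Ω]

/-- The conditions. -/
structure Cs (J : Finset ℤ) (T : Set ℤ) (θ x : Ω) : Prop where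
  ev : ∀ 𝔓 : HeightOneSpectrum O', (∀ P ∈ T, ¬ Ov P 𝔓) → (∀ Q ∈ J, ¬ Ov Q 𝔓) → Ev 𝔓 x
  u0 : ∀ Q ∈ J, ∀ 𝔓 : HeightOneSpectrum O', Ov Q 𝔓 → 𝔓.valuation Ω θ = 1 →
    U0 𝔓 ((Q : Ω) * θ) x
  eq : ∀ Q ∈ J, ∀ 𝔓 : HeightOneSpectrum O', Ov Q 𝔓 → 𝔓.valuation Ω θ < 1 → Ev 𝔓 x

variable {O'} {J : Finset ℤ} {T : Set ℤ} {θ : Ω}

theorem cs_sq {x : Ω} (hx : x ≠ 0) : Cs O' J T θ (x ^ 2) where
  ev 𝔓 _ _ := ev_sq 𝔓 x
  eq Q _ 𝔓 _ _ := ev_sq 𝔓 x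
  u0 Q _ 𝔓 _ _ := by
    refine ⟨fun _ => ⟨x, ?_⟩, fun h => absurd (ev_sq 𝔓 x) h⟩
    rw [sub_self, map_zero, zero_lt_iff]
    exact (Valuation.ne_zero_iff _).2 (pow_ne_zero _ hx)

theorem cs_mul [NumberField Ω] [IsIntegralClosure O' ℤ Ω] (hCLS : S_CLS)
    (hJ : ∀ Q ∈ J, Prime Q ∧ ¬ Q ∣ 2)
    (hϖ : ∀ Q ∈ J, ∀ 𝔓 : HeightOneSpectrum O', Ov Q 𝔓 → 𝔓.valuation Ω θ = 1 →
      ¬ Ev 𝔓 ((Q : Ω) * θ)) {x y : Ω} (hx : x ≠ 0) (hy : y ≠ 0)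
    (h : Cs O' J T θ x) (h' : Cs O' J T θ y) : Cs O' J T θ (x * y) where
  ev 𝔓 h1 h2 := ev_mul (h.ev 𝔓 h1 h2) (h'.ev 𝔓 h1 h2)
  eq Q hQ 𝔓 h1 h2 := ev_mul (h.eq Q hQ 𝔓 h1 h2) (h'.eq Q hQ 𝔓 h1 h2)
  u0 Q hQ 𝔓 h1 h3 := by
    have h4 := hϖ Q hQ 𝔓 h1 h3
    have h5 : (Q : Ω) * θ ≠ 0 := by
      intro h0
      apply h4
      rw [h0]
      exact ⟨0, by simp⟩
    exact ((hCLS Ω O' Q 𝔓 _ (hJ Q hQ).1 (hJ Q hQ).2 h1 h5 h4 x y hx hy).2).2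
      ⟨fun _ => h'.u0 Q hQ 𝔓 h1 h3, fun _ => h.u0 Q hQ 𝔓 h1 h3⟩

theorem cs_sig [NumberField Ω] [IsIntegralClosure O' ℤ Ω] (hSIG : S_SIG) {L : Type} [Field L]
    [Algebra L Ω] {θ₀ : L} (hθ : θ = algebraMap L Ω θ₀)
    (σ : Ω ≃ₐ[L] Ω) {x : Ω} (h : Cs O' J T θ x) : Cs O' J T θ (σ x) := by
  have hf : ∀ y : L, σ (algebraMap L Ω y) = algebraMap L Ω y := fun y => σ.commutes y
  have hp : ∀ P : ℤ, σ (P : Ω) = (P : Ω) := fun P => map_intCast σ P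
  have key := hSIG Ω O' (σ : Ω ≃+* Ω)
  have hev : ∀ (𝔓 𝔓' : HeightOneSpectrum O'), (∀ y : Ω, 𝔓'.valuation Ω y = 𝔓.valuation Ω (σ y)) →
      ∀ y : Ω, Ev 𝔓' y ↔ Ev 𝔓 (σ y) := by
    intro 𝔓 𝔓' hv y
    constructor
    · rintro ⟨z, hz⟩
      exact ⟨σ z, by rw [← hv, ← hv, hz]⟩
    · rintro ⟨z, hz⟩
      refine ⟨σ.symm z, ?_⟩
      rw [hv, hv, σ.apply_symm_apply, hz]
  have hsq : ∀ (𝔓 𝔓' : HeightOneSpectrum O'), (∀ y : Ω, 𝔓'.valuation Ω y = 𝔓.valuation Ω (σ y)) →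
      ∀ y : Ω, Sq1 𝔓' y → Sq1 𝔓 (σ y) := by
    rintro 𝔓 𝔓' hv y ⟨z, hz⟩
    refine ⟨σ z, ?_⟩
    rw [hv, hv, map_sub, map_pow] at hz
    exact hz
  refine ⟨fun 𝔓 h1 h2 => ?_, fun Q hQ 𝔓 h1 h2 => ?_, fun Q hQ 𝔓 h1 h2 => ?_⟩
  · obtain ⟨𝔓', hv, hO⟩ := key 𝔓
    exact (hev 𝔓 𝔓' hv x).1 (h.ev 𝔓' (fun P hP hc => h1 P hP ((hO P).1 hc))
      (fun Q hQ hc => h2 Q hQ ((hO Q).1 hc)))
  · obtain ⟨𝔓', hv, hO⟩ := key 𝔓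
    have hv' : ∀ y : Ω, 𝔓'.valuation Ω y = 𝔓.valuation Ω (σ y) := hv
    have h3 := h.u0 Q hQ 𝔓' ((hO Q).2 h1) (by rw [hv', hθ, hf, ← hθ]; exact h2)
    refine ⟨fun h4 => hsq 𝔓 𝔓' hv' x (h3.1 ((hev 𝔓 𝔓' hv' x).2 h4)), fun h4 => ?_⟩
    have h5 := hsq 𝔓 𝔓' hv' _ (h3.2 fun h6 => h4 ((hev 𝔓 𝔓' hv' x).1 h6))
    rw [map_mul, map_mul, hp, hθ, hf, ← hθ] at h5
    exact h5
  · obtain ⟨𝔓', hv, hO⟩ := key 𝔓
    have hv' : ∀ y : Ω, 𝔓'.valuation Ω y = 𝔓.valuation Ω (σ y) := hv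
    exact (hev 𝔓 𝔓' hv' x).1 (h.eq Q hQ 𝔓' ((hO Q).2 h1) (by rw [hv', hθ, hf, ← hθ]; exact h2))

end cond

section base

variable {L Ω : Type} (O O' : Type) [Field L] [CharZero L] [Field Ω] [Algebra L Ω]
  [CommRing O] [IsDedekindDomain O] [Algebra O L] [IsFractionRing O L]
  [CommRing O'] [IsDedekindDomain O'] [Algebra O' Ω] [IsFractionRing O' Ω]

theorem base_sq' {θ : L} {a b : ℤ} {J : Finset ℤ} {T : Set ℤ}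
    (hsel : ∀ α : L, α ≠ 0 → IsSquare (Algebra.norm ℚ α) → Loc2 a b θ α →
      (∀ 𝔓 : HeightOneSpectrum O, (∀ Q ∈ J, ¬ Ov Q 𝔓) → Ev 𝔓 α) →
      (∀ Q ∈ J, ∀ 𝔓 : HeightOneSpectrum O, Ov Q 𝔓 → 𝔓.valuation L θ = 1 →
        U0 𝔓 ((Q : L) * θ) α) →
      (∀ Q ∈ J, ∀ 𝔓 : HeightOneSpectrum O, Ov Q 𝔓 → 𝔓.valuation L θ < 1 → Ev 𝔓 α) →
      IsSquare α)
    (hUR : ∀ 𝔓 : HeightOneSpectrum O, (∀ P ∈ T, ¬ Ov P 𝔓) → ∃ 𝔓' : HeightOneSpectrum O',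
      ∀ x : L, 𝔓'.valuation Ω (algebraMap L Ω x) = 𝔓.valuation L x)
    (hSP : ∀ Q ∈ J, ∀ 𝔓' : HeightOneSpectrum O', Ov Q 𝔓' → ∀ s : Ω, s ≠ 0 →
      ∃ s₀ : L, 𝔓'.valuation Ω (s - algebraMap L Ω s₀) < 𝔓'.valuation Ω s)
    (hT : ∀ P ∈ T, ∀ x : L, x ≠ 0 → IsSquare (Algebra.norm ℚ x) →
      ∀ 𝔓 : HeightOneSpectrum O, Ov P 𝔓 → Ev 𝔓 x)
    (hJT : ∀ Q ∈ J, ∀ 𝔓 : HeightOneSpectrum O, Ov Q 𝔓 → ∀ P ∈ T, ¬ Ov P 𝔓)
    {x : L} (hx : x ≠ 0) (hC : Cs O' J T (algebraMap L Ω θ) (algebraMap L Ω x))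
    (hl2 : Loc2 a b θ x)
    (hN : IsSquare (Algebra.norm ℚ x)) : IsSquare x := by
  refine hsel x hx hN hl2 (fun 𝔓 h𝔓 => ?_) (fun Q hQ 𝔓 h1 h2 => ?_) (fun Q hQ 𝔓 h1 h2 => ?_)
  · by_cases hP : ∃ P ∈ T, Ov P 𝔓
    · obtain ⟨P, hPT, hP𝔓⟩ := hP
      exact hT P hPT x hx hN 𝔓 hP𝔓
    · have hP' : ∀ P ∈ T, ¬ Ov P 𝔓 := fun P h1 h2 => hP ⟨P, h1, h2⟩
      obtain ⟨𝔓', hv⟩ := hUR 𝔓 hP'
      rw [← ev_down hv]
      exact hC.ev 𝔓' (fun P hPT h => hP ⟨P, hPT, (ov_down hv P).1 h⟩)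
        (fun Q hQ h => h𝔓 Q hQ ((ov_down hv Q).1 h))
  · obtain ⟨𝔓', hv⟩ := hUR 𝔓 (hJT Q hQ 𝔓 h1)
    have hQ' : Ov Q 𝔓' := (ov_down hv Q).2 h1
    have hd := hSP Q hQ 𝔓' hQ'
    have h3 := hC.u0 Q hQ 𝔓' hQ' (by rw [hv]; exact h2)
    refine ⟨fun h4 => sq_down hv hd (h3.1 ((ev_down hv x).2 h4)), fun h4 => ?_⟩
    have h5 := h3.2 fun h6 => h4 ((ev_down hv x).1 h6)
    have e : algebraMap L Ω x * ((Q : Ω) * algebraMap L Ω θ) =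
        algebraMap L Ω (x * ((Q : L) * θ)) := by
      rw [map_mul, map_mul, map_intCast]
    rw [e] at h5
    exact sq_down hv hd h5
  · obtain ⟨𝔓', hv⟩ := hUR 𝔓 (hJT Q hQ 𝔓 h1)
    rw [← ev_down hv]
    exact hC.eq Q hQ 𝔓' ((ov_down hv Q).2 h1) (by rw [hv]; exact h2)

end base

section top

variable {L M Ω : Type} [Field L] [NumberField L] [Field M] [NumberField M]
  [Field Ω] [NumberField Ω] [Algebra L Ω] [Algebra M Ω] [IsGalois ℚ M]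

/-- The element `Q θ` has odd valuation. -/
theorem odd_top' (hEXQ : S_EXQ) (htop : im ℚ M Ω ⊔ im ℚ L Ω = ⊤) {a b : ℤ} {θ : L}
    (hc : IsCub a b θ) (hsq : Squarefree (dsc a b)) {Q : ℤ} (hQ : IsPr Q) (hb : Q ∣ b)
    (hns : ∀ z : ℤ, ¬ Q ∣ z ^ 2 + a) (hu : Unr M Q) (𝔓 : HeightOneSpectrum (𝓞 Ω))
    (h1 : Ov Q 𝔓) (h2 : 𝔓.valuation Ω (algebraMap L Ω θ) = 1) :
    ¬ Ev 𝔓 ((Q : Ω) * algebraMap L Ω θ) := by
  have hv : ∀ x : L, 𝔓.valuation Ω (algebraMap L Ω x) = (𝔓.under (𝓞 L)).valuation L x :=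
    unr_top hQ htop hu 𝔓 h1
  obtain ⟨𝔓₁, 𝔮, h3, h4, h5, h7, h8, h9⟩ := hEXQ L (𝓞 L) a b θ hc hsq Q hQ.2 hb hns
  have e : (Q : Ω) * algebraMap L Ω θ = algebraMap L Ω ((Q : L) * θ) := by
    rw [map_mul, map_intCast]
  rw [e, ev_down hv]
  rcases h9 (𝔓.under (𝓞 L)) ((ov_down hv Q).1 h1) with h | h
  · rw [h] at hv
    rw [hv] at h2
    exact absurd h2 h5.ne
  · rw [h]
    exact h8

/-- `- a` is not a square in the residue field. -/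
theorem ns_top' {a : ℤ} {Q : ℤ} (hQ : IsPr Q) (hu : Unr M Q) (hr : Res M Q)
    (hns : ∀ z : ℤ, ¬ Q ∣ z ^ 2 + a) (w : HeightOneSpectrum (𝓞 M)) (h1 : Ov Q w)
    (z : M) (hz : w.valuation M z ≤ 1) :
    ¬ w.valuation M (z ^ 2 + (a : M)) < 1 := by
  intro hlt
  obtain ⟨z₁, h2⟩ := dens_rat hQ hu hr w h1 z hz
  have h3 : w.valuation M (((z₁ ^ 2 + a : ℤ)) : M) < 1 := by
    have e : (((z₁ ^ 2 + a : ℤ)) : M) = (z ^ 2 + (a : M)) -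
        (z - (z₁ : M)) * (z + (z₁ : M)) := by
      push_cast
      ring
    rw [e]
    refine lt_of_le_of_lt (Valuation.map_sub _ _ _) (max_lt hlt ?_)
    rw [map_mul]
    have h4 : w.valuation M (z + (z₁ : M)) ≤ 1 :=
      (Valuation.map_add _ _ _).trans (max_le hz (val_le z₁ w))
    exact lt_of_le_of_lt (mul_le_mul' le_rfl h4) (by rwa [mul_one])
  have h5 : Ov (z₁ ^ 2 + a) w := (ov_val (L := M) _ w).2 h3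
  apply hns z₁
  by_contra hnd
  exact one_mem_of ((hQ.2.irreducible.coprime_iff_not_dvd).2 hnd) h1 h5

/-- Primes which divide `d` are in `T`. -/
theorem not_ov_d {K : Type} [Field K] [NumberField K] {T : Set ℤ} {d : ℤ}
    (hd : ∀ P : ℤ, IsPr P → P ∣ d → P ∈ T) {w : HeightOneSpectrum (𝓞 K)}
    (hT : ∀ P ∈ T, ¬ Ov P w) : ¬ Ov d w := by
  intro h
  obtain ⟨P, hP1, hP3⟩ := exists_below w
  refine hT P (hd P hP1 ?_) hP3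
  by_contra hnd
  exact one_mem_of ((hP1.2.irreducible.coprime_iff_not_dvd).2 hnd) hP3 h

/-- Valuations over `M` at the primes not over `T`. -/
theorem val_low {a b : ℤ} (hu : ∀ P : ℤ, IsPr P → P ∉ irr a b → Unr M P)
    (w : HeightOneSpectrum (𝓞 M)) (hw : ∀ P ∈ irr a b, ¬ Ov P w) :
    ∃ v : HeightOneSpectrum ℤ, ∀ x : ℚ, w.valuation M (algebraMap ℚ M x) = v.valuation ℚ x := by
  obtain ⟨P, hP, hPw⟩ := exists_below w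
  refine ⟨pz hP, fun x => ?_⟩
  exact (valQ hP x w hPw (hu P hP fun h => hw P h hPw)).1.symm

theorem cs_top (hEXQ : S_EXQ) (hLIE : S_LIE) (hLOC1M : S_LOC1M)
    (hLOC2M : S_LOC2M) (htop : im ℚ M Ω ⊔ im ℚ L Ω = ⊤) {a b d : ℤ} {θ : L} {X' : ℕ}
    {S J T : Finset ℤ} {s A B : ℤ → ℤ} (hc : IsCub a b θ) (hS : GoodS S s)
    (hF : Fam X' S s T A B a b) (hT : GoodT T A B) (hJ : J ⊆ S)
    (hu : ∀ P : ℤ, IsPr P → P ∉ irr a b → Unr M P) (hr : ∀ Q ∈ J, Res M Q)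
    (hd : ∀ P : ℤ, IsPr P → P ∣ d → P ∈ irr a b) {h : M[X]}
    (hloc : ∀ w : HeightOneSpectrum (𝓞 M), ¬ Ov 2 w → PLoc (w.adicCompletion M)
      (((a * (d * ∏ Q ∈ J, Q) ^ 2 : ℤ)) : M) (((b * (d * ∏ Q ∈ J, Q) ^ 3 : ℤ)) : M) h)
    (h0 : aeval (((d * ∏ Q ∈ J, Q : ℤ) : Ω) * algebraMap L Ω θ) h ≠ 0) :
    Cs (𝓞 Ω) J (irr a b) (algebraMap L Ω θ)
      (aeval (((d * ∏ Q ∈ J, Q : ℤ) : Ω) * algebraMap L Ω θ) h) := by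
  have hJT : ∀ Q ∈ J, Q ∉ irr a b := by
    intro Q hQ h
    apply h.2 0
    have := hF.rb Q (hJ hQ)
    simpa using this
  have h2T : (2 : ℤ) ∈ irr a b := ⟨(hT.2.2 2 hT.1).1, fam_nt hT hF hT.1⟩
  have h3T : (3 : ℤ) ∈ irr a b := ⟨(hT.2.2 3 hT.2.1).1, fam_nt hT hF hT.2.1⟩
  have hroot : (algebraMap L Ω θ) ^ 3 + algebraMap M Ω (a : M) * algebraMap L Ω θ +
      algebraMap M Ω (b : M) = 0 := by
    have h1 := congrArg (algebraMap L Ω) hc.root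
    rw [map_zero, map_add, map_add, map_mul, map_pow, map_intCast, map_intCast] at h1
    rw [map_intCast, map_intCast]
    exact h1
  -- at the primes in `J`
  have key : ∀ Q ∈ J, ∀ 𝔓 : HeightOneSpectrum (𝓞 Ω), Ov Q 𝔓 →
      (𝔓.valuation Ω (algebraMap L Ω θ) = 1 → U0 𝔓 ((Q : Ω) * algebraMap L Ω θ)
        (aeval (((d * ∏ Q ∈ J, Q : ℤ) : Ω) * algebraMap L Ω θ) h)) ∧
      (𝔓.valuation Ω (algebraMap L Ω θ) < 1 →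
        Ev 𝔓 (aeval (((d * ∏ Q ∈ J, Q : ℤ) : Ω) * algebraMap L Ω θ) h)) := by
    intro Q hQ 𝔓 h𝔓
    have hQS := hJ hQ
    have hQp : IsPr Q := (hS Q hQS).1
    obtain ⟨w, hw, hO⟩ := hLIE M Ω (𝓞 M) (𝓞 Ω) 𝔓
    have hQw : Ov Q w := (hO Q).2 h𝔓
    have hnT : ∀ P ∈ irr a b, ¬ Ov P w := by
      intro P hP hPw
      have : Q = P := below_unique hQp hP.1 hQw hPw
      rw [← this] at hP
      exact hJT Q hQ hP
    have h2w : ¬ Ov 2 w := hnT 2 h2T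
    have h3w : ¬ Ov 3 w := hnT 3 h3T
    have hdw : ¬ Ov d w := not_ov_d hd hnT
    haveI : Finite (𝓞 M ⧸ w.asIdeal) :=
      Pool.Agent.N42.PQ.finite_residue (L := M) hQp.2.ne_zero hQw
    have hprod : (∏ P ∈ J, P) = Q * ∏ P ∈ J.erase Q, P := (Finset.mul_prod_erase J id hQ).symm
    have hϖ : w.valuation M (Q : M) = WithZero.exp (-1 : ℤ) := hu Q hQp (hJT Q hQ) w hQw
    have hD' : w.valuation M (((d * ∏ P ∈ J.erase Q, P : ℤ)) : M) = 1 := by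
      refine val_eq_of _ w fun h => ?_
      rcases ov_mul h with h | h
      · exact hdw h
      · obtain ⟨P, hP, hP'⟩ := ov_prod h
        have hPS := hJ (Finset.mem_of_mem_erase hP)
        exact Finset.ne_of_mem_erase hP (below_unique (hS P hPS).1 (hS Q hQS).1 hP' hQw)
    have hb1 : w.valuation M (b : M) < 1 := by
      rw [← ov_val]
      obtain ⟨c, hc⟩ := hF.rb Q hQS
      unfold Ov at hQw ⊢
      rw [hc, Int.cast_mul]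
      exact Ideal.mul_mem_right _ _ hQw
    have hns := fun z hz => ns_top' (M := M) (a := a) hQp (hu Q hQp (hJT Q hQ)) (hr Q hQ)
      (fam_ns hS hF hQS) w hQw z hz
    have e0 : (((d * ∏ Q ∈ J, Q : ℤ)) : M) = (Q : M) * (((d * ∏ P ∈ J.erase Q, P : ℤ)) : M) := by
      rw [hprod]
      push_cast
      ring
    have e1 : (((a * (d * ∏ Q ∈ J, Q) ^ 2 : ℤ)) : M) = (a : M) *
        ((Q : M) * (((d * ∏ P ∈ J.erase Q, P : ℤ)) : M)) ^ 2 := by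
      rw [← e0]
      simp only [Int.cast_mul, Int.cast_pow]
    have e2 : (((b * (d * ∏ Q ∈ J, Q) ^ 3 : ℤ)) : M) = (b : M) *
        ((Q : M) * (((d * ∏ P ∈ J.erase Q, P : ℤ)) : M)) ^ 3 := by
      rw [← e0]
      simp only [Int.cast_mul, Int.cast_pow]
    have e3 : algebraMap M Ω ((Q : M) * (((d * ∏ P ∈ J.erase Q, P : ℤ)) : M)) =
        (((d * ∏ P ∈ J, P : ℤ)) : Ω) := by
      rw [← e0, map_intCast]
    have hl := hloc w h2w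
    rw [e1, e2] at hl
    have h2 := hLOC2M M Ω (𝓞 M) (𝓞 Ω) w 𝔓 hw (a : M) (b : M)
      (Q : M) (((d * ∏ P ∈ J.erase Q, P : ℤ)) : M) (algebraMap L Ω θ) h hroot
      (val_six h2w h3w) (val_le a w) hb1 hϖ hD' hns hl (by rw [e3]; exact h0)
    rw [e3, map_intCast (algebraMap M Ω)] at h2
    refine ⟨fun h3 => h2.1 h3 ?_, h2.2⟩
    exact odd_top' hEXQ htop hc hF.sq hQp (hF.rb Q hQS) (fam_ns hS hF hQS)
      (hu Q hQp (hJT Q hQ)) 𝔓 h𝔓 h3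
  refine ⟨fun 𝔓 h1 h2 => ?_, fun Q hQ 𝔓 h1 h2 => (key Q hQ 𝔓 h1).1 h2,
    fun Q hQ 𝔓 h1 h2 => (key Q hQ 𝔓 h1).2 h2⟩
  obtain ⟨w, hw, hO⟩ := hLIE M Ω (𝓞 M) (𝓞 Ω) 𝔓
  have hnT : ∀ P ∈ irr a b, ¬ Ov P w := fun P hP h => h1 P hP ((hO P).1 h)
  have hdw : ¬ Ov d w := not_ov_d hd hnT
  obtain ⟨v, hv⟩ := val_low hu w hnT
  have hD : w.valuation M (((d * ∏ Q ∈ J, Q : ℤ)) : M) = 1 := by
    refine val_eq_of _ w fun h => ?_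
    rcases ov_mul h with h | h
    · exact hdw h
    · obtain ⟨Q, hQ, h'⟩ := ov_prod h
      exact h2 Q hQ ((hO Q).1 h')
  have hdisc : WithZero.exp (-1 : ℤ) ≤ w.valuation M (4 * (a : M) ^ 3 +
      27 * (b : M) ^ 2) := by
    have e : 4 * (a : M) ^ 3 + 27 * (b : M) ^ 2 =
        algebraMap ℚ M ((dsc a b : ℤ) : ℚ) := by
      rw [map_intCast]
      simp [dsc]
    rw [e, hv]
    exact val_sqfree hF.sq v
  have e3 : algebraMap M Ω (((d * ∏ P ∈ J, P : ℤ)) : M) = (((d * ∏ P ∈ J, P : ℤ)) : Ω) :=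
    map_intCast _ _
  have hl := hloc w (hnT 2 h2T)
  have hl' : PLoc (w.adicCompletion M) ((a : M) * (((d * ∏ Q ∈ J, Q : ℤ)) : M) ^ 2)
      ((b : M) * (((d * ∏ Q ∈ J, Q : ℤ)) : M) ^ 3) h := by
    have e1 : (((a * (d * ∏ Q ∈ J, Q) ^ 2 : ℤ)) : M) =
        (a : M) * (((d * ∏ Q ∈ J, Q : ℤ)) : M) ^ 2 := by
      simp only [Int.cast_mul, Int.cast_pow]
    have e2 : (((b * (d * ∏ Q ∈ J, Q) ^ 3 : ℤ)) : M) =
        (b : M) * (((d * ∏ Q ∈ J, Q : ℤ)) : M) ^ 3 := by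
      simp only [Int.cast_mul, Int.cast_pow]
    rw [← e1, ← e2]
    exact hl
  have h3 := hLOC1M M Ω (𝓞 M) (𝓞 Ω) w 𝔓 hw (a : M) (b : M)
    (((d * ∏ P ∈ J, P : ℤ)) : M) (algebraMap L Ω θ) h hroot
    (val_six (hnT 2 h2T) (hnT 3 h3T)) (val_le a w) (val_le b w) hD hdisc hl'
    (by rw [e3]; exact h0)
  rw [e3] at h3
  exact h3

end top

end Pool.Agent.H30EV
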