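import Pool.Agent.H30EV.Count
import Pool.Agent.N137.PV.Tor

/-!
# The twists have no points over the admissible fields
-/

set_option autoImplicit false
set_option linter.all false

open Polynomial IsDedekindDomain WeierstrassCurve WeierstrassCurve.Affine NumberField
open Pool.Agent.TH115.GD
open scoped Classical

namespace Pool.Agent.H30EV

open Pool.Agent.N874.PP (sW)
open Pool.Agent.N874.PM (SelR ShaR)
open Pool.Agent.N922.PQ Pool.Agent.N137.PV

section val

variable {F : Type} [Field F] (v : Valuation F (WithZero (Multiplicative ℤ)))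

/-- a product of two equal values is never `v 8` -/
theorem sq_ne_eight (hv : v 2 = WithZero.exp (-1 : ℤ)) (y : F) : v (y ^ 2) ≠ v 8 := by
  intro h
  have e8 : (8 : F) = 2 ^ 3 := by norm_num
  rw [e8, map_pow, map_pow, hv, ← WithZero.exp_nsmul] at h
  have hy : v y ≠ 0 := by
    intro h0
    rw [h0, zero_pow two_ne_zero] at h
    exact WithZero.exp_ne_zero h.symm
  rw [← WithZero.exp_log hy, ← WithZero.exp_nsmul, WithZero.exp_inj] at h
  simp only [smul_eq_mul, nsmul_eq_mul] at h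
  omega

theorem dup_even (hv : v 2 = WithZero.exp (-1 : ℤ)) (a b : ℤ)
    (hnz : ∀ t : F, v t ≤ 1 → ¬ v (t ^ 3 + (a : F) * t + (b : F)) < 1) (x y D : F) (hx : v x ≤ 1)
    (h : y ^ 2 = x ^ 3 + ((4 * a : ℤ) : F) * x + ((8 * b : ℤ) : F))
    (hD : D * (4 * y ^ 2) = (x ^ 2 - ((4 * a : ℤ) : F)) ^ 2 -
      8 * ((8 * b : ℤ) : F) * x) : 1 < v D := by
  have h2 := two_ne v hv
  have hv2 : v 2 ≠ 0 := (v.ne_zero_iff).2 h2
  have ha := int_le v a
  have hb := int_le v b
  -- `x` is a unit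
  have hx1 : v x = 1 := by
    refine le_antisymm hx (not_lt.1 fun h1 => ?_)
    obtain ⟨t, ht⟩ : ∃ t : F, x = 2 * t := ⟨x / 2, by field_simp⟩
    have hvt : v t ≤ 1 := by
      have h3 : v 2 * v t ≤ v 2 * 1 := by
        rw [← map_mul, mul_one, ← ht]
        exact lt_one_le v hv h1
      exact le_of_mul_le_mul_left h3 (zero_lt_iff.2 hv2)
    have h4 : v (t ^ 3 + (a : F) * t + (b : F)) = 1 := by
      refine le_antisymm ?_ (not_lt.1 (hnz t hvt))
      refine add_le_one v (add_le_one v ?_ (mul_le_one_v v ha hvt)) hb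
      rw [map_pow]
      exact pow_le_one' hvt 3
    apply sq_ne_eight v hv y
    have e : y ^ 2 = 8 * (t ^ 3 + (a : F) * t + (b : F)) := by
      rw [h, ht]
      push_cast
      ring
    rw [e, map_mul, h4, mul_one]
  have h4' : v (4 : F) < 1 := by
    have : (4 : F) = 2 * 2 := by norm_num
    rw [this]
    exact two_mul_lt v hv (two_lt v hv).le
  have e2 : v (x ^ 2 - ((4 * a : ℤ) : F)) = 1 := by
    rw [sub_eq_add_neg, Valuation.map_add_eq_of_lt_left]
    · rw [map_pow, hx1, one_pow]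
    · rw [Valuation.map_neg, map_pow, hx1, one_pow]
      have : ((4 * a : ℤ) : F) = 2 * (((2 * a : ℤ)) : F) := by push_cast; ring
      rw [this]
      exact two_mul_lt v hv (int_le v _)
  have e3 : v (8 * ((8 * b : ℤ) : F) * x) < 1 := by
    have : (8 : F) * ((8 * b : ℤ) : F) * x =
        2 * (((4 : ℤ) : F) * ((8 * b : ℤ) : F) * x) := by push_cast; ring
    rw [this]
    exact two_mul_lt v hv (mul_le_one_v v (mul_le_one_v v (int_le v 4) (int_le v _)) hx)
  have e4 : v ((x ^ 2 - ((4 * a : ℤ) : F)) ^ 2 - 8 * ((8 * b : ℤ) : F) * x) = 1 := by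
    rw [sub_eq_add_neg, Valuation.map_add_eq_of_lt_left]
    · rw [map_pow, e2, one_pow]
    · rw [Valuation.map_neg, map_pow, e2, one_pow]
      exact e3
  have e5 : v (y ^ 2) ≤ 1 := by
    rw [h]
    refine add_le_one v (add_le_one v ?_ (mul_le_one_v v (int_le v _) hx)) (int_le v _)
    rw [map_pow]; exact pow_le_one' hx 3
  have e6 : v (4 * y ^ 2) < 1 := by
    have : (4 : F) * y ^ 2 = 2 * (((2 : ℤ) : F) * y ^ 2) := by push_cast; ring
    rw [this]
    exact two_mul_lt v hv (mul_le_one_v v (int_le v 2) e5)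
  by_contra hc
  push Not at hc
  have e7 : v D * v (4 * y ^ 2) = 1 := by rw [← map_mul, hD, e4]
  have e8 : v D * v (4 * y ^ 2) < 1 := by
    calc v D * v (4 * y ^ 2) ≤ 1 * v (4 * y ^ 2) := by gcongr
      _ = v (4 * y ^ 2) := one_mul _
      _ < 1 := e6
  rw [e7] at e8
  exact lt_irrefl _ e8

end val

/-- No points, if the doubles of the integral points are not integral. -/
theorem tor_gen {M : Type} [Field M] [CharZero M] (v : Valuation M (WithZero (Multiplicative ℤ)))
    (hv : v 2 = WithZero.exp (-1 : ℤ)) (A B : ℤ)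
    (H : ∀ x y D : M, v x ≤ 1 → y ^ 2 = x ^ 3 + (A : M) * x + (B : M) →
      D * (4 * y ^ 2) = (x ^ 2 - (A : M)) ^ 2 - 8 * (B : M) * x → 1 < v D)
    (hfin : Finite (Pt (sW (A : M) (B : M)) M)) (hodd : Odd (Nat.card (Pt (sW (A : M) (B : M)) M))) :
    Subsingleton (Pt (sW (A : M) (B : M)) M) := by
  by_contra hsub
  rw [not_subsingleton_iff_nontrivial] at hsub
  -- nonzero points are not of order two
  have htwo : ∀ P : Pt (sW (A : M) (B : M)) M, P ≠ 0 → P + P ≠ 0 := by
    intro P hP h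
    have h1 : addOrderOf P ∣ 2 := by
      apply addOrderOf_dvd_of_nsmul_eq_zero
      rw [two_nsmul]; exact h
    have h2 : addOrderOf P ∣ Nat.card (Pt (sW (A : M) (B : M)) M) := addOrderOf_dvd_natCard P
    have h3 : addOrderOf P = 1 := by
      rcases (Nat.dvd_prime Nat.prime_two).1 h1 with h4 | h4
      · exact h4
      · rw [h4] at h2
        exact absurd hodd (by rw [Nat.not_odd_iff_even]; exact (even_iff_two_dvd.2 h2))
    exact hP (AddMonoid.addOrderOf_eq_one_iff.1 h3)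
  -- doubling increases the value
  have key : ∀ P : Pt (sW (A : M) (B : M)) M, P ≠ 0 →
      1 < xv _ _ v (P + P) ∧ xv _ _ v P < xv _ _ v (P + P) := by
    intro P hP
    match P, hP with
    | .zero, hP => exact absurd rfl hP
    | .some x y h, hP =>
      have hy : y ≠ 0 := by
        rintro rfl
        apply htwo _ hP
        apply Point.add_self_of_Y_eq
        rw [negY_eq]
        ring
      obtain ⟨D, z, h', hadd, hD⟩ := dup _ _ x y h hy
      rw [hadd]
      have he := eqn _ _ h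
      show 1 < v D ∧ v x < v D
      rcases le_or_gt (v x) 1 with hx | hx
      · have := H x y D hx he hD
        exact ⟨this, lt_of_le_of_lt hx this⟩
      · have := dup2 v hv _ _ x y D hx he hD
        exact ⟨lt_trans hx this, this⟩
  obtain ⟨Q, hQ⟩ := exists_ne (0 : Pt (sW (A : M) (B : M)) M)
  obtain ⟨P, hP⟩ := Finite.exists_max (xv (A : M) (B : M) v)
  have hP0 : P ≠ 0 := by
    rintro rfl
    have h1 := (key Q hQ).1
    have h2 := hP (Q + Q)
    have h3 : xv (A : M) (B : M) v 0 = 0 := rfl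
    rw [h3] at h2
    exact absurd (lt_of_lt_of_le h1 h2) (not_lt.2 zero_le_one)
  exact absurd (key P hP0).2 (not_lt.2 (hP (P + P)))

/-- The cubic polynomial has no zero in the residue field. -/
theorem no_res (M : Type) [Field M] [NumberField M] [IsGalois ℚ M] {n : ℕ}
    (hM : Module.finrank ℚ M = 2 ^ n) (w : HeightOneSpectrum (𝓞 M)) (hw : Ov 2 w) {a b : ℤ}
    (ha : Odd a) (hb : Odd b) (t : M) (ht : w.valuation M t ≤ 1) :
    ¬ w.valuation M (t ^ 3 + (a : M) * t + (b : M)) < 1 := by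
  intro hlt
  obtain ⟨r, hr⟩ := HeightOneSpectrum.exists_valuation_sub_lt_of_integer w ht 1
  have hr' : w.valuation M (algebraMap (𝓞 M) M r - t) < 1 := by simpa using hr
  have hrl : w.valuation M (algebraMap (𝓞 M) M r) ≤ 1 := w.valuation_le_one r
  have ha1 := int_le (w.valuation M) a
  have hp : w.asIdeal.IsPrime := w.isPrime
  refine Pool.Agent.N301.PV.no_root M n hM w.asIdeal ?_ a b ha hb r ?_
  · have h : ((2 : ℤ) : 𝓞 M) ∈ w.asIdeal := hw
    simpa using h
  · rw [← w.valuation_lt_one_iff_mem (K := M)]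
    have e : algebraMap (𝓞 M) M (r ^ 3 + (a : 𝓞 M) * r + (b : 𝓞 M)) =
        (t ^ 3 + (a : M) * t + (b : M)) + (algebraMap (𝓞 M) M r - t) *
          ((algebraMap (𝓞 M) M r) ^ 2 + algebraMap (𝓞 M) M r * t + t ^ 2 + (a : M)) := by
      rw [map_add, map_add, map_mul, map_pow, map_intCast, map_intCast]
      ring
    refine lt_of_eq_of_lt (congrArg (w.valuation M) e) ?_
    refine lt_of_le_of_lt (Valuation.map_add _ _ _) (max_lt hlt ?_)
    rw [map_mul]
    have h2 : w.valuation M ((algebraMap (𝓞 M) M r) ^ 2 + algebraMap (𝓞 M) M r * t + t ^ 2 +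
        (a : M)) ≤ 1 := by
      refine add_le_one _ (add_le_one _ (add_le_one _ ?_ (mul_le_one_v _ hrl ht)) ?_) ha1
      · rw [map_pow]; exact pow_le_one' hrl 2
      · rw [map_pow]; exact pow_le_one' ht 2
    calc _ ≤ w.valuation M (algebraMap (𝓞 M) M r - t) * 1 := by gcongr
      _ < 1 := by rw [mul_one]; exact hr'

/-- The conclusions for a good curve. -/
theorem concl {M : Type} [Field M] [NumberField M] [IsGalois ℚ M] {n : ℕ}
    (hM : Module.finrank ℚ M = 2 ^ n) {A B d : ℤ} (hAB : 4 * A ^ 3 + 27 * B ^ 2 ≠ 0)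
    (hG : GSel A B) (hadm : Adm M A B) (hd : Tw A B d) :
    SelR (𝓞 M) (sW (((A * d ^ 2 : ℤ)) : M) (((B * d ^ 3 : ℤ)) : M)) ∧
    ShaR (𝓞 M) (sW (((A * d ^ 2 : ℤ)) : M) (((B * d ^ 3 : ℤ)) : M)) ∧
    Subsingleton (Pt (sW (((A * d ^ 2 : ℤ)) : M) (((B * d ^ 3 : ℤ)) : M)) M) := by
  have hsel := hG.sel M n hM hadm d hd
  have h6M : (6 : M) ≠ 0 := by norm_num
  have hd0 : d ≠ 0 := by
    rintro rfl
    have := hd.two
    omega
  have hdM : 4 * (((A * d ^ 2 : ℤ)) : M) ^ 3 + 27 * (((B * d ^ 3 : ℤ)) : M) ^ 2 ≠ 0 := by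
    have e : 4 * (A * d ^ 2) ^ 3 + 27 * (B * d ^ 3) ^ 2 = d ^ 6 * (4 * A ^ 3 + 27 * B ^ 2) := by
      ring
    have h1 : 4 * (A * d ^ 2) ^ 3 + 27 * (B * d ^ 3) ^ 2 ≠ 0 := by
      rw [e]
      exact mul_ne_zero (pow_ne_zero _ hd0) hAB
    exact_mod_cast h1
  obtain ⟨h2, h3⟩ := N650.PM.gfr M (𝓞 M) _ _ h6M hdM hsel
  have hfin := Pool.Agent.N273.PQ.finm M _ _ hdM h2
  have hodd : Odd (Nat.card (Pt (sW (((A * d ^ 2 : ℤ)) : M) (((B * d ^ 3 : ℤ)) : M)) M)) := by
    haveI := hfin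
    exact odd_card (G := Pt (sW (((A * d ^ 2 : ℤ)) : M) (((B * d ^ 3 : ℤ)) : M)) M) h2
  refine ⟨hsel, h3, ?_⟩
  obtain ⟨w, hw⟩ := exists_over (𝓞 M)
  have hv : w.valuation M 2 = WithZero.exp (-1 : ℤ) := by
    have h2 := hadm.two w hw
    have e0 : ((2 : ℤ) : M) = 2 := by norm_num
    rwa [e0] at h2
  have ha4 := hG.a4
  have hb4 := hG.b4
  rcases hd.two with hd4 | hd4
  · obtain ⟨k, rfl⟩ : ∃ k, d = 4 * k + 1 := ⟨d / 4, by omega⟩
    refine Pool.Agent.N137.PV.tor M (𝓞 M) w hv _ _ ?_ ?_ hfin hodd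
    · have h1 : Odd A := by
        rw [Int.odd_iff]
        omega
      refine h1.mul (Odd.pow ?_)
      rw [Int.odd_iff]
      omega
    · have e : A * (4 * k + 1) ^ 2 - B * (4 * k + 1) ^ 3 = (A - B) +
        4 * (A * (4 * k ^ 2 + 2 * k) - B * (16 * k ^ 3 + 12 * k ^ 2 + 3 * k)) := by ring
      rw [e]
      exact dvd_add (by omega) (dvd_mul_right _ _)
  · obtain ⟨m, rfl⟩ : ∃ m, d = 2 * m := ⟨d / 2, by omega⟩
    have hm : Odd m := by
      rw [Int.odd_iff]
      omega
    have ho1 : Odd (A * m ^ 2) := by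
      have h1 : Odd A := by
        rw [Int.odd_iff]
        omega
      exact h1.mul hm.pow
    have ho2 : Odd (B * m ^ 3) := by
      have h1 : Odd B := by
        rw [Int.odd_iff]
        omega
      exact h1.mul hm.pow
    have e1 : A * (2 * m) ^ 2 = 4 * (A * m ^ 2) := by ring
    have e2 : B * (2 * m) ^ 3 = 8 * (B * m ^ 3) := by ring
    rw [e1, e2] at hfin hodd ⊢
    refine tor_gen (w.valuation M) hv _ _ (fun x y D hx h hD => ?_) hfin hodd
    exact dup_even (w.valuation M) hv _ _ (fun t ht => no_res M hM w hw ho1 ho2 t ht) x y D hx h hD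

end Pool.Agent.H30EV
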